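import Pool.Agent.H492.RZ.Final3

/-!
# The asymptotic form of the bound in depth four
-/

set_option autoImplicit false

namespace Pool.Agent.H492.RF

open Module Pool.Agent.H492.RZ

theorem dW2_le (a2 C2 : ℝ) (h2 : 0 ≤ a2)
    (b2 : ∀ e : ℕ, (finrank ℚ (Pool.Agent.H492.UB.W ℚ 2 e) : ℝ) ≤ a2 * e + C2) (k : ℕ) :
    (dW 2 k : ℝ) ≤ a2 * k + max C2 0 := by
  unfold dW
  split_ifs with h
  · have h5 : ((k - 2 : ℕ) : ℝ) ≤ k := by exact_mod_cast Nat.sub_le k 2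
    have h6 := b2 (k - 2)
    have h7 : C2 ≤ max C2 0 := le_max_left _ _
    nlinarith [mul_le_mul_of_nonneg_left h5 h2]
  · push_cast
    have h7 : 0 ≤ max C2 0 := le_max_right _ _
    positivity

theorem dW2_odd (k : ℕ) (hk : Odd k) : dW 2 k = 0 := by
  unfold dW
  split_ifs with h
  · have h5 : Odd (k - 2) := by
      obtain ⟨m, rfl⟩ := hk
      exact ⟨m - 1, by omega⟩
    rw [sOdd2 (k - 2) h5]
    exact finrank_bot ℚ _
  · rfl

/-- `dW r k` for general `r ≥ 2` -/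
theorem dW_le (r n : ℕ) (a C : ℝ) (ha : 0 ≤ a)
    (b : ∀ e : ℕ, (finrank ℚ (Pool.Agent.H492.UB.W ℚ r e) : ℝ) ≤ a * e ^ (n + 1) + C * (e ^ n + 1)) (k : ℕ) :
    (dW r k : ℝ) ≤ a * k ^ (n + 1) + max C 0 * (k ^ n + 1) := by
  have h7 : 0 ≤ max C 0 := le_max_right _ _
  unfold dW
  split_ifs with h
  · have h5 : ((k - r : ℕ) : ℝ) ≤ k := by exact_mod_cast Nat.sub_le k r
    have h6 := b (k - r)
    have h0 : (0 : ℝ) ≤ ((k - r : ℕ) : ℝ) := Nat.cast_nonneg _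
    have h8 : ((k - r : ℕ) : ℝ) ^ (n + 1) ≤ (k : ℝ) ^ (n + 1) := by gcongr
    have h9 : C * (((k - r : ℕ) : ℝ) ^ n + 1) ≤ max C 0 * (k ^ n + 1) := by
      calc C * (((k - r : ℕ) : ℝ) ^ n + 1) ≤ max C 0 * (((k - r : ℕ) : ℝ) ^ n + 1) := by
            have : C ≤ max C 0 := le_max_left _ _
            gcongr
        _ ≤ max C 0 * (k ^ n + 1) := by gcongr
    have h10 := mul_le_mul_of_nonneg_left h8 ha
    linarith
  · push_cast
    positivity

/-- the bound in depth four -/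
theorem bnd_le : ∃ C : ℝ, ∀ k : ℕ, Even k → (bnd (dW 2) (dW 3) (dW 4) k : ℝ) ≤
    (1 / 1152 + (1 / 6) / 48 + (1 / 6) ^ 2 / 24 + (235 / 11232) / 6 + 373 / 179712) * k ^ 3 +
      C * (k ^ 2 + 1) := by
  obtain ⟨C2, b2⟩ := ls2W sSepE
  obtain ⟨C3, b3⟩ := Pool.Agent.H492.UT.ls3W
  obtain ⟨C4, b4⟩ := ls4W3
  set C : ℝ := max (max (max C2 C3) C4) 0 with hC
  have hC0 : 0 ≤ C := le_max_right _ _
  have hC2 : max C2 0 ≤ C := max_le ((le_max_left _ _).trans ((le_max_left _ _).trans (le_max_left _ _))) hC0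
  have hC3 : max C3 0 ≤ C := max_le ((le_max_right _ _).trans ((le_max_left _ _).trans (le_max_left _ _))) hC0
  have hC4 : max C4 0 ≤ C := max_le ((le_max_right _ _).trans (le_max_left _ _)) hC0
  have e2 : ∀ k, (dW 2 k : ℝ) ≤ 1 / 6 * k + C := fun k =>
    (dW2_le (1 / 6) C2 (by norm_num) b2 k).trans (by linarith)
  have e3 : ∀ k, (dW 3 k : ℝ) ≤ 235 / 11232 * k ^ 2 + C * (k + 1) := by
    intro k
    have h1 := dW_le 3 1 (235 / 11232) C3 (by norm_num) (fun e => by simpa using b3 e) k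
    rw [pow_one] at h1
    refine h1.trans ?_
    have : (0 : ℝ) ≤ k := Nat.cast_nonneg _
    gcongr
  have e4 : ∀ k, (dW 4 k : ℝ) ≤ 373 / 179712 * k ^ 3 + C * (k ^ 2 + 1) := by
    intro k
    have h1 := dW_le 4 2 (373 / 179712) C4 (by norm_num) b4 k
    refine h1.trans ?_
    gcongr
  exact sNum (dW 2) (dW 3) (dW 4) (1 / 6) (235 / 11232) (373 / 179712) C (by norm_num) (by norm_num)
    (by norm_num) hC0 e2 dW2_odd e3 e4

end Pool.Agent.H492.RF
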