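import Pool.Agent.H492.RF.Stm

/-!
# Statements: depth five in odd weights
-/

set_option autoImplicit false

namespace Pool.Agent.H492.RF

open Module
open Pool.Agent.H492.RZ (SOdd2 SOdd3 dW)

/-- `W ℚ 5 e` is zero for odd `e` -/
def SOdd5 : Prop := ∀ e : ℕ, Odd e → Pool.Agent.H492.UB.W ℚ 5 e = ⊥

section
variable {R : Type} [CommRing R] [Algebra ℚ R] (D : DS R)

/-- The structure of depth five in odd weights: `G r k` are complements. -/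
def SSpan5 : Prop := SFilMul D → SOne D → ∀ G : ℕ → ℕ → Submodule ℚ R,
  (∀ r k, 2 ≤ r → G r k ≤ Fil D r k ∧ Fil D r k ≤ Fil D (r - 1) k ⊔ Prd D r k ⊔ G r k) →
  (∀ r k, 2 ≤ r → r ≤ 5 → ¬ (Even r ↔ Even k) → G r k = ⊥) →
  ∀ k, Odd k → Fil D 5 k ≤ Fil D 4 k ⊔ G 5 k ⊔
    (⨆ i ∈ {i | i ≤ k}, Od D i * G 4 (k - i)) ⊔
    (⨆ i ∈ {i | i ≤ k}, G 2 i * G 3 (k - i)) ⊔
    (⨆ p ∈ {p : ℕ × ℕ | p.1 ≤ p.2 ∧ p.1 + p.2 ≤ k}, Od D p.1 * Od D p.2 * G 3 (k - p.1 - p.2)) ⊔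
    (⨆ p ∈ {p : ℕ × ℕ | p.1 ≤ p.2 ∧ p.1 + p.2 ≤ k}, Od D (k - p.1 - p.2) * (G 2 p.1 * G 2 p.2)) ⊔
    (⨆ p ∈ {p : ℕ × ℕ × ℕ | p.1 ≤ p.2.1 ∧ p.2.1 ≤ p.2.2 ∧ p.1 + p.2.1 + p.2.2 ≤ k},
      Od D p.1 * Od D p.2.1 * Od D p.2.2 * G 2 (k - p.1 - p.2.1 - p.2.2)) ⊔
    (⨆ p ∈ {p : ℕ × ℕ × ℕ × ℕ × ℕ | p.1 ≤ p.2.1 ∧ p.2.1 ≤ p.2.2.1 ∧ p.2.2.1 ≤ p.2.2.2.1 ∧
      p.2.2.2.1 ≤ p.2.2.2.2 ∧ p.1 + p.2.1 + p.2.2.1 + p.2.2.2.1 + p.2.2.2.2 = k},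
      Od D p.1 * Od D p.2.1 * Od D p.2.2.1 * Od D p.2.2.2.1 * Od D p.2.2.2.2)

end

/-- the odd quintuples with sum `k` -/
def quins (k : ℕ) : Finset (ℕ × ℕ × ℕ × ℕ × ℕ) :=
  (Finset.range (k + 1) ×ˢ Finset.range (k + 1) ×ˢ Finset.range (k + 1) ×ˢ Finset.range (k + 1) ×ˢ
    Finset.range (k + 1)).filter
    fun p => (Odd p.1 ∧ Odd p.2.1 ∧ Odd p.2.2.1 ∧ Odd p.2.2.2.1 ∧ Odd p.2.2.2.2) ∧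
      (p.1 ≤ p.2.1 ∧ p.2.1 ≤ p.2.2.1 ∧ p.2.2.1 ≤ p.2.2.2.1 ∧ p.2.2.2.1 ≤ p.2.2.2.2) ∧
      p.1 + p.2.1 + p.2.2.1 + p.2.2.2.1 + p.2.2.2.2 = k

/-- the bound for the dimension -/
def bnd5 (d2 d3 d4 d5 : ℕ → ℕ) (k : ℕ) : ℕ :=
  d5 k + ∑ i ∈ (Finset.range (k + 1)).filter Odd, d4 (k - i) +
    ∑ i ∈ Finset.range (k + 1), d2 i * d3 (k - i) +
    ∑ p ∈ (Finset.range (k + 1) ×ˢ Finset.range (k + 1)).filter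
      (fun p => Odd p.1 ∧ Odd p.2 ∧ p.1 ≤ p.2 ∧ p.1 + p.2 ≤ k), d3 (k - p.1 - p.2) +
    ∑ p ∈ (Finset.range (k + 1) ×ˢ Finset.range (k + 1)).filter
      (fun p => p.1 ≤ p.2 ∧ p.1 + p.2 ≤ k), d2 p.1 * d2 p.2 +
    ∑ p ∈ (Finset.range (k + 1) ×ˢ Finset.range (k + 1) ×ˢ Finset.range (k + 1)).filter
      (fun p => Odd p.1 ∧ Odd p.2.1 ∧ Odd p.2.2 ∧ p.1 ≤ p.2.1 ∧ p.2.1 ≤ p.2.2 ∧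
        p.1 + p.2.1 + p.2.2 ≤ k), d2 (k - p.1 - p.2.1 - p.2.2) + (quins k).card

/-- the dimension of the depth five part in odd weights -/
def SDimFive {R : Type} [CommRing R] [Algebra ℚ R] (D : DS R) : Prop :=
  SFilMul D → SOne D → SSpan5 D → SInd D → SOdd2 → SOdd3 → Pool.Agent.H492.UB.SOdd → SOdd5 →
  ∀ k, Odd k → finrank ℚ (gr D 5 k) ≤ bnd5 (dW 2) (dW 3) (dW 4) (dW 5) k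

/-- the asymptotic form of the bound -/
def SNum5 : Prop := ∀ (d2 d3 d4 d5 : ℕ → ℕ) (a2 a3 a4 a5 C : ℝ), 0 ≤ a2 → 0 ≤ a3 → 0 ≤ a4 → 0 ≤ a5 → 0 ≤ C →
  (∀ k, (d2 k : ℝ) ≤ a2 * k + C) → (∀ k, Odd k → d2 k = 0) →
  (∀ k, (d3 k : ℝ) ≤ a3 * k ^ 2 + C * (k + 1)) →
  (∀ k, (d4 k : ℝ) ≤ a4 * k ^ 3 + C * (k ^ 2 + 1)) →
  (∀ k, (d5 k : ℝ) ≤ a5 * k ^ 4 + C * (k ^ 3 + 1)) →
  ∃ C' : ℝ, ∀ k : ℕ, Odd k → (bnd5 d2 d3 d4 d5 k : ℝ) ≤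
    (a5 + a4 / 8 + a2 * a3 / 24 + a3 / 96 + a2 ^ 2 / 192 + a2 / 1152 + 1 / 46080) * k ^ 4 +
      C' * (k ^ 3 + 1)

end Pool.Agent.H492.RF
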