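import Mathlib
import Pool.Agent.H492.RF.Stm5

/-!
# RF: the asymptotic form of the bound in depth five (`SNum5`)
-/

set_option autoImplicit false

namespace Pool.Agent.H492.RF

namespace H653Num

/-- sums along an arithmetic progression -/
noncomputable def SS (s : ℕ) (g : ℕ → ℝ) (m : ℕ) : ℝ := ∑ y ∈ Finset.range (m / s + 1), g (m - s * y)

theorem SS_add {s : ℕ} (hs : 0 < s) (g : ℕ → ℝ) (m : ℕ) : SS s g (m + s) = g (m + s) + SS s g m := by
  unfold SS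
  rw [Nat.add_div_right m hs, Finset.sum_range_succ', add_comm]
  congr 1
  refine Finset.sum_congr rfl fun y _ => ?_
  congr 1
  rw [Nat.mul_add, Nat.mul_one]
  omega

theorem SS_le {s : ℕ} (hs : 0 < s) (g B : ℕ → ℝ) (h0 : ∀ m < s, g m ≤ B m)
    (h1 : ∀ m, g (m + s) + B m ≤ B (m + s)) : ∀ m, SS s g m ≤ B m := by
  intro m
  induction m using Nat.strong_induction_on with
  | _ m ih =>
    by_cases hm : m < s
    · have h2 : SS s g m = g m := by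
        unfold SS
        rw [Nat.div_eq_of_lt hm]
        simp
      rw [h2]
      exact h0 m hm
    · obtain ⟨m', rfl⟩ : ∃ m', m = m' + s := ⟨m - s, by omega⟩
      rw [SS_add hs]
      have h2 := ih m' (by omega)
      have h3 := h1 m'
      linarith

/-! ### the number of the quintuples -/

theorem two_le (m : ℕ) : SS 2 (fun _ => 1) m ≤ (m : ℝ) / 2 + 1 := by
  refine SS_le (by norm_num) _ (fun m => (m : ℝ) / 2 + 1) (fun m _ => ?_) (fun m => ?_) m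
  · have : (0 : ℝ) ≤ m := Nat.cast_nonneg m
    linarith
  · push_cast
    linarith

theorem three_le (m : ℕ) : SS 3 (SS 2 (fun _ => 1)) m ≤ (m : ℝ) ^ 2 / 12 + 3 * m / 4 + 3 / 2 := by
  refine SS_le (by norm_num) _ (fun m => (m : ℝ) ^ 2 / 12 + 3 * m / 4 + 3 / 2) (fun m _ => ?_)
    (fun m => ?_) m
  · have h1 := two_le m
    have : (0 : ℝ) ≤ m := Nat.cast_nonneg m
    nlinarith [sq_nonneg (m : ℝ)]
  · have h1 := two_le (m + 3)
    push_cast at h1 ⊢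
    nlinarith

theorem four_le (m : ℕ) : SS 4 (SS 3 (SS 2 (fun _ => 1))) m ≤
    (m : ℝ) ^ 3 / 144 + (m : ℝ) ^ 2 / 6 + m + 3 / 2 := by
  refine SS_le (by norm_num) _ (fun m => (m : ℝ) ^ 3 / 144 + (m : ℝ) ^ 2 / 6 + m + 3 / 2)
    (fun m _ => ?_) (fun m => ?_) m
  · have h1 := three_le m
    have h2 : (0 : ℝ) ≤ m := Nat.cast_nonneg m
    have h3 : (0 : ℝ) ≤ (m : ℝ) ^ 3 := by positivity
    nlinarith [sq_nonneg (m : ℝ)]
  · have h1 := three_le (m + 4)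
    have h2 : (0 : ℝ) ≤ m := Nat.cast_nonneg m
    push_cast at h1 ⊢
    nlinarith [sq_nonneg (m : ℝ)]

theorem five_le (m : ℕ) : SS 5 (SS 4 (SS 3 (SS 2 (fun _ => 1)))) m ≤
    (m : ℝ) ^ 4 / 2880 + (m : ℝ) ^ 3 / 60 + (m : ℝ) ^ 2 / 2 + 2 * m + 3 / 2 := by
  refine SS_le (by norm_num) _
    (fun m => (m : ℝ) ^ 4 / 2880 + (m : ℝ) ^ 3 / 60 + (m : ℝ) ^ 2 / 2 + 2 * m + 3 / 2)
    (fun m _ => ?_) (fun m => ?_) m
  · have h1 := four_le m
    have h2 : (0 : ℝ) ≤ m := Nat.cast_nonneg m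
    have h3 : (0 : ℝ) ≤ (m : ℝ) ^ 3 := by positivity
    have h4 : (0 : ℝ) ≤ (m : ℝ) ^ 4 := by positivity
    have h5 : (0 : ℝ) ≤ (m : ℝ) ^ 2 := by positivity
    linarith
  · have h1 := four_le (m + 5)
    have h2 : (0 : ℝ) ≤ m := Nat.cast_nonneg m
    have h5 : (0 : ℝ) ≤ (m : ℝ) ^ 2 := by positivity
    push_cast at h1 ⊢
    nlinarith

theorem quins_card (n : ℕ) : ((quins (2 * (n + 2) + 1)).card : ℝ) =
    SS 5 (SS 4 (SS 3 (SS 2 (fun _ => 1)))) n := by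
  set T : Finset ((_ : ℕ) × (_ : ℕ) × (_ : ℕ) × ℕ) := (Finset.range (n / 5 + 1)).sigma fun w =>
    (Finset.range ((n - 5 * w) / 4 + 1)).sigma fun x =>
    (Finset.range ((n - 5 * w - 4 * x) / 3 + 1)).sigma fun y =>
      Finset.range ((n - 5 * w - 4 * x - 3 * y) / 2 + 1)
    with hT
  have h1 : (quins (2 * (n + 2) + 1)).card = T.card := by
    refine Finset.card_nbij'
      (fun p => ⟨p.1 / 2, (p.2.1 - p.1) / 2, (p.2.2.1 - p.2.1) / 2, (p.2.2.2.1 - p.2.2.1) / 2⟩)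
      (fun q => (2 * q.1 + 1, 2 * q.1 + 2 * q.2.1 + 1, 2 * q.1 + 2 * q.2.1 + 2 * q.2.2.1 + 1,
        2 * q.1 + 2 * q.2.1 + 2 * q.2.2.1 + 2 * q.2.2.2 + 1,
        2 * n + 1 - 8 * q.1 - 6 * q.2.1 - 4 * q.2.2.1 - 2 * q.2.2.2)) ?_ ?_ ?_ ?_
    · rintro ⟨a, b, c, d, e⟩ hp
      simp only [quins, Finset.coe_filter, Finset.mem_product, Finset.mem_range, Set.mem_ofPred_eq,
        Nat.odd_iff] at hp
      simp only [hT, Finset.mem_coe, Finset.mem_sigma, Finset.mem_range]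
      omega
    · rintro ⟨w, x, y, z⟩ hq
      simp only [hT, Finset.mem_coe, Finset.mem_sigma, Finset.mem_range] at hq
      simp only [quins, Finset.coe_filter, Finset.mem_product, Finset.mem_range, Set.mem_ofPred_eq,
        Nat.odd_iff]
      omega
    · rintro ⟨a, b, c, d, e⟩ hp
      simp only [quins, Finset.coe_filter, Finset.mem_product, Finset.mem_range, Set.mem_ofPred_eq,
        Nat.odd_iff] at hp
      simp only [Prod.mk.injEq]
      omega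
    · rintro ⟨w, x, y, z⟩ hq
      simp only [hT, Finset.mem_coe, Finset.mem_sigma, Finset.mem_range] at hq
      simp only [Sigma.mk.injEq, heq_eq_eq]
      omega
  rw [h1, hT, Finset.card_sigma]
  unfold SS
  push_cast
  refine Finset.sum_congr rfl fun w _ => ?_
  rw [Finset.card_sigma]
  push_cast
  refine Finset.sum_congr rfl fun x _ => ?_
  rw [Finset.card_sigma]
  push_cast
  refine Finset.sum_congr rfl fun y _ => ?_
  rw [Finset.card_range, Finset.sum_const, Finset.card_range, nsmul_eq_mul, mul_one]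

theorem quins_le (h : ℕ) : ((quins (2 * h + 1)).card : ℝ) ≤
    1 / 46080 * (2 * (h : ℝ) + 1) ^ 4 + 2 * ((2 * (h : ℝ) + 1) ^ 3 + 1) := by
  have h0 : (0 : ℝ) ≤ h := Nat.cast_nonneg h
  by_cases hh : 2 ≤ h
  · obtain ⟨n, rfl⟩ : ∃ n, h = n + 2 := ⟨h - 2, by omega⟩
    rw [quins_card]
    refine (five_le n).trans ?_
    have hn : (0 : ℝ) ≤ n := Nat.cast_nonneg n
    have hn2 : (0 : ℝ) ≤ (n : ℝ) ^ 2 := by positivity
    have hn3 : (0 : ℝ) ≤ (n : ℝ) ^ 3 := by positivity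
    push_cast
    nlinarith
  · have h1 : quins (2 * h + 1) = ∅ := by
      rw [Finset.eq_empty_iff_forall_notMem]
      rintro ⟨a, b, c, d, e⟩ hp
      simp only [quins, Finset.mem_filter, Finset.mem_product, Finset.mem_range,
        Nat.odd_iff] at hp
      omega
    rw [h1, Finset.card_empty, Nat.cast_zero]
    positivity

/-! ### the sum over one odd number -/

theorem odd_eq (G : ℕ → ℝ) (h : ℕ) :
    ∑ i ∈ (Finset.range (2 * h + 1 + 1)).filter Odd, G (2 * h + 1 - i) =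
      SS 1 (fun m => G (2 * m)) h := by
  unfold SS
  refine Finset.sum_nbij' (fun i => i / 2) (fun t => 2 * t + 1) ?_ ?_ ?_ ?_ ?_
  · intro i hi
    simp only [Finset.mem_filter, Finset.mem_range, Nat.odd_iff, Nat.div_one] at hi ⊢
    omega
  · intro i hi
    simp only [Finset.mem_filter, Finset.mem_range, Nat.odd_iff, Nat.div_one] at hi ⊢
    omega
  · intro i hi
    simp only [Finset.mem_filter, Finset.mem_range, Nat.odd_iff] at hi ⊢
    omega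
  · intro i hi
    omega
  · intro i hi
    simp only [Finset.mem_filter, Finset.mem_range, Nat.odd_iff] at hi
    congr 1
    omega

theorem odd_le (d4 : ℕ → ℕ) (a4 C : ℝ) (ha4 : 0 ≤ a4) (hC : 0 ≤ C)
    (h4 : ∀ k, (d4 k : ℝ) ≤ a4 * k ^ 3 + C * (k ^ 2 + 1)) (h : ℕ) :
    ∑ i ∈ (Finset.range (2 * h + 1 + 1)).filter Odd, (d4 (2 * h + 1 - i) : ℝ) ≤
      a4 / 8 * (2 * (h : ℝ) + 1) ^ 4 + C * ((2 * (h : ℝ) + 1) ^ 3 + 1) := by
  have h0 : (0 : ℝ) ≤ h := Nat.cast_nonneg h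
  rw [odd_eq (fun m => (d4 m : ℝ)) h]
  refine (SS_le (by norm_num) _ (fun m => a4 * (2 * (m : ℝ) ^ 2 * (m + 1) ^ 2) +
    C * (2 * m * (m + 1) * (2 * m + 1) / 3 + (m + 1)))
      (fun m hm => ?_) (fun m => ?_) h).trans ?_
  · obtain rfl : m = 0 := by omega
    have h5 := h4 (2 * 0)
    push_cast at h5 ⊢
    linarith
  · have h5 := h4 (2 * (m + 1))
    push_cast at h5 ⊢
    nlinarith
  · have e1 : 2 * (h : ℝ) ^ 2 * (h + 1) ^ 2 ≤ (2 * (h : ℝ) + 1) ^ 4 / 8 := by nlinarith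
    have e2 : 2 * (h : ℝ) * (h + 1) * (2 * h + 1) / 3 + (h + 1) ≤ (2 * (h : ℝ) + 1) ^ 3 + 1 := by
      have hn2 : (0 : ℝ) ≤ (h : ℝ) ^ 2 := by positivity
      have hn3 : (0 : ℝ) ≤ (h : ℝ) ^ 3 := by positivity
      nlinarith
    have f1 := mul_le_mul_of_nonneg_left e1 ha4
    have f2 := mul_le_mul_of_nonneg_left e2 hC
    linarith

/-! ### the sum over the pairs of odd numbers -/

theorem pairs_eq (G : ℕ → ℝ) (n : ℕ) :
    ∑ p ∈ (Finset.range (2 * (n + 1) + 1 + 1) ×ˢ Finset.range (2 * (n + 1) + 1 + 1)).filter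
      (fun p => Odd p.1 ∧ Odd p.2 ∧ p.1 ≤ p.2 ∧ p.1 + p.2 ≤ 2 * (n + 1) + 1),
        G (2 * (n + 1) + 1 - p.1 - p.2) = SS 2 (SS 1 (fun m => G (2 * m + 1))) n := by
  set T : Finset ((_ : ℕ) × ℕ) := (Finset.range (n / 2 + 1)).sigma fun x =>
    Finset.range ((n - 2 * x) / 1 + 1) with hT
  have h1 : ∑ p ∈ (Finset.range (2 * (n + 1) + 1 + 1) ×ˢ Finset.range (2 * (n + 1) + 1 + 1)).filter
      (fun p => Odd p.1 ∧ Odd p.2 ∧ p.1 ≤ p.2 ∧ p.1 + p.2 ≤ 2 * (n + 1) + 1),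
        G (2 * (n + 1) + 1 - p.1 - p.2) = ∑ q ∈ T, G (2 * (n - 2 * q.1 - 1 * q.2) + 1) := by
    refine Finset.sum_nbij' (fun p => ⟨p.1 / 2, (p.2 - p.1) / 2⟩)
      (fun q => (2 * q.1 + 1, 2 * q.1 + 2 * q.2 + 1)) ?_ ?_ ?_ ?_ ?_
    · rintro ⟨a, b⟩ hp
      simp only [Finset.mem_filter, Finset.mem_product, Finset.mem_range, Nat.odd_iff] at hp
      simp only [hT, Finset.mem_sigma, Finset.mem_range, Nat.div_one]
      omega
    · rintro ⟨x, y⟩ hq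
      simp only [hT, Finset.mem_sigma, Finset.mem_range, Nat.div_one] at hq
      simp only [Finset.mem_filter, Finset.mem_product, Finset.mem_range, Nat.odd_iff]
      omega
    · rintro ⟨a, b⟩ hp
      simp only [Finset.mem_filter, Finset.mem_product, Finset.mem_range, Nat.odd_iff] at hp
      simp only [Prod.mk.injEq]
      omega
    · rintro ⟨x, y⟩ hq
      simp only [hT, Finset.mem_sigma, Finset.mem_range, Nat.div_one] at hq
      simp only [Sigma.mk.injEq, heq_eq_eq]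
      omega
    · rintro ⟨a, b⟩ hp
      simp only [Finset.mem_filter, Finset.mem_product, Finset.mem_range, Nat.odd_iff] at hp
      congr 1
      simp only
      omega
  rw [h1, hT, Finset.sum_sigma]
  rfl

theorem pairs_le (d3 : ℕ → ℕ) (a3 C : ℝ) (ha3 : 0 ≤ a3) (hC : 0 ≤ C)
    (h3 : ∀ k, (d3 k : ℝ) ≤ a3 * k ^ 2 + C * (k + 1)) (h : ℕ) :
    ∑ p ∈ (Finset.range (2 * h + 1 + 1) ×ˢ Finset.range (2 * h + 1 + 1)).filter
      (fun p => Odd p.1 ∧ Odd p.2 ∧ p.1 ≤ p.2 ∧ p.1 + p.2 ≤ 2 * h + 1),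
        (d3 (2 * h + 1 - p.1 - p.2) : ℝ) ≤
    a3 / 96 * (2 * (h : ℝ) + 1) ^ 4 + (a3 + C) * ((2 * (h : ℝ) + 1) ^ 3 + 1) := by
  have h0 : (0 : ℝ) ≤ h := Nat.cast_nonneg h
  rcases h with _ | n
  · have h1 : (Finset.range (2 * 0 + 1 + 1) ×ˢ Finset.range (2 * 0 + 1 + 1)).filter
      (fun p => Odd p.1 ∧ Odd p.2 ∧ p.1 ≤ p.2 ∧ p.1 + p.2 ≤ 2 * 0 + 1) = ∅ := by
      rw [Finset.eq_empty_iff_forall_notMem]
      rintro ⟨a, b⟩ hp
      simp only [Finset.mem_filter, Finset.mem_product, Finset.mem_range, Nat.odd_iff] at hp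
      omega
    rw [h1, Finset.sum_empty]
    positivity
  · rw [pairs_eq (fun m => (d3 m : ℝ)) n]
    have hn : (0 : ℝ) ≤ n := Nat.cast_nonneg n
    have hn2 : (0 : ℝ) ≤ (n : ℝ) ^ 2 := by positivity
    have hn3 : (0 : ℝ) ≤ (n : ℝ) ^ 3 := by positivity
    have hB1 : ∀ m, SS 1 (fun m => (d3 (2 * m + 1) : ℝ)) m ≤
        a3 * ((m + 1) * (2 * m + 1) * (2 * m + 3) / 3) + C * ((m + 1) * (m + 2)) := by
      intro m
      refine SS_le (by norm_num) _ (fun m => a3 * (((m : ℝ) + 1) * (2 * m + 1) * (2 * m + 3) / 3) +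
        C * ((m + 1) * (m + 2))) (fun m hm => ?_) (fun m => ?_) m
      · obtain rfl : m = 0 := by omega
        have h4 := h3 (2 * 0 + 1)
        push_cast at h4 ⊢
        linarith
      · have h4 := h3 (2 * (m + 1) + 1)
        push_cast at h4 ⊢
        nlinarith
    have hB2 : SS 2 (SS 1 (fun m => (d3 (2 * m + 1) : ℝ))) n ≤
        a3 * ((n : ℝ) ^ 4 / 6 + 2 * (n : ℝ) ^ 3 + 6 * (n : ℝ) ^ 2 + 8 * n + 2) +
          C * ((n : ℝ) ^ 3 / 6 + 2 * (n : ℝ) ^ 2 + 2 * n + 2) := by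
      refine SS_le (by norm_num) _
        (fun n => a3 * ((n : ℝ) ^ 4 / 6 + 2 * (n : ℝ) ^ 3 + 6 * (n : ℝ) ^ 2 + 8 * n + 2) +
          C * ((n : ℝ) ^ 3 / 6 + 2 * (n : ℝ) ^ 2 + 2 * n + 2))
        (fun m hm => (hB1 m).trans ?_) (fun m => ?_) n
      · have h4 : m = 0 ∨ m = 1 := by omega
        rcases h4 with rfl | rfl
        · push_cast
          linarith
        · push_cast
          linarith
      · have h4 := hB1 (m + 2)
        have h5 : (0 : ℝ) ≤ m := Nat.cast_nonneg m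
        have h6 : 0 ≤ a3 * m := mul_nonneg ha3 h5
        have h7 : 0 ≤ C * m := mul_nonneg hC h5
        have h8 : 0 ≤ a3 * (m : ℝ) ^ 2 := by positivity
        have h9 : 0 ≤ C * (m : ℝ) ^ 2 := by positivity
        push_cast at h4 ⊢
        linarith
    refine hB2.trans ?_
    have e1 : (n : ℝ) ^ 4 / 6 + 2 * (n : ℝ) ^ 3 + 6 * (n : ℝ) ^ 2 + 8 * n + 2 ≤
        (2 * ((n + 1 : ℕ) : ℝ) + 1) ^ 4 / 96 + ((2 * ((n + 1 : ℕ) : ℝ) + 1) ^ 3 + 1) := by
      push_cast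
      nlinarith
    have e2 : (n : ℝ) ^ 3 / 6 + 2 * (n : ℝ) ^ 2 + 2 * n + 2 ≤
        (2 * ((n + 1 : ℕ) : ℝ) + 1) ^ 3 + 1 := by
      push_cast
      nlinarith
    have f1 := mul_le_mul_of_nonneg_left e1 ha3
    have f2 := mul_le_mul_of_nonneg_left e2 hC
    linarith

/-! ### the sum over the triples of odd numbers -/

theorem trips_eq (G : ℕ → ℝ) (n : ℕ) :
    ∑ p ∈ (Finset.range (2 * (n + 1) + 1 + 1) ×ˢ Finset.range (2 * (n + 1) + 1 + 1) ×ˢ
      Finset.range (2 * (n + 1) + 1 + 1)).filter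
      (fun p => Odd p.1 ∧ Odd p.2.1 ∧ Odd p.2.2 ∧ p.1 ≤ p.2.1 ∧ p.2.1 ≤ p.2.2 ∧
        p.1 + p.2.1 + p.2.2 ≤ 2 * (n + 1) + 1),
        G (2 * (n + 1) + 1 - p.1 - p.2.1 - p.2.2) =
      SS 3 (SS 2 (SS 1 (fun m => G (2 * m)))) n := by
  set T : Finset ((_ : ℕ) × (_ : ℕ) × ℕ) := (Finset.range (n / 3 + 1)).sigma fun x =>
    (Finset.range ((n - 3 * x) / 2 + 1)).sigma fun y =>
    Finset.range ((n - 3 * x - 2 * y) / 1 + 1) with hT
  have h1 : ∑ p ∈ (Finset.range (2 * (n + 1) + 1 + 1) ×ˢ Finset.range (2 * (n + 1) + 1 + 1) ×ˢ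
      Finset.range (2 * (n + 1) + 1 + 1)).filter
      (fun p => Odd p.1 ∧ Odd p.2.1 ∧ Odd p.2.2 ∧ p.1 ≤ p.2.1 ∧ p.2.1 ≤ p.2.2 ∧
        p.1 + p.2.1 + p.2.2 ≤ 2 * (n + 1) + 1),
        G (2 * (n + 1) + 1 - p.1 - p.2.1 - p.2.2) =
      ∑ q ∈ T, G (2 * (n - 3 * q.1 - 2 * q.2.1 - 1 * q.2.2)) := by
    refine Finset.sum_nbij' (fun p => ⟨p.1 / 2, (p.2.1 - p.1) / 2, (p.2.2 - p.2.1) / 2⟩)
      (fun q => (2 * q.1 + 1, 2 * q.1 + 2 * q.2.1 + 1, 2 * q.1 + 2 * q.2.1 + 2 * q.2.2 + 1))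
      ?_ ?_ ?_ ?_ ?_
    · rintro ⟨a, b, c⟩ hp
      simp only [Finset.mem_filter, Finset.mem_product, Finset.mem_range, Nat.odd_iff] at hp
      simp only [hT, Finset.mem_sigma, Finset.mem_range, Nat.div_one]
      omega
    · rintro ⟨x, y, z⟩ hq
      simp only [hT, Finset.mem_sigma, Finset.mem_range, Nat.div_one] at hq
      simp only [Finset.mem_filter, Finset.mem_product, Finset.mem_range, Nat.odd_iff]
      omega
    · rintro ⟨a, b, c⟩ hp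
      simp only [Finset.mem_filter, Finset.mem_product, Finset.mem_range, Nat.odd_iff] at hp
      simp only [Prod.mk.injEq]
      omega
    · rintro ⟨x, y, z⟩ hq
      simp only [hT, Finset.mem_sigma, Finset.mem_range, Nat.div_one] at hq
      simp only [Sigma.mk.injEq, heq_eq_eq]
      omega
    · rintro ⟨a, b, c⟩ hp
      simp only [Finset.mem_filter, Finset.mem_product, Finset.mem_range, Nat.odd_iff] at hp
      congr 1
      simp only
      omega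
  rw [h1, hT, Finset.sum_sigma]
  unfold SS
  refine Finset.sum_congr rfl fun w _ => ?_
  rw [Finset.sum_sigma]

theorem trips_le (d2 : ℕ → ℕ) (a2 C : ℝ) (ha2 : 0 ≤ a2) (hC : 0 ≤ C)
    (h2 : ∀ k, (d2 k : ℝ) ≤ a2 * k + C) (h : ℕ) :
    ∑ p ∈ (Finset.range (2 * h + 1 + 1) ×ˢ Finset.range (2 * h + 1 + 1) ×ˢ
      Finset.range (2 * h + 1 + 1)).filter
      (fun p => Odd p.1 ∧ Odd p.2.1 ∧ Odd p.2.2 ∧ p.1 ≤ p.2.1 ∧ p.2.1 ≤ p.2.2 ∧
        p.1 + p.2.1 + p.2.2 ≤ 2 * h + 1),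
        (d2 (2 * h + 1 - p.1 - p.2.1 - p.2.2) : ℝ) ≤
    a2 / 1152 * (2 * (h : ℝ) + 1) ^ 4 + (a2 + C) * ((2 * (h : ℝ) + 1) ^ 3 + 1) := by
  have h0 : (0 : ℝ) ≤ h := Nat.cast_nonneg h
  rcases h with _ | n
  · have h1 : (Finset.range (2 * 0 + 1 + 1) ×ˢ Finset.range (2 * 0 + 1 + 1) ×ˢ
      Finset.range (2 * 0 + 1 + 1)).filter
      (fun p => Odd p.1 ∧ Odd p.2.1 ∧ Odd p.2.2 ∧ p.1 ≤ p.2.1 ∧ p.2.1 ≤ p.2.2 ∧
        p.1 + p.2.1 + p.2.2 ≤ 2 * 0 + 1) = ∅ := by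
      rw [Finset.eq_empty_iff_forall_notMem]
      rintro ⟨a, b, c⟩ hp
      simp only [Finset.mem_filter, Finset.mem_product, Finset.mem_range, Nat.odd_iff] at hp
      omega
    rw [h1, Finset.sum_empty]
    positivity
  · rw [trips_eq (fun m => (d2 m : ℝ)) n]
    have hn : (0 : ℝ) ≤ n := Nat.cast_nonneg n
    have hn2 : (0 : ℝ) ≤ (n : ℝ) ^ 2 := by positivity
    have hn3 : (0 : ℝ) ≤ (n : ℝ) ^ 3 := by positivity
    have hB1 : ∀ m, SS 1 (fun m => (d2 (2 * m) : ℝ)) m ≤ a2 * (m * (m + 1)) + C * (m + 1) := by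
      intro m
      refine SS_le (by norm_num) _ (fun m => a2 * ((m : ℝ) * (m + 1)) + C * (m + 1))
        (fun m hm => ?_) (fun m => ?_) m
      · obtain rfl : m = 0 := by omega
        have h3 := h2 (2 * 0)
        push_cast at h3 ⊢
        linarith
      · have h3 := h2 (2 * (m + 1))
        push_cast at h3 ⊢
        linarith
    have hB2 : ∀ m, SS 2 (SS 1 (fun m => (d2 (2 * m) : ℝ))) m ≤
        a2 * ((m : ℝ) ^ 3 / 6 + (m : ℝ) ^ 2 + m) + C * ((m : ℝ) ^ 2 / 4 + m + 1) := by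
      intro m
      refine SS_le (by norm_num) _
        (fun n => a2 * ((n : ℝ) ^ 3 / 6 + (n : ℝ) ^ 2 + n) + C * ((n : ℝ) ^ 2 / 4 + n + 1))
        (fun m hm => (hB1 m).trans ?_) (fun m => ?_) m
      · have h3 : m = 0 ∨ m = 1 := by omega
        rcases h3 with rfl | rfl
        · push_cast
          linarith
        · push_cast
          linarith
      · have h3 := hB1 (m + 2)
        have h4 : (0 : ℝ) ≤ m := Nat.cast_nonneg m
        have h5 : 0 ≤ a2 * m := mul_nonneg ha2 h4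
        push_cast at h3 ⊢
        nlinarith
    have hB3 : SS 3 (SS 2 (SS 1 (fun m => (d2 (2 * m) : ℝ)))) n ≤
        a2 * ((n : ℝ) ^ 4 / 72 + (n : ℝ) ^ 3 + 2 * (n : ℝ) ^ 2 + 4 * n + 1) +
          C * ((n : ℝ) ^ 3 / 36 + (n : ℝ) ^ 2 + 2 * n + 1) := by
      refine SS_le (by norm_num) _
        (fun n => a2 * ((n : ℝ) ^ 4 / 72 + (n : ℝ) ^ 3 + 2 * (n : ℝ) ^ 2 + 4 * n + 1) +
          C * ((n : ℝ) ^ 3 / 36 + (n : ℝ) ^ 2 + 2 * n + 1))
        (fun m hm => (hB2 m).trans ?_) (fun m => ?_) n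
      · have h4 : (0 : ℝ) ≤ m := Nat.cast_nonneg m
        have g1 : (m : ℝ) ^ 3 / 6 + (m : ℝ) ^ 2 + m ≤
            (m : ℝ) ^ 4 / 72 + (m : ℝ) ^ 3 + 2 * (m : ℝ) ^ 2 + 4 * m + 1 := by
          have : (0 : ℝ) ≤ (m : ℝ) ^ 4 := by positivity
          have : (0 : ℝ) ≤ (m : ℝ) ^ 3 := by positivity
          have : (0 : ℝ) ≤ (m : ℝ) ^ 2 := by positivity
          linarith
        have g2 : (m : ℝ) ^ 2 / 4 + m + 1 ≤ (m : ℝ) ^ 3 / 36 + (m : ℝ) ^ 2 + 2 * m + 1 := by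
          have : (0 : ℝ) ≤ (m : ℝ) ^ 3 := by positivity
          have : (0 : ℝ) ≤ (m : ℝ) ^ 2 := by positivity
          linarith
        have := mul_le_mul_of_nonneg_left g1 ha2
        have := mul_le_mul_of_nonneg_left g2 hC
        linarith
      · have h3 := hB2 (m + 3)
        have h4 : (0 : ℝ) ≤ m := Nat.cast_nonneg m
        have h5 : 0 ≤ a2 * m := mul_nonneg ha2 h4
        have h6 : 0 ≤ C * m := mul_nonneg hC h4
        have h7 : 0 ≤ a2 * (m : ℝ) ^ 2 := by positivity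
        have h8 : 0 ≤ C * (m : ℝ) ^ 2 := by positivity
        push_cast at h3 ⊢
        linarith
    refine hB3.trans ?_
    have e1 : (n : ℝ) ^ 4 / 72 + (n : ℝ) ^ 3 + 2 * (n : ℝ) ^ 2 + 4 * n + 1 ≤
        (2 * ((n + 1 : ℕ) : ℝ) + 1) ^ 4 / 1152 + ((2 * ((n + 1 : ℕ) : ℝ) + 1) ^ 3 + 1) := by
      push_cast
      nlinarith
    have e2 : (n : ℝ) ^ 3 / 36 + (n : ℝ) ^ 2 + 2 * n + 1 ≤
        (2 * ((n + 1 : ℕ) : ℝ) + 1) ^ 3 + 1 := by
      push_cast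
      nlinarith
    have f1 := mul_le_mul_of_nonneg_left e1 ha2
    have f2 := mul_le_mul_of_nonneg_left e2 hC
    linarith

/-! ### the sum of the products -/

theorem mix_closed (K : ℝ) (T : ℕ) : ∑ t ∈ Finset.range T, 2 * (t : ℝ) * (K - 2 * t) ^ 2 =
    K ^ 2 * T * (T - 1) - 4 / 3 * K * ((T - 1) * T * (2 * T - 1)) + 2 * T ^ 2 * (T - 1) ^ 2 := by
  induction T with
  | zero => simp
  | succ T ih =>
    rw [Finset.sum_range_succ, ih]
    push_cast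
    ring

theorem mix_le (d2 d3 : ℕ → ℕ) (a2 a3 C : ℝ) (ha2 : 0 ≤ a2) (ha3 : 0 ≤ a3) (hC : 0 ≤ C)
    (h2 : ∀ k, (d2 k : ℝ) ≤ a2 * k + C) (hodd : ∀ k, Odd k → d2 k = 0)
    (h3 : ∀ k, (d3 k : ℝ) ≤ a3 * k ^ 2 + C * (k + 1)) (h : ℕ) :
    ∑ i ∈ Finset.range (2 * h + 1 + 1), ((d2 i : ℝ) * d3 (2 * h + 1 - i)) ≤
    a2 * a3 / 24 * (2 * (h : ℝ) + 1) ^ 4 +
      (C * a3 + a2 * C + C ^ 2) * ((2 * (h : ℝ) + 1) ^ 3 + 1) := by
  have h0 : (0 : ℝ) ≤ h := Nat.cast_nonneg h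
  have h1 : ∑ i ∈ Finset.range (2 * h + 1 + 1), ((d2 i : ℝ) * d3 (2 * h + 1 - i)) =
      ∑ i ∈ (Finset.range (2 * h + 1 + 1)).filter Even,
        ((d2 i : ℝ) * d3 (2 * h + 1 - i)) := by
    symm
    apply Finset.sum_filter_of_ne
    intro i _ hne
    by_contra hcon
    apply hne
    rw [hodd i (Nat.not_even_iff_odd.1 hcon), Nat.cast_zero, zero_mul]
  have h3' : ∑ i ∈ (Finset.range (2 * h + 1 + 1)).filter Even,
        ((d2 i : ℝ) * d3 (2 * h + 1 - i)) =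
      ∑ t ∈ Finset.range (h + 1), ((d2 (2 * t) : ℝ) * d3 (2 * h + 1 - 2 * t)) := by
    refine Finset.sum_nbij' (fun i => i / 2) (fun t => 2 * t) ?_ ?_ ?_ ?_ ?_
    · intro i hi
      simp only [Finset.mem_filter, Finset.mem_range, Nat.even_iff] at hi ⊢
      omega
    · intro i hi
      simp only [Finset.mem_filter, Finset.mem_range, Nat.even_iff] at hi ⊢
      omega
    · intro i hi
      simp only [Finset.mem_filter, Finset.mem_range, Nat.even_iff] at hi ⊢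
      omega
    · intro i hi
      omega
    · intro i hi
      simp only [Finset.mem_filter, Finset.mem_range, Nat.even_iff] at hi
      have h4 : 2 * (i / 2) = i := by omega
      simp only [h4]
  rw [h1, h3']
  have h4 : ∀ t ∈ Finset.range (h + 1), ((d2 (2 * t) : ℝ) * d3 (2 * h + 1 - 2 * t)) ≤
      a2 * a3 * (2 * t * ((2 * h + 1) - 2 * t) ^ 2) + (C * a3 * (2 * h + 1) ^ 2 +
        a2 * C * (4 * h * (h + 1)) + C ^ 2 * (2 * h + 2)) := by
    intro t ht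
    rw [Finset.mem_range] at ht
    have hth : 2 * t ≤ 2 * h + 1 := by omega
    have hth' : (t : ℝ) ≤ h := by exact_mod_cast (by omega : t ≤ h)
    have ht0 : (0 : ℝ) ≤ t := Nat.cast_nonneg t
    have h5 := h2 (2 * t)
    have h6 := h3 (2 * h + 1 - 2 * t)
    rw [Nat.cast_sub hth] at h6
    push_cast at h5 h6
    have h7 : (0 : ℝ) ≤ d3 (2 * h + 1 - 2 * t) := Nat.cast_nonneg _
    have h8 : (0 : ℝ) ≤ a2 * (2 * t) + C := by positivity
    refine (mul_le_mul h5 h6 h7 h8).trans ?_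
    have g1 : ((2 * (h : ℝ) + 1) - 2 * t) ^ 2 ≤ (2 * h + 1) ^ 2 :=
      pow_le_pow_left₀ (by linarith) (by linarith) 2
    have g2 : 2 * (t : ℝ) * ((2 * (h : ℝ) + 1) - 2 * t + 1) ≤ 4 * h * (h + 1) := by nlinarith
    have g3 : (2 * (h : ℝ) + 1) - 2 * t + 1 ≤ 2 * h + 2 := by linarith
    have k1 := mul_le_mul_of_nonneg_left g1 (mul_nonneg hC ha3)
    have k2 := mul_le_mul_of_nonneg_left g2 (mul_nonneg ha2 hC)
    have k3 := mul_le_mul_of_nonneg_left g3 (sq_nonneg C)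
    nlinarith
  refine (Finset.sum_le_sum h4).trans ?_
  rw [Finset.sum_add_distrib, ← Finset.mul_sum, mix_closed, Finset.sum_const, Finset.card_range,
    nsmul_eq_mul]
  push_cast
  have e1 : (2 * (h : ℝ) + 1) ^ 2 * (h + 1) * (h + 1 - 1) -
      4 / 3 * (2 * (h : ℝ) + 1) * ((h + 1 - 1) * (h + 1) * (2 * (h + 1) - 1)) +
      2 * (h + 1) ^ 2 * (h + 1 - 1) ^ 2 ≤ (2 * (h : ℝ) + 1) ^ 4 / 24 := by
    nlinarith
  have e2 : ((h : ℝ) + 1) * (2 * h + 1) ^ 2 ≤ (2 * (h : ℝ) + 1) ^ 3 + 1 := by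
    have : (0 : ℝ) ≤ (h : ℝ) ^ 2 := by positivity
    have : (0 : ℝ) ≤ (h : ℝ) ^ 3 := by positivity
    nlinarith
  have e3 : ((h : ℝ) + 1) * (4 * h * (h + 1)) ≤ (2 * (h : ℝ) + 1) ^ 3 + 1 := by
    have : (0 : ℝ) ≤ (h : ℝ) ^ 2 := by positivity
    have : (0 : ℝ) ≤ (h : ℝ) ^ 3 := by positivity
    nlinarith
  have e4 : ((h : ℝ) + 1) * (2 * h + 2) ≤ (2 * (h : ℝ) + 1) ^ 3 + 1 := by
    have : (0 : ℝ) ≤ (h : ℝ) ^ 2 := by positivity
    have : (0 : ℝ) ≤ (h : ℝ) ^ 3 := by positivity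
    nlinarith
  have k1 := mul_le_mul_of_nonneg_left e1 (mul_nonneg ha2 ha3)
  have k2 := mul_le_mul_of_nonneg_left e2 (mul_nonneg hC ha3)
  have k3 := mul_le_mul_of_nonneg_left e3 (mul_nonneg ha2 hC)
  have k4 := mul_le_mul_of_nonneg_left e4 (sq_nonneg C)
  linarith

/-! ### the sum over the pairs of even numbers -/

theorem in_closed (x : ℝ) (m : ℕ) : ∑ y ∈ Finset.range (m + 1), (x + y) =
    (m + 1) * x + m * (m + 1) / 2 := by
  induction m with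
  | zero => simp
  | succ m ih =>
    rw [Finset.sum_range_succ, ih]
    push_cast
    ring

theorem out_closed (h : ℝ) (T : ℕ) : ∑ x ∈ Finset.range T, (x : ℝ) * (h - 2 * x + 1) =
    T * (T - 1) * (3 * h + 5 - 4 * T) / 6 := by
  induction T with
  | zero => simp
  | succ T ih =>
    rw [Finset.sum_range_succ, ih]
    push_cast
    ring

theorem even_le (d2 : ℕ → ℕ) (a2 C : ℝ) (ha2 : 0 ≤ a2) (hC : 0 ≤ C)
    (h2 : ∀ k, (d2 k : ℝ) ≤ a2 * k + C) (hodd : ∀ k, Odd k → d2 k = 0) (h : ℕ) :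
    ∑ p ∈ (Finset.range (2 * h + 1 + 1) ×ˢ Finset.range (2 * h + 1 + 1)).filter
      (fun p => p.1 ≤ p.2 ∧ p.1 + p.2 ≤ 2 * h + 1), ((d2 p.1 : ℝ) * d2 p.2) ≤
    a2 ^ 2 / 192 * (2 * (h : ℝ) + 1) ^ 4 +
      (a2 ^ 2 + C * a2 + C ^ 2) * ((2 * (h : ℝ) + 1) ^ 3 + 1) := by
  have h0 : (0 : ℝ) ≤ h := Nat.cast_nonneg h
  have h1 : ∑ p ∈ (Finset.range (2 * h + 1 + 1) ×ˢ Finset.range (2 * h + 1 + 1)).filter
      (fun p => p.1 ≤ p.2 ∧ p.1 + p.2 ≤ 2 * h + 1), ((d2 p.1 : ℝ) * d2 p.2) =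
      ∑ p ∈ ((Finset.range (2 * h + 1 + 1) ×ˢ Finset.range (2 * h + 1 + 1)).filter
      (fun p => p.1 ≤ p.2 ∧ p.1 + p.2 ≤ 2 * h + 1)).filter (fun p => Even p.1 ∧ Even p.2),
        ((d2 p.1 : ℝ) * d2 p.2) := by
    symm
    apply Finset.sum_filter_of_ne
    intro p _ hne
    constructor
    · by_contra hcon
      apply hne
      rw [hodd p.1 (Nat.not_even_iff_odd.1 hcon), Nat.cast_zero, zero_mul]
    · by_contra hcon
      apply hne
      rw [hodd p.2 (Nat.not_even_iff_odd.1 hcon), Nat.cast_zero, mul_zero]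
  set T : Finset ((_ : ℕ) × ℕ) := (Finset.range (h / 2 + 1)).sigma fun x =>
    Finset.range (h - 2 * x + 1) with hT
  have h3 : ∑ p ∈ ((Finset.range (2 * h + 1 + 1) ×ˢ Finset.range (2 * h + 1 + 1)).filter
      (fun p => p.1 ≤ p.2 ∧ p.1 + p.2 ≤ 2 * h + 1)).filter (fun p => Even p.1 ∧ Even p.2),
        ((d2 p.1 : ℝ) * d2 p.2) =
      ∑ q ∈ T, ((d2 (2 * q.1) : ℝ) * d2 (2 * q.1 + 2 * q.2)) := by
    refine Finset.sum_nbij' (fun p => ⟨p.1 / 2, (p.2 - p.1) / 2⟩)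
      (fun q => (2 * q.1, 2 * q.1 + 2 * q.2)) ?_ ?_ ?_ ?_ ?_
    · rintro ⟨a, b⟩ hp
      simp only [Finset.mem_filter, Finset.mem_product, Finset.mem_range, Nat.even_iff] at hp
      simp only [hT, Finset.mem_sigma, Finset.mem_range]
      omega
    · rintro ⟨x, y⟩ hq
      simp only [hT, Finset.mem_sigma, Finset.mem_range] at hq
      simp only [Finset.mem_filter, Finset.mem_product, Finset.mem_range, Nat.even_iff]
      omega
    · rintro ⟨a, b⟩ hp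
      simp only [Finset.mem_filter, Finset.mem_product, Finset.mem_range, Nat.even_iff] at hp
      simp only [Prod.mk.injEq]
      omega
    · rintro ⟨x, y⟩ hq
      simp only [hT, Finset.mem_sigma, Finset.mem_range] at hq
      simp only [Sigma.mk.injEq, heq_eq_eq]
      omega
    · rintro ⟨a, b⟩ hp
      simp only [Finset.mem_filter, Finset.mem_product, Finset.mem_range, Nat.even_iff] at hp
      have e1 : 2 * (a / 2) = a := by omega
      have e2 : 2 * (a / 2) + 2 * ((b - a) / 2) = b := by omega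
      simp only [e2]
      rw [e1]
  rw [h1, h3, hT, Finset.sum_sigma]
  have h4 : ∀ x ∈ Finset.range (h / 2 + 1),
      ∑ y ∈ Finset.range (h - 2 * x + 1), ((d2 (2 * x) : ℝ) * d2 (2 * x + 2 * y)) ≤
        2 * a2 ^ 2 * h * (x * (h - 2 * x + 1)) + (2 * a2 * C * h + C ^ 2) * (h + 1) := by
    intro x hx
    rw [Finset.mem_range] at hx
    have hxh : 2 * x ≤ h := by omega
    have hxr : 2 * (x : ℝ) ≤ h := by exact_mod_cast hxh
    have hx0 : (0 : ℝ) ≤ x := Nat.cast_nonneg x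
    have h5 : ∀ y ∈ Finset.range (h - 2 * x + 1), ((d2 (2 * x) : ℝ) * d2 (2 * x + 2 * y)) ≤
        4 * a2 ^ 2 * x * (x + y) + (2 * a2 * C * h + C ^ 2) := by
      intro y hy
      rw [Finset.mem_range] at hy
      have hy' : 2 * (x : ℝ) + y ≤ h := by exact_mod_cast (by omega : 2 * x + y ≤ h)
      have hy0 : (0 : ℝ) ≤ y := Nat.cast_nonneg y
      have h6 := h2 (2 * x)
      have h7 := h2 (2 * x + 2 * y)
      push_cast at h6 h7
      have h8 : (0 : ℝ) ≤ d2 (2 * x + 2 * y) := Nat.cast_nonneg _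
      have h9 : (0 : ℝ) ≤ a2 * (2 * x) + C := by positivity
      refine (mul_le_mul h6 h7 h8 h9).trans ?_
      have k1 := mul_le_mul_of_nonneg_left hy' (mul_nonneg ha2 hC)
      nlinarith
    refine (Finset.sum_le_sum h5).trans ?_
    rw [Finset.sum_add_distrib, ← Finset.mul_sum, in_closed, Finset.sum_const, Finset.card_range,
      nsmul_eq_mul]
    rw [Nat.cast_add, Nat.cast_sub hxh]
    push_cast
    have k0 : 0 ≤ 2 * a2 * C * h + C ^ 2 := by positivity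
    have k2 : ((h : ℝ) - 2 * x + 1) * (2 * a2 * C * h + C ^ 2) ≤
        (h + 1) * (2 * a2 * C * h + C ^ 2) :=
      mul_le_mul_of_nonneg_right (by linarith) k0
    nlinarith
  refine (Finset.sum_le_sum h4).trans ?_
  rw [Finset.sum_add_distrib, ← Finset.mul_sum, out_closed, Finset.sum_const, Finset.card_range,
    nsmul_eq_mul]
  set τ := h / 2 with hτ
  have h5 : (2 : ℝ) * τ ≤ h := by
    have : 2 * τ ≤ h := by omega
    exact_mod_cast this
  have h6 : (h : ℝ) ≤ 2 * τ + 1 := by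
    have : h ≤ 2 * τ + 1 := by omega
    exact_mod_cast this
  have hτ0 : (0 : ℝ) ≤ τ := Nat.cast_nonneg τ
  push_cast
  have h7 : ((τ : ℝ) + 1) * (τ + 1 - 1) ≤ ((h : ℝ) / 2 + 1) * (h / 2) := by
    nlinarith
  have h8 : (0 : ℝ) ≤ ((τ : ℝ) + 1) * (τ + 1 - 1) := by
    rw [add_sub_cancel_right]
    positivity
  have h9 : 3 * (h : ℝ) + 5 - 4 * (τ + 1) ≤ h + 3 := by linarith
  have h10 : ((τ : ℝ) + 1) * (τ + 1 - 1) * (3 * (h : ℝ) + 5 - 4 * (τ + 1)) ≤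
      ((h : ℝ) / 2 + 1) * (h / 2) * (h + 3) := by
    calc ((τ : ℝ) + 1) * (τ + 1 - 1) * (3 * (h : ℝ) + 5 - 4 * (τ + 1))
        ≤ ((τ : ℝ) + 1) * (τ + 1 - 1) * (h + 3) := mul_le_mul_of_nonneg_left h9 h8
      _ ≤ ((h : ℝ) / 2 + 1) * (h / 2) * (h + 3) :=
        mul_le_mul_of_nonneg_right h7 (by positivity)
  have h11 := mul_le_mul_of_nonneg_left h10 (show 0 ≤ 2 * a2 ^ 2 * h / 6 by positivity)
  have k0 : 0 ≤ (2 * a2 * C * h + C ^ 2) * (h + 1) := by positivity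
  have h12 : ((τ : ℝ) + 1) * ((2 * a2 * C * h + C ^ 2) * (h + 1)) ≤
      (h + 1) * ((2 * a2 * C * h + C ^ 2) * (h + 1)) :=
    mul_le_mul_of_nonneg_right (by linarith) k0
  have hh2 : (0 : ℝ) ≤ (h : ℝ) ^ 2 := by positivity
  have hh3 : (0 : ℝ) ≤ (h : ℝ) ^ 3 := by positivity
  have e1 : 2 * (h : ℝ) / 6 * (((h : ℝ) / 2 + 1) * (h / 2) * (h + 3)) ≤
      (2 * (h : ℝ) + 1) ^ 4 / 192 + ((2 * (h : ℝ) + 1) ^ 3 + 1) := by
    nlinarith
  have e2 : (h + 1) * (2 * (h : ℝ) * (h + 1)) ≤ (2 * (h : ℝ) + 1) ^ 3 + 1 := by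
    nlinarith
  have e3 : ((h : ℝ) + 1) * (h + 1) ≤ (2 * (h : ℝ) + 1) ^ 3 + 1 := by
    nlinarith
  have k1 := mul_le_mul_of_nonneg_left e1 (sq_nonneg a2)
  have k2 := mul_le_mul_of_nonneg_left e2 (mul_nonneg hC ha2)
  have k3 := mul_le_mul_of_nonneg_left e3 (sq_nonneg C)
  linarith

/-- the asymptotic form of the bound -/
theorem main : SNum5 := by
  intro d2 d3 d4 d5 a2 a3 a4 a5 C ha2 ha3 ha4 ha5 hC h2 hodd h3 h4 h5
  refine ⟨C + C + (C * a3 + a2 * C + C ^ 2) + (a3 + C) + (a2 ^ 2 + C * a2 + C ^ 2) + (a2 + C) + 2,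
    fun k hk => ?_⟩
  obtain ⟨h, rfl⟩ := hk
  have e1 := h5 (2 * h + 1)
  have e2 := odd_le d4 a4 C ha4 hC h4 h
  have e3 := mix_le d2 d3 a2 a3 C ha2 ha3 hC h2 hodd h3 h
  have e4 := pairs_le d3 a3 C ha3 hC h3 h
  have e5 := even_le d2 a2 C ha2 hC h2 hodd h
  have e6 := trips_le d2 a2 C ha2 hC h2 h
  have e7 := quins_le h
  unfold bnd5
  push_cast at e1 ⊢
  linarith

end H653Num

theorem sNum5 : SNum5 := H653Num.main

end Pool.Agent.H492.RF
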