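import Pool.Agent.H492.RF.Asym
import Pool.Agent.H492.RF.SNum5Pf

/-!
# The asymptotic form of the bound in depth five
-/

set_option autoImplicit false

namespace Pool.Agent.H492.RF

open Module Pool.Agent.H492.RZ

/-- reduction modulo two in depth five -/
theorem w5_le (e : ℕ) : 155 * finrank ℚ (Pool.Agent.H492.UB.W ℚ 5 e) ≤ (e + 998).choose 4 := by
  have h2 := Pool.Agent.H492.UB.sMod Pool.Agent.H492.UB.sLattice Pool.Agent.H492.UB.sTransfer 5 e
  have h3 := Pool.Agent.H492.UB.sCount 5 994 (by omega) Pool.Agent.H492.UB.sSep.2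
    Pool.Agent.H492.UB.star5 Pool.Agent.H492.UB.sDim Pool.Agent.H492.UB.sCard e
  exact (Nat.mul_le_mul_left _ h2).trans h3

theorem w5_real : ∃ C : ℝ, ∀ e : ℕ, (finrank ℚ (Pool.Agent.H492.UB.W ℚ 5 e) : ℝ) ≤
    (1 / 3720) * e ^ (3 + 1) + C * (e ^ 3 + 1) := by
  refine ⟨10000000000, fun e => ?_⟩
  have h1 := w5_le e
  have h2 : (e + 998).choose 4 * 24 = (e + 998) * (e + 997) * (e + 996) * (e + 995) := by
    have := Nat.descFactorial_eq_factorial_mul_choose (e + 998) 4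
    simp only [Nat.descFactorial_succ, Nat.descFactorial_zero, Nat.factorial] at this
    have e1 : e + 998 - 3 = e + 995 := by omega
    have e2 : e + 998 - 2 = e + 996 := by omega
    have e3 : e + 998 - 1 = e + 997 := by omega
    have e4 : e + 998 - 0 = e + 998 := by omega
    rw [e1, e2, e3, e4] at this
    nlinarith
  have h3 : (3720 : ℝ) * finrank ℚ (Pool.Agent.H492.UB.W ℚ 5 e) ≤
      ((e : ℝ) + 998) * (e + 997) * (e + 996) * (e + 995) := by
    have h4 : 3720 * finrank ℚ (Pool.Agent.H492.UB.W ℚ 5 e) ≤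
        (e + 998) * (e + 997) * (e + 996) * (e + 995) := by
      rw [← h2]
      omega
    exact_mod_cast h4
  have h5 : (0 : ℝ) ≤ e := Nat.cast_nonneg _
  clear h1 h2
  have h6 : ((e : ℝ) + 998) * (e + 997) * (e + 996) * (e + 995) =
      e ^ 4 + 3986 * e ^ 3 + 5958071 * e ^ 2 + 3958141846 * e + 986070846120 := by
    ring
  rw [h6] at h3
  clear h6
  generalize (finrank ℚ (Pool.Agent.H492.UB.W ℚ 5 e) : ℝ) = y at h3 ⊢
  generalize (e : ℝ) = x at h3 h5 ⊢
  have h7 : x ^ 2 ≤ x ^ 3 + 1 := by nlinarith [sq_nonneg (x - 1), mul_nonneg h5 (sq_nonneg (x - 1))]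
  have h8 : x ≤ x ^ 3 + 1 := by nlinarith [sq_nonneg (x - 1), mul_nonneg h5 (sq_nonneg (x - 1)), mul_nonneg h5 h5]
  have h9 : 0 ≤ x ^ 3 := by positivity
  have h10 : x ^ (3 + 1) = x ^ 4 := by norm_num
  rw [h10]
  linarith

/-- the bound in depth five -/
theorem bnd5_le : ∃ C : ℝ, ∀ k : ℕ, Odd k → (bnd5 (dW 2) (dW 3) (dW 4) (dW 5) k : ℝ) ≤
    (1 / 3720 + (373 / 179712) / 8 + (1 / 6) * (235 / 11232) / 24 + (235 / 11232) / 96 + (1 / 6) ^ 2 / 192 +
      (1 / 6) / 1152 + 1 / 46080) * k ^ 4 + C * (k ^ 3 + 1) := by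
  obtain ⟨C2, b2⟩ := ls2W sSepE
  obtain ⟨C3, b3⟩ := Pool.Agent.H492.UT.ls3W
  obtain ⟨C4, b4⟩ := ls4W3
  obtain ⟨C5, b5⟩ := w5_real
  set C : ℝ := max (max (max (max C2 C3) C4) C5) 0 with hC
  have hC0 : 0 ≤ C := le_max_right _ _
  have hC5 : max C5 0 ≤ C := max_le ((le_max_right _ _).trans (le_max_left _ _)) hC0
  have hC4 : max C4 0 ≤ C := max_le ((le_max_right _ _).trans ((le_max_left _ _).trans (le_max_left _ _))) hC0
  have hC3 : max C3 0 ≤ C := max_le ((le_max_right _ _).trans ((le_max_left _ _).trans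
    ((le_max_left _ _).trans (le_max_left _ _)))) hC0
  have hC2 : max C2 0 ≤ C := max_le ((le_max_left _ _).trans ((le_max_left _ _).trans
    ((le_max_left _ _).trans (le_max_left _ _)))) hC0
  have e2 : ∀ k, (dW 2 k : ℝ) ≤ 1 / 6 * k + C := fun k =>
    (dW2_le (1 / 6) C2 (by norm_num) b2 k).trans (by linarith)
  have e3 : ∀ k, (dW 3 k : ℝ) ≤ 235 / 11232 * k ^ 2 + C * (k + 1) := by
    intro k
    have h1 := dW_le 3 1 (235 / 11232) C3 (by norm_num) (fun e => by simpa using b3 e) k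
    rw [pow_one] at h1
    refine h1.trans ?_
    have : (0 : ℝ) ≤ k := Nat.cast_nonneg _
    gcongr
  have e4 : ∀ k, (dW 4 k : ℝ) ≤ 373 / 179712 * k ^ 3 + C * (k ^ 2 + 1) := by
    intro k
    have h1 := dW_le 4 2 (373 / 179712) C4 (by norm_num) b4 k
    refine h1.trans ?_
    gcongr
  have e5 : ∀ k, (dW 5 k : ℝ) ≤ 1 / 3720 * k ^ 4 + C * (k ^ 3 + 1) := by
    intro k
    have h1 := dW_le 5 3 (1 / 3720) C5 (by norm_num) b5 k
    refine h1.trans ?_
    gcongr
  exact sNum5 (dW 2) (dW 3) (dW 4) (dW 5) (1 / 6) (235 / 11232) (373 / 179712) (1 / 3720) C (by norm_num)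
    (by norm_num) (by norm_num) (by norm_num) hC0 e2 dW2_odd e3 e4 e5

end Pool.Agent.H492.RF
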