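import Pool.Agent.H492.RF.Stm
import Pool.Agent.H492.RZ.SMulPf
import Pool.Agent.H492.RZ.SStufPf
import Pool.Agent.H492.RZ.SIndPf

/-!
# The real multiple zeta values are a solution of the regularized double shuffle relations
-/

set_option autoImplicit false

namespace Pool.Agent.H492.RF

open Pool.Agent.H492.RZ (IsAdm zr sMul)
open Pool.Agent.Q187.ZD.DS (Z InH0 InH1 total shuffles stuffles index word reg regWord element mzv)

/-- the regularized real multiple zeta values -/
noncomputable def realDS : DS ℝ where
  z := zr
  one := by
    have h := Pool.Agent.H492.RZ.H356Ind.zr_word [] ⟨by simp, by simp⟩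
    exact h
  y := by
    show Z (reg (Finsupp.single [true] 1)) = 0
    have h : reg (Finsupp.single [true] 1) = 0 := by
      show Finsupp.linearCombination ℚ regWord (Finsupp.single [true] 1) = 0
      rw [Finsupp.linearCombination_single, one_smul]
      unfold regWord
      simp
    rw [h, map_zero]
  shuffle := sMul
  stuffle := by
    intro u v hup hv
    have hvp := hv.1
    rcases eq_or_ne v [] with rfl | hv0
    · have h1 : stuffles u [] = [u] := by
        cases u with
        | nil => rw [stuffles]
        | cons a u => rw [stuffles]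
      have h2 : zr (word ([] : List ℕ)) = 1 :=
        Pool.Agent.H492.RZ.H356Ind.zr_word [] ⟨by simp, by simp⟩
      rw [h1, h2, mul_one]
      simp
    · have hZ := Pool.Agent.Q189.MV.DSh.Z_element (Pool.Agent.H492.RZ.H720S.inH1_word u)
        (Pool.Agent.H492.RZ.H720S.inH0_word v hv0 hvp hv.2)
      unfold element at hZ
      rw [map_sub, map_sub, Pool.Agent.H492.RZ.H720S.Z_reg_total, Pool.Agent.H492.RZ.H720S.Z_reg_total,
        Pool.Agent.H492.RZ.H720S.index_word u hup, Pool.Agent.H492.RZ.H720S.index_word v hvp,
        sMul _ _ (Pool.Agent.H492.RZ.H720S.inH1_word u) (Pool.Agent.H492.RZ.H720S.inH1_word v), sub_eq_zero,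
        List.map_map] at hZ
      exact hZ.symm

theorem realDS_mzv (s : List ℕ) (hs : IsAdm s) : realDS.z (word s) = mzv s :=
  Pool.Agent.H492.RZ.H356Ind.zr_word s hs

end Pool.Agent.H492.RF
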