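import Pool.Agent.H492.RF.Stm

/-!
# The dimension count in depth four, for an arbitrary solution of the regularized double shuffle relations

Port of `RZ/SDimFourPf.lean` (helper51).
-/

set_option autoImplicit false

namespace Pool.Agent.H492.RF

open Module
open Pool.Agent.H492.UB (sh ps BA ev)
open Pool.Agent.H492.RZ (IsAdm pol SNon SAbs SOdd2 SOdd3 dW quads bnd SNum SSepE)
open Pool.Agent.Q187.ZD.DS (InH0 InH1 shuffles stuffles index word)

variable {R : Type} [CommRing R] [Algebra ℚ R] (D : DS R)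

namespace D51

/-- the dimension of `A` is at most `n` -/
def Bd (A : Submodule ℚ R) (n : ℕ) : Prop := Module.rank ℚ A ≤ (n : Cardinal)

theorem Bd.mono {A : Submodule ℚ R} {m n : ℕ} (h : Bd A m) (hmn : m ≤ n) : Bd A n :=
  le_trans h (by exact_mod_cast hmn)

theorem Bd.of_le {A B : Submodule ℚ R} {n : ℕ} (h : Bd B n) (hAB : A ≤ B) : Bd A n :=
  (Submodule.rank_mono hAB).trans h

theorem Bd.bot : Bd (⊥ : Submodule ℚ R) 0 := by
  unfold Bd
  rw [Submodule.rank_eq_zero.mpr rfl]
  simp

theorem Bd.eq_bot {A : Submodule ℚ R} (h : Bd A 0) : A = ⊥ := by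
  unfold Bd at h
  rw [Nat.cast_zero] at h
  exact Submodule.rank_eq_zero.mp (le_antisymm h zero_le)

theorem Bd.sup {A B : Submodule ℚ R} {m n : ℕ} (hA : Bd A m) (hB : Bd B n) :
    Bd (A ⊔ B) (m + n) := by
  unfold Bd at *
  rw [Nat.cast_add]
  exact (Submodule.rank_add_le_rank_add_rank A B).trans (add_le_add hA hB)

theorem Bd.mul {A B : Submodule ℚ R} {m n : ℕ} (hA : Bd A m) (hB : Bd B n) :
    Bd (A * B) (m * n) := by
  unfold Bd at *
  rw [Nat.cast_mul, ← Submodule.mulMap_range]
  refine (rank_range_le _).trans ?_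
  rw [rank_tensorProduct']
  exact mul_le_mul' hA hB

theorem Bd.iSup {ι : Type} (s : Set ι) (t : Finset ι) (A : ι → Submodule ℚ R) (f : ι → ℕ)
    (h1 : ∀ i ∈ s, i ∉ t → A i = ⊥) (h2 : ∀ i ∈ t, Bd (A i) (f i)) :
    Bd (⨆ i ∈ s, A i) (∑ i ∈ t, f i) := by
  classical
  have h3 : ⨆ i ∈ s, A i ≤ t.sup A := by
    refine iSup₂_le fun i hi => ?_
    by_cases hit : i ∈ t
    · exact Finset.le_sup hit
    · rw [h1 i hi hit]
      exact bot_le
  refine Bd.of_le ?_ h3
  clear h3 h1
  induction t using Finset.induction_on with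
  | empty =>
    rw [Finset.sup_empty, Finset.sum_empty]
    exact Bd.bot
  | insert a t ha ih =>
    rw [Finset.sup_insert, Finset.sum_insert ha]
    exact Bd.sup (h2 a (Finset.mem_insert_self a t))
      (ih fun i hi => h2 i (Finset.mem_insert_of_mem hi))

/-- the dimension of a quotient -/
theorem quot_le {V : Type} [AddCommGroup V] [Module ℚ V] (A N B : Submodule ℚ V) (n : ℕ)
    (hB : Module.rank ℚ B ≤ (n : Cardinal)) (h : A ≤ N ⊔ B) :
    finrank ℚ (A ⧸ N.comap A.subtype) ≤ n := by
  apply finrank_le_of_rank_le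
  have hk : LinearMap.ker (N.mkQ.comp A.subtype) = N.comap A.subtype := by
    rw [LinearMap.ker_comp, Submodule.ker_mkQ]
  rw [← hk, (N.mkQ.comp A.subtype).quotKerEquivRange.rank_eq]
  have hr : LinearMap.range (N.mkQ.comp A.subtype) ≤ B.map N.mkQ := by
    rintro _ ⟨a, rfl⟩
    obtain ⟨x, hx, b, hb, hab⟩ := Submodule.mem_sup.mp (h a.2)
    refine ⟨b, hb, ?_⟩
    rw [LinearMap.comp_apply, Submodule.subtype_apply, ← hab, map_add]
    have : N.mkQ x = 0 := by
      rw [Submodule.mkQ_apply, Submodule.Quotient.mk_eq_zero]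
      exact hx
    rw [this, zero_add]
  exact (Submodule.rank_mono hr).trans ((rank_map_le _ _).trans hB)

/-- there are finitely many indices of bounded length and entries -/
theorem lists_finite (r k : ℕ) : {s : List ℕ | s.length ≤ r ∧ ∀ a ∈ s, a ≤ k}.Finite := by
  induction r with
  | zero =>
    refine (Set.finite_singleton ([] : List ℕ)).subset ?_
    rintro s ⟨hs, -⟩
    rw [Set.mem_singleton_iff]
    exact List.length_eq_zero_iff.mp (Nat.le_zero.mp hs)
  | succ r ih =>
    refine ((Set.finite_singleton ([] : List ℕ)).union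
      (Set.Finite.image2 (fun (a : ℕ) (s : List ℕ) => a :: s) (Set.finite_Iic k) ih)).subset ?_
    rintro s ⟨hs, hk⟩
    cases s with
    | nil => exact Or.inl rfl
    | cons a s =>
      refine Or.inr ⟨a, hk a List.mem_cons_self, s, ⟨?_, fun b hb => hk b (List.mem_cons_of_mem a hb)⟩,
        rfl⟩
      rw [List.length_cons] at hs
      omega

theorem fil_fin (r k : ℕ) : FiniteDimensional ℚ (Fil D r k) := by
  unfold Fil
  apply FiniteDimensional.span_of_finite ℚ
  refine ((lists_finite r k).image fun s => D.z (word s)).subset ?_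
  rintro x ⟨s, -, hs2, hs3, rfl⟩
  refine ⟨s, ⟨hs3, fun a ha => ?_⟩, rfl⟩
  rw [← hs2]
  exact List.le_sum_of_mem ha

/-- for `k ≤ r` the depth can be lowered -/
theorem fil_le {r k : ℕ} (hr : 1 ≤ r) (hk : k ≤ r) : Fil D r k ≤ Fil D (r - 1) k := by
  unfold Fil
  refine Submodule.span_mono ?_
  rintro x ⟨s, hs1, hs2, hs3, rfl⟩
  refine ⟨s, hs1, hs2, ?_, rfl⟩
  by_contra hlt
  have hlen : s.length = r := by omega
  cases s with
  | nil =>
    rw [List.length_nil] at hlen
    omega
  | cons a s =>
    have h1 : 1 ≤ a := hs1.1 a List.mem_cons_self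
    have h2 : a ≠ 1 := by
      intro h
      apply hs1.2
      rw [h]
      rfl
    have h3 : s.length ≤ s.sum := by
      have h4 : ∀ b ∈ s, 1 ≤ b := fun b hb => hs1.1 b (List.mem_cons_of_mem a hb)
      clear hlt hs3 hs2 hs1 hlen
      induction s with
      | nil => simp
      | cons c s ih =>
        rw [List.length_cons, List.sum_cons]
        have h5 := h4 c List.mem_cons_self
        have h6 := ih fun b hb => h4 b (List.mem_cons_of_mem c hb)
        omega
    rw [List.length_cons] at hlen
    rw [List.sum_cons] at hs2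
    omega

/-- the complements -/
theorem exists_G (hInd : SInd D) (r k : ℕ) (hr : 2 ≤ r) : ∃ G : Submodule ℚ R, G ≤ Fil D r k ∧
    Fil D r k ≤ Fil D (r - 1) k ⊔ Prd D r k ⊔ G ∧ Bd G (dW r k) := by
  rcases le_or_gt k r with h | h
  · refine ⟨⊥, bot_le, ?_, Bd.bot.mono (Nat.zero_le _)⟩
    exact (fil_le D (by omega) h).trans (le_sup_left.trans le_sup_left)
  · have hfin := fil_fin D r k
    obtain ⟨G', hG'⟩ := Submodule.exists_isCompl
      ((Fil D (r - 1) k ⊔ Prd D r k).comap (Fil D r k).subtype)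
    refine ⟨G'.map (Fil D r k).subtype, Submodule.map_subtype_le _ _, ?_, ?_⟩
    · intro x hx
      have h1 : (⟨x, hx⟩ : Fil D r k) ∈
          (Fil D (r - 1) k ⊔ Prd D r k).comap (Fil D r k).subtype ⊔ G' := by
        rw [hG'.sup_eq_top]
        exact Submodule.mem_top
      obtain ⟨y, hy, z, hz, hyz⟩ := Submodule.mem_sup.mp h1
      have h2 : x = (Fil D r k).subtype y + (Fil D r k).subtype z := by
        rw [← map_add, hyz]
        rfl
      rw [h2]
      exact Submodule.add_mem_sup hy (Submodule.mem_map_of_mem hz)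
    · unfold Bd dW
      rw [if_pos h]
      refine (rank_map_le _ _).trans ?_
      rw [← (Submodule.quotientEquivOfIsCompl _ _ hG').rank_eq, ← finrank_eq_rank]
      exact_mod_cast hInd r k hr h

end D51

open D51 in
/-- the dimension count -/
theorem sDimFour {R : Type} [CommRing R] [Algebra ℚ R] (D : DS R) : SDimFour D := by
  intro hMul hOne hSpan hInd h2 h3 h4 k hk
  have hex : ∀ r k : ℕ, ∃ G : Submodule ℚ R, 2 ≤ r → G ≤ Fil D r k ∧
      Fil D r k ≤ Fil D (r - 1) k ⊔ Prd D r k ⊔ G ∧ Bd G (dW r k) := by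
    intro r k
    rcases le_or_gt 2 r with hr | hr
    · obtain ⟨G, hG⟩ := exists_G D hInd r k hr
      exact ⟨G, fun _ => hG⟩
    · exact ⟨⊥, fun h => absurd h (not_le.mpr hr)⟩
  choose G hG using hex
  have hpar : ∀ r k, 2 ≤ r → r ≤ 4 → ¬ (Even r ↔ Even k) → G r k = ⊥ := by
    intro r k hr hr4 hrk
    apply Bd.eq_bot
    have hd := (hG r k hr).2.2
    have h0 : dW r k = 0 := by
      unfold dW
      split_ifs with hlt
      · have hodd : Odd (k - r) := by
          rw [← Nat.not_even_iff_odd, Nat.even_sub hlt.le]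
          exact fun h => hrk h.symm
        have hW : Pool.Agent.H492.UB.W ℚ r (k - r) = ⊥ := by
          have hr' : r = 2 ∨ r = 3 ∨ r = 4 := by omega
          rcases hr' with rfl | rfl | rfl
          · exact h2 _ hodd
          · exact h3 _ hodd
          · exact h4 _ hodd
        rw [hW, finrank_bot]
      · rfl
    rwa [h0] at hd
  have hS := hSpan hMul hOne G (fun r k hr => ⟨(hG r k hr).1, (hG r k hr).2.1⟩) hpar k hk
  simp only [sup_assoc] at hS
  have hOd : ∀ i, Odd i → Bd (Od D i) 1 := by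
    intro i hi
    unfold Od Bd
    rw [if_pos hi]
    have hfin := fil_fin D 1 i
    rw [← finrank_eq_rank]
    exact_mod_cast hOne.1 i
  have hOd0 : ∀ i, ¬ Odd i → Od D i = ⊥ := by
    intro i hi
    unfold Od
    rw [if_neg hi]
  have hGb : ∀ r k, 2 ≤ r → Bd (G r k) (dW r k) := fun r k hr => (hG r k hr).2.2
  refine (quot_le _ _ _ _ ?_ hS)
  unfold bnd
  simp only [add_assoc]
  refine (hGb 4 k (by norm_num)).sup (Bd.sup ?_ (Bd.sup ?_ (Bd.sup ?_ ?_)))
  · refine Bd.iSup _ _ _ _ ?_ ?_
    · intro i hi hit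
      have hi' : i ≤ k := hi
      have hodd : ¬ Odd i := by
        intro ho
        apply hit
        rw [Finset.mem_filter, Finset.mem_range]
        exact ⟨by omega, ho⟩
      rw [hOd0 i hodd, Submodule.bot_mul]
    · intro i hi
      rw [Finset.mem_filter] at hi
      have h := (hOd i hi.2).mul (hGb 3 (k - i) (by norm_num))
      rwa [one_mul] at h
  · refine Bd.iSup _ _ _ _ ?_ ?_
    · rintro ⟨a, b⟩ hi hit
      have hi' : a ≤ b ∧ a + b ≤ k := hi
      dsimp only at hit ⊢
      by_cases ha : Odd a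
      · by_cases hb : Odd b
        · exfalso
          apply hit
          rw [Finset.mem_filter, Finset.mem_product, Finset.mem_range, Finset.mem_range]
          exact ⟨⟨by dsimp only; omega, by dsimp only; omega⟩, ha, hb, hi'⟩
        · rw [hOd0 b hb, Submodule.mul_bot, Submodule.bot_mul]
      · rw [hOd0 a ha, Submodule.bot_mul, Submodule.bot_mul]
    · rintro ⟨a, b⟩ hi
      rw [Finset.mem_filter] at hi
      have h := ((hOd a hi.2.1).mul (hOd b hi.2.2.1)).mul (hGb 2 (k - a - b) (by norm_num))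
      rwa [one_mul, one_mul] at h
  · refine Bd.iSup _ _ _ _ ?_ ?_
    · intro i hi hit
      have hi' : 2 * i ≤ k := hi
      exfalso
      apply hit
      rw [Finset.mem_filter, Finset.mem_range]
      exact ⟨by omega, hi'⟩
    · intro i hi
      exact (hGb 2 i (by norm_num)).mul (hGb 2 (k - i) (by norm_num))
  · rw [Finset.card_eq_sum_ones]
    refine Bd.iSup _ _ _ _ ?_ ?_
    · rintro ⟨a, b, c, d⟩ hi hit
      have hi' : a ≤ b ∧ b ≤ c ∧ c ≤ d ∧ a + b + c + d = k := hi
      dsimp only at hit ⊢
      by_cases ha : Odd a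
      · by_cases hb : Odd b
        · by_cases hc : Odd c
          · by_cases hd : Odd d
            · exfalso
              apply hit
              unfold quads
              rw [Finset.mem_filter, Finset.mem_product, Finset.mem_product, Finset.mem_product,
                Finset.mem_range, Finset.mem_range, Finset.mem_range, Finset.mem_range]
              dsimp only
              exact ⟨⟨by omega, by omega, by omega, by omega⟩, ⟨ha, hb, hc, hd⟩,
                ⟨hi'.1, hi'.2.1, hi'.2.2.1⟩, hi'.2.2.2⟩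
            · rw [hOd0 d hd, Submodule.mul_bot]
          · rw [hOd0 c hc, Submodule.mul_bot, Submodule.bot_mul]
        · rw [hOd0 b hb, Submodule.mul_bot, Submodule.bot_mul, Submodule.bot_mul]
      · rw [hOd0 a ha, Submodule.bot_mul, Submodule.bot_mul, Submodule.bot_mul]
    · rintro ⟨a, b, c, d⟩ hi
      unfold quads at hi
      rw [Finset.mem_filter] at hi
      obtain ⟨-, ⟨ha, hb, hc, hd⟩, -⟩ := hi
      have h := (((hOd a ha).mul (hOd b hb)).mul (hOd c hc)).mul (hOd d hd)
      simpa using h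

end Pool.Agent.H492.RF
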