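import Pool.Agent.H492.RF.Stm

/-!
# Euler's relation from the double shuffle relations (by helper218)
-/

set_option autoImplicit false

namespace Pool.Agent.H492.RF

open Pool.Agent.H492.RZ (IsAdm)
open Pool.Agent.Q187.ZD.DS (InH0 InH1 shuffles stuffles index word)

namespace H218Euler

/-- the word `x^n y` -/
def w (n : ℕ) : List Bool := List.replicate n false ++ [true]

theorem w_zero : w 0 = [true] := rfl

theorem w_succ (n : ℕ) : w (n + 1) = false :: w n := rfl

theorem word_one (n : ℕ) : word [n + 1] = w n := rfl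

theorem word_two (i j : ℕ) : word [i + 1, j + 1] = List.replicate i false ++ true :: w j := rfl

theorem inH1_w (n : ℕ) : InH1 (w n) := by
  right
  simp [w]

section

variable {A : Type} [AddCommMonoid A]

/-- the sum over the shuffles -/
def S (F : List Bool → A) (i j : ℕ) : A := ((shuffles (w i) (w j)).map F).sum

theorem S_ss (F : List Bool → A) (i j : ℕ) : S F (i + 1) (j + 1) =
    S (fun u => F (false :: u)) i (j + 1) + S (fun u => F (false :: u)) (i + 1) j := by
  unfold S
  rw [w_succ, w_succ, shuffles, List.map_append, List.sum_append, List.map_map, List.map_map]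
  rfl

theorem S_zs (F : List Bool → A) (j : ℕ) : S F 0 (j + 1) =
    F (true :: w (j + 1)) + S (fun u => F (false :: u)) 0 j := by
  unfold S
  rw [w_succ, w_zero, shuffles, shuffles, List.map_append, List.sum_append, List.map_map,
    List.map_map]
  simp
  rfl

theorem S_sz (F : List Bool → A) (i : ℕ) : S F (i + 1) 0 =
    S (fun u => F (false :: u)) i 0 + F (true :: w (i + 1)) := by
  unfold S
  rw [w_succ, w_zero, shuffles, shuffles, List.map_append, List.sum_append, List.map_map,
    List.map_map]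
  simp
  rfl

theorem S_zz (F : List Bool → A) : S F 0 0 = F (true :: w 0) + F (true :: w 0) := by
  unfold S
  rw [w_zero, shuffles, shuffles, shuffles]
  simp

/-- the shuffles of `y` -/
theorem S_z (F : List Bool → A) (n : ℕ) : S F 0 n =
    ∑ i ∈ Finset.range (n + 1), F (List.replicate i false ++ true :: w (n - i)) +
      F (List.replicate n false ++ true :: w 0) := by
  induction n generalizing F with
  | zero =>
    rw [S_zz]
    simp
  | succ n ih =>
    rw [S_zs, ih, Finset.sum_range_succ' _ (n + 1)]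
    simp only [List.replicate_succ, List.cons_append, List.replicate_zero, List.nil_append,
      Nat.sub_zero, Nat.add_sub_add_right]
    rw [add_comm (F (true :: w (n + 1))), add_right_comm]

end

variable {R : Type} [CommRing R]

/-- the alternating sum -/
theorem S_alt (F : List Bool → R) (m : ℕ) : ∑ j ∈ Finset.range (m + 2), (-1) ^ j * S F (m + 1 - j) j =
    F (true :: w (m + 1)) + (-1) ^ (m + 1) * F (true :: w (m + 1)) := by
  set a : ℕ → R := fun j => S (fun u => F (false :: u)) (m - j) j with ha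
  rw [Finset.sum_range_succ, Finset.sum_range_succ']
  have h1 : ∀ j ∈ Finset.range m, (-1) ^ (j + 1) * S F (m + 1 - (j + 1)) (j + 1) =
      (-1) ^ (j + 1) * a (j + 1) - (-1) ^ j * a j := by
    intro j hj
    have hj' := Finset.mem_range.1 hj
    obtain ⟨i, hi⟩ : ∃ i, m - j = i + 1 := ⟨m - j - 1, by omega⟩
    have e1 : m + 1 - (j + 1) = i + 1 := by omega
    have e2 : m - (j + 1) = i := by omega
    rw [e1, S_ss, ha]
    simp only
    rw [e2, hi]
    ring
  rw [Finset.sum_congr rfl h1, Finset.sum_range_sub (fun j => (-1) ^ j * a j)]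
  have h2 : S F (m + 1 - 0) 0 = a 0 + F (true :: w (m + 1)) := by
    rw [Nat.sub_zero, S_sz]
    rfl
  have h3 : S F (m + 1 - (m + 1)) (m + 1) = F (true :: w (m + 1)) + a m := by
    rw [Nat.sub_self, S_zs, ha]
    simp only
    rw [Nat.sub_self]
  rw [h2, h3]
  ring

/-- splitting off the odd terms -/
theorem odd_sum (c : ℕ → R) (M : ℕ) : ∑ i ∈ Finset.range (2 * M + 1), c i -
    ∑ i ∈ Finset.range (2 * M + 1), (-1) ^ i * c i = 2 * ∑ j ∈ Finset.range M, c (2 * j + 1) := by
  induction M with
  | zero => simp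
  | succ M ih =>
    rw [show 2 * (M + 1) + 1 = 2 * M + 1 + 1 + 1 by ring, Finset.sum_range_succ c,
      Finset.sum_range_succ c, Finset.sum_range_succ (fun i => (-1) ^ i * c i),
      Finset.sum_range_succ (fun i => (-1) ^ i * c i),
      Finset.sum_range_succ (fun j => c (2 * j + 1)) M, mul_add, ← ih]
    have h1 : (-1 : R) ^ (2 * M + 1) = -1 := Odd.neg_one_pow ⟨M, rfl⟩
    have h2 : (-1 : R) ^ (2 * M + 1 + 1) = 1 := Even.neg_one_pow ⟨M + 1, by ring⟩
    rw [h1, h2]
    ring

variable [Algebra ℚ R] (D : DS R)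

/-- `z(i+1, j+1)` -/
def Zf (i j : ℕ) : R := D.z (word [i + 1, j + 1])

theorem stuf (i j : ℕ) (hj : 1 ≤ j) : zt D (i + 1) * zt D (j + 1) =
    Zf D i j + Zf D j i + zt D (i + j + 2) := by
  have h1 := D.stuffle [i + 1] [j + 1] (by simp) ⟨by simp, by simp; omega⟩
  have h2 : stuffles [i + 1] [j + 1] = [[i + 1, j + 1], [j + 1, i + 1], [i + 1 + (j + 1)]] := by
    simp [stuffles]
  rw [h2] at h1
  simp only [List.map_cons, List.map_nil, List.sum_cons, List.sum_nil, add_zero] at h1
  unfold zt Zf
  rw [← h1, show i + j + 2 = i + 1 + (j + 1) by ring]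
  ring

theorem shuf (i j : ℕ) : S D.z i j = zt D (i + 1) * zt D (j + 1) :=
  D.shuffle _ _ (inH1_w i) (inH1_w j)

theorem zt_one : zt D 1 = 0 := D.y

theorem main2 (m : ℕ) (hm : 2 ≤ m) : 2 * ∑ j ∈ Finset.Ico 1 m, zt D (2 * j) * zt D (2 * m - 2 * j) =
    ((2 * m + 1 : ℕ) : R) * zt D (2 * m) := by
  obtain ⟨M, rfl⟩ : ∃ M, m = M + 1 := ⟨m - 1, by omega⟩
  have hM : 1 ≤ M := by omega
  set n : ℕ := 2 * M with hn
  set K : R := zt D (2 * (M + 1)) with hK
  have hKn : zt D (n + 2) = K := rfl
  set c : ℕ → R := fun i => zt D (i + 1) * zt D (n - i + 1) with hc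
  -- (A)
  have hA : ∑ i ∈ Finset.range (n + 1), (-1) ^ i * c i = 2 * Zf D 0 n := by
    have h1 := S_alt D.z (n - 1)
    have e1 : n - 1 + 1 = n := by omega
    have e2 : n - 1 + 2 = n + 1 := by omega
    rw [e1, e2, Even.neg_one_pow ⟨M, by omega⟩, one_mul] at h1
    have h2 : D.z (true :: w n) = Zf D 0 n := rfl
    rw [h2, ← two_mul] at h1
    rw [← h1]
    refine Finset.sum_congr rfl fun i _ => ?_
    rw [shuf, hc, mul_comm (zt D (n - i + 1))]
  -- (B)
  have hB : ∑ i ∈ Finset.range (n + 1), Zf D i (n - i) = - Zf D n 0 := by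
    have h1 := S_z D.z n
    rw [shuf, zero_add, zt_one, zero_mul] at h1
    exact eq_neg_of_add_eq_zero_left h1.symm
  have h0 : Zf D 0 n + Zf D n 0 + K = 0 := by
    have h1 := stuf D 0 n (by omega)
    rw [zero_add, zt_one, zero_mul, zero_add, hKn] at h1
    exact h1.symm
  -- the sum of all terms
  have hsum : ∑ i ∈ Finset.range (n + 1), c i = -3 * Zf D n 0 - Zf D 0 n + (n : R) * K := by
    rw [Finset.sum_range_succ]
    have h1 : c n = 0 := by
      rw [hc]
      simp only
      rw [Nat.sub_self, zero_add, zt_one, mul_zero]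
    have h2 : ∀ i ∈ Finset.range n, c i = Zf D i (n - i) + Zf D (n - i) i + K := by
      intro i hi
      have hi' := Finset.mem_range.1 hi
      rw [hc]
      simp only
      rw [stuf D i (n - i) (by omega), show i + (n - i) + 2 = n + 2 by omega, hKn]
    rw [h1, add_zero, Finset.sum_congr rfl h2, Finset.sum_add_distrib, Finset.sum_add_distrib,
      Finset.sum_const, Finset.card_range, nsmul_eq_mul]
    have h3 : ∑ i ∈ Finset.range n, Zf D i (n - i) = -2 * Zf D n 0 := by
      rw [Finset.sum_range_succ, Nat.sub_self] at hB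
      linear_combination hB
    have h4 : ∑ i ∈ Finset.range n, Zf D (n - i) i = - Zf D n 0 - Zf D 0 n := by
      have h5 := Finset.sum_range_reflect (fun i => Zf D i (n - i)) (n + 1)
      rw [hB, Finset.sum_range_succ] at h5
      have h6 : ∀ i ∈ Finset.range n, Zf D (n + 1 - 1 - i) (n - (n + 1 - 1 - i)) = Zf D (n - i) i := by
        intro i hi
        have hi' := Finset.mem_range.1 hi
        rw [show n + 1 - 1 - i = n - i by omega, show n - (n - i) = i by omega]
      rw [Finset.sum_congr rfl h6, show n + 1 - 1 - n = 0 by omega, Nat.sub_zero] at h5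
      linear_combination h5
    rw [h3, h4]
    ring
  have hodd := odd_sum c M
  rw [← hn, hA, hsum] at hodd
  have h7 : ∑ j ∈ Finset.Ico 1 (M + 1), zt D (2 * j) * zt D (2 * (M + 1) - 2 * j) =
      ∑ j ∈ Finset.range M, c (2 * j + 1) := by
    rw [Finset.sum_Ico_eq_sum_range, Nat.add_sub_cancel]
    refine Finset.sum_congr rfl fun j hj => ?_
    have hj' := Finset.mem_range.1 hj
    rw [hc]
    simp only
    rw [show 2 * (1 + j) = 2 * j + 1 + 1 by ring,
      show 2 * (M + 1) - (2 * j + 1 + 1) = n - (2 * j + 1) + 1 by omega]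
  rw [h7, ← hodd, hn]
  push_cast
  linear_combination -3 * h0

end H218Euler

open H218Euler

/-- Euler's relation -/
theorem sEuler {R : Type} [CommRing R] [Algebra ℚ R] (D : DS R) : SEuler D := by
  intro m hm
  have h1 := main2 D m hm
  have h2 : ((m : ℚ) + 1 / 2) • zt D (2 * m) = (1 / 2 : ℚ) • (((2 * m + 1 : ℕ) : R) * zt D (2 * m)) := by
    rw [← nsmul_eq_mul, ← Nat.cast_smul_eq_nsmul ℚ, smul_smul]
    congr 1
    push_cast
    ring
  rw [h2, ← h1, ← Nat.cast_two (R := R), ← nsmul_eq_mul, ← Nat.cast_smul_eq_nsmul ℚ, smul_smul]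
  norm_num

end Pool.Agent.H492.RF
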