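import Pool.Agent.H492.RF.Stm

set_option autoImplicit false

namespace Pool.Agent.H492.RF

open Module
open Pool.Agent.H492.RZ (IsAdm)
open Pool.Agent.Q187.ZD.DS (word)

variable {R : Type} [CommRing R] [Algebra ℚ R] (D : DS R)

namespace OneH824

/-- the value of weight `k` and depth at most one -/
noncomputable def v (k : ℕ) : R := if k = 0 then 1 else zt D k

theorem fil_le (k : ℕ) : Fil D 1 k ≤ Submodule.span ℚ {v D k} := by
  refine Submodule.span_le.2 ?_
  rintro x ⟨s, hs, hk, hl, rfl⟩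
  match s, hs, hk, hl with
  | [], _, hk, _ =>
    have h0 : k = 0 := by simpa using hk.symm
    subst h0
    exact Submodule.subset_span (by rw [Set.mem_singleton_iff, v, if_pos rfl]; exact D.one)
  | [a], hs, hk, _ =>
    have ha : a = k := by simpa using hk
    subst ha
    have h1 : 1 ≤ a := hs.1 a (by simp)
    exact Submodule.subset_span (by rw [Set.mem_singleton_iff, v, if_neg (by omega), zt])
  | a :: b :: l, _, _, hl => simp at hl

theorem v_mem {k : ℕ} (hk : k ≠ 1) : v D k ∈ Fil D 1 k := by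
  by_cases h : k = 0
  · subst h
    exact Submodule.subset_span ⟨[], ⟨by simp, by simp⟩, rfl, by simp, by
      rw [v, if_pos rfl]
      exact D.one.symm⟩
  · refine Submodule.subset_span ⟨[k], ⟨?_, by simpa using hk⟩, by simp, by simp, by
      rw [v, if_neg h, zt]⟩
    intro a ha
    rw [List.mem_singleton] at ha
    omega

/-- the even values are positive rational multiples of the powers of the value of weight two -/
theorem zt_even (h : SEuler D) (m : ℕ) : 1 ≤ m →
    ∃ c : ℚ, 0 < c ∧ zt D (2 * m) = c • (zt D 2) ^ m := by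
  induction m using Nat.strong_induction_on with
  | _ m ih =>
    intro hm
    rcases Nat.lt_or_ge m 2 with h2 | h2
    · have h1 : m = 1 := by omega
      subst h1
      exact ⟨1, one_pos, by rw [one_smul, pow_one, mul_one]⟩
    · have hc : ∀ j : ℕ, ∃ c : ℚ, 0 < c ∧ (1 ≤ j → j < m → zt D (2 * j) = c • (zt D 2) ^ j) := by
        intro j
        by_cases hj : 1 ≤ j ∧ j < m
        · obtain ⟨c, hc, hc'⟩ := ih j hj.2 hj.1
          exact ⟨c, hc, fun _ _ => hc'⟩
        · exact ⟨1, one_pos, fun h3 h4 => absurd ⟨h3, h4⟩ hj⟩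
      choose c hc0 hc1 using hc
      have h3 := h m h2
      have h4 : ∑ j ∈ Finset.Ico 1 m, zt D (2 * j) * zt D (2 * m - 2 * j) =
          (∑ j ∈ Finset.Ico 1 m, c j * c (m - j)) • (zt D 2) ^ m := by
        rw [Finset.sum_smul]
        refine Finset.sum_congr rfl fun j hj => ?_
        rw [Finset.mem_Ico] at hj
        have h5 : 2 * m - 2 * j = 2 * (m - j) := by omega
        rw [h5, hc1 j hj.1 hj.2, hc1 (m - j) (by omega) (by omega), smul_mul_smul_comm,
          ← pow_add, Nat.add_sub_cancel' hj.2.le]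
      have h6 : (0 : ℚ) < ∑ j ∈ Finset.Ico 1 m, c j * c (m - j) :=
        Finset.sum_pos (fun j _ => mul_pos (hc0 j) (hc0 (m - j))) ⟨1, by
          rw [Finset.mem_Ico]
          omega⟩
      have h7 : (0 : ℚ) < (m : ℚ) + 1 / 2 := by positivity
      refine ⟨((m : ℚ) + 1 / 2)⁻¹ * ∑ j ∈ Finset.Ico 1 m, c j * c (m - j),
        mul_pos (inv_pos.2 h7) h6, ?_⟩
      rw [mul_smul, ← h4, h3, smul_smul, inv_mul_cancel₀ h7.ne', one_smul]

theorem v_even (h : SEuler D) {k : ℕ} (hk : Even k) :
    ∃ n : ℕ, k = 2 * n ∧ ∃ c : ℚ, 0 < c ∧ v D k = c • (zt D 2) ^ n := by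
  obtain ⟨n, rfl⟩ := hk
  refine ⟨n, by ring, ?_⟩
  rcases Nat.eq_zero_or_pos n with h0 | h0
  · subst h0
    exact ⟨1, one_pos, by rw [v, if_pos (by rfl), one_smul, pow_zero]⟩
  · obtain ⟨c, hc, hc'⟩ := zt_even D h n h0
    refine ⟨c, hc, ?_⟩
    rw [v, if_neg (by omega), ← two_mul, hc']

theorem even_mul (h : SEuler D) {i j : ℕ} (hi : Even i) (hj : Even j) :
    Fil D 1 i * Fil D 1 j ≤ Fil D 1 (i + j) := by
  rw [Submodule.mul_le]
  intro m hm n hn
  obtain ⟨a, rfl⟩ := Submodule.mem_span_singleton.1 (fil_le D i hm)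
  obtain ⟨b, rfl⟩ := Submodule.mem_span_singleton.1 (fil_le D j hn)
  obtain ⟨i', hi', p, -, hp⟩ := v_even D h hi
  obtain ⟨j', hj', q, -, hq⟩ := v_even D h hj
  obtain ⟨k', hk', r, hr, hr'⟩ := v_even D h (hi.add hj)
  have h1 : (i + j) ≠ 1 := by omega
  have h3 : k' = i' + j' := by omega
  have h2 : (a • v D i) * (b • v D j) = (a * b * p * q / r) • v D (i + j) := by
    rw [hp, hq, hr', h3, smul_smul, smul_smul, smul_mul_smul_comm, smul_smul, ← pow_add]
    congr 1
    field_simp
  rw [h2]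
  exact Submodule.smul_mem _ _ (v_mem D h1)

end OneH824

/-- depth one: the values of weight `k` -/
theorem sOne (h : SEuler D) : SOne D := by
  refine ⟨fun k => ?_, fun i j hi hj => OneH824.even_mul D h hi hj⟩
  exact (Submodule.finrank_mono (OneH824.fil_le D k)).trans
    ((finrank_span_le_card ({OneH824.v D k} : Set R)).trans (by simp))

end Pool.Agent.H492.RF
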