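import Pool.Agent.H492.RF.Stm

/-!
# `SSpan`: structure of depth four in even weights
-/

set_option autoImplicit false

namespace Pool.Agent.H492.RF

namespace SpanAux

variable {R : Type} [CommRing R] [Algebra ℚ R]

/-- abstract form of the elimination of products -/
theorem prd_elim {F : ℕ → ℕ → Submodule ℚ R} {r k : ℕ} {X N : Submodule ℚ R}
    (h : ∀ r₁ r₂ k₁ k₂, 1 ≤ r₁ → 1 ≤ r₂ → r₁ + r₂ = r → k₁ + k₂ = k →
      X * (F r₁ k₁ * F r₂ k₂) ≤ N) :
    X * Submodule.span ℚ {x | ∃ r₁ r₂ k₁ k₂ : ℕ, 1 ≤ r₁ ∧ 1 ≤ r₂ ∧ r₁ + r₂ = r ∧ k₁ + k₂ = k ∧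
    ∃ y ∈ F r₁ k₁, ∃ z ∈ F r₂ k₂, x = y * z} ≤ N := by
  rw [Submodule.mul_le]
  intro m hm n hn
  induction hn using Submodule.span_induction with
  | mem x hx =>
    obtain ⟨r₁, r₂, k₁, k₂, h1, h2, h3, h4, y, hy, z, hz, rfl⟩ := hx
    exact h r₁ r₂ k₁ k₂ h1 h2 h3 h4 (Submodule.mul_mem_mul hm (Submodule.mul_mem_mul hy hz))
  | zero => simp
  | add x y _ _ hx hy => rw [mul_add]; exact N.add_mem hx hy
  | smul a x _ hx => rw [mul_smul_comm]; exact N.smul_mem a hx

section

variable {F G : ℕ → ℕ → Submodule ℚ R} {P : ℕ → ℕ → Submodule ℚ R}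

/-- the hypotheses -/
structure Hyp (F P G : ℕ → ℕ → Submodule ℚ R) : Prop where
  mono : ∀ r k, F r k ≤ F (r + 1) k
  one : (1 : Submodule ℚ R) ≤ F 1 0
  mul : ∀ r₁ r₂ k₁ k₂, F r₁ k₁ * F r₂ k₂ ≤ F (r₁ + r₂) (k₁ + k₂)
  ee : ∀ i j, Even i → Even j → F 1 i * F 1 j ≤ F 1 (i + j)
  pel : ∀ (r k : ℕ) (X N : Submodule ℚ R),
    (∀ r₁ r₂ k₁ k₂, 1 ≤ r₁ → 1 ≤ r₂ → r₁ + r₂ = r → k₁ + k₂ = k →
      X * (F r₁ k₁ * F r₂ k₂) ≤ N) → X * P r k ≤ N
  le : ∀ r k, 2 ≤ r → F r k ≤ F (r - 1) k ⊔ P r k ⊔ G r k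
  par : ∀ r k, 2 ≤ r → r ≤ 4 → ¬ (Even r ↔ Even k) → G r k = ⊥

variable (h : Hyp F P G) (hG2 : ∀ j, G 2 j ≤ F 2 j)
include h

theorem el (r k : ℕ) (hr : 2 ≤ r) (X N : Submodule ℚ R) (h1 : X * F (r - 1) k ≤ N)
    (h2 : ∀ r₁ r₂ k₁ k₂, 1 ≤ r₁ → 1 ≤ r₂ → r₁ + r₂ = r → k₁ + k₂ = k →
      X * (F r₁ k₁ * F r₂ k₂) ≤ N) (h3 : X * G r k ≤ N) : X * F r k ≤ N := by
  calc X * F r k ≤ X * (F (r - 1) k ⊔ P r k ⊔ G r k) := mul_le_mul_right (h.le r k hr) X
    _ = X * F (r - 1) k ⊔ X * P r k ⊔ X * G r k := by rw [Submodule.mul_sup, Submodule.mul_sup]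
    _ ≤ N := sup_le (sup_le h1 (h.pel r k X N h2)) h3

theorem le1 (X : Submodule ℚ R) : X ≤ F 1 0 * X := by
  calc X = 1 * X := (one_mul X).symm
    _ ≤ F 1 0 * X := mul_le_mul_left h.one X

/-- (A) -/
theorem elA (j : ℕ) (hj : Odd j) (X N : Submodule ℚ R)
    (h1 : ∀ a b, Even a → Odd b → a + b = j → X * (F 1 a * F 1 b) ≤ N) : X * F 2 j ≤ N := by
  refine el h 2 j le_rfl X N ?_ ?_ ?_
  · exact (mul_le_mul_right (le1 h (F 1 j)) X).trans (h1 0 j (by simp) hj (by simp))
  · intro r₁ r₂ k₁ k₂ hr1 hr2 hr hk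
    obtain rfl : r₁ = 1 := by omega
    obtain rfl : r₂ = 1 := by omega
    rcases Nat.even_or_odd k₁ with he | ho
    · exact h1 k₁ k₂ he (by rw [Nat.odd_iff] at *; rw [Nat.even_iff] at *; omega) hk
    · rw [mul_comm (F 1 k₁)]
      exact h1 k₂ k₁ (by rw [Nat.odd_iff] at *; rw [Nat.even_iff] at *; omega) ho (by omega)
  · rw [h.par 2 j le_rfl (by norm_num) (by simp [hj])]
    simp

/-- (A') -/
theorem elA' (j : ℕ) (hj : Even j) (X N : Submodule ℚ R) (h0 : X * F 1 j ≤ N)
    (h1 : ∀ a b, Odd a → Odd b → a + b = j → X * (F 1 a * F 1 b) ≤ N) (h2 : X * G 2 j ≤ N) :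
    X * F 2 j ≤ N := by
  refine el h 2 j le_rfl X N h0 ?_ h2
  intro r₁ r₂ k₁ k₂ hr1 hr2 hr hk
  obtain rfl : r₁ = 1 := by omega
  obtain rfl : r₂ = 1 := by omega
  rcases Nat.even_or_odd k₁ with he | ho
  · have he2 : Even k₂ := by rw [Nat.even_iff] at *; omega
    have h3 := h.ee k₁ k₂ he he2
    rw [hk] at h3
    exact (mul_le_mul_right h3 X).trans h0
  · exact h1 k₁ k₂ ho (by rw [Nat.odd_iff] at *; rw [Nat.even_iff] at *; omega) hk

/-- (B) -/
theorem elB (j : ℕ) (hj : Even j) (X N : Submodule ℚ R)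
    (h1 : ∀ a b, Even a → a + b = j → X * (F 1 a * F 2 b) ≤ N) : X * F 3 j ≤ N := by
  have key : ∀ k₁ k₂, k₁ + k₂ = j → X * (F 1 k₁ * F 2 k₂) ≤ N := by
    intro k₁ k₂ hk
    rcases Nat.even_or_odd k₁ with he | ho
    · exact h1 k₁ k₂ he hk
    · rw [← mul_assoc]
      refine elA h k₂ (by rw [Nat.odd_iff] at *; rw [Nat.even_iff] at *; omega) _ N ?_
      intro a b ha hb hab
      have e : X * F 1 k₁ * (F 1 a * F 1 b) = X * (F 1 a * (F 1 k₁ * F 1 b)) := by ring
      rw [e]
      refine le_trans ?_ (h1 a (k₁ + b) ha (by omega))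
      exact mul_le_mul_right (mul_le_mul_right (h.mul 1 1 k₁ b) _) X
  refine el h 3 j (by norm_num) X N ?_ ?_ ?_
  · exact (mul_le_mul_right (le1 h (F 2 j)) X).trans (h1 0 j (by simp) (by simp))
  · intro r₁ r₂ k₁ k₂ hr1 hr2 hr hk
    rcases (show r₁ = 1 ∧ r₂ = 2 ∨ r₁ = 2 ∧ r₂ = 1 by omega) with ⟨rfl, rfl⟩ | ⟨rfl, rfl⟩
    · exact key k₁ k₂ hk
    · rw [mul_comm (F 2 k₁)]
      exact key k₂ k₁ (by omega)
  · rw [h.par 3 j (by norm_num) (by norm_num) (by
      simp only [hj, iff_true]; decide)]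
    simp

/-- (B') -/
theorem elB' (j : ℕ) (hj : Odd j) (X N : Submodule ℚ R) (h0 : X * F 2 j ≤ N)
    (h1 : ∀ a b c, Odd a → Odd b → Odd c → a + b + c = j → X * (F 1 a * F 1 b * F 1 c) ≤ N)
    (h2 : ∀ a b, Odd a → a + b = j → X * (F 1 a * G 2 b) ≤ N) (h3 : X * G 3 j ≤ N) :
    X * F 3 j ≤ N := by
  have key : ∀ k₁ k₂, k₁ + k₂ = j → X * (F 1 k₁ * F 2 k₂) ≤ N := by
    intro k₁ k₂ hk
    rcases Nat.even_or_odd k₁ with he | ho
    · rw [← mul_assoc]
      refine elA h k₂ (by rw [Nat.odd_iff] at *; rw [Nat.even_iff] at *; omega) _ N ?_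
      intro a b ha hb hab
      have e : X * F 1 k₁ * (F 1 a * F 1 b) = X * ((F 1 k₁ * F 1 a) * F 1 b) := by ring
      rw [e]
      refine le_trans (mul_le_mul_right ?_ X) h0
      refine (mul_le_mul_left (h.ee k₁ a he ha) _).trans ?_
      have h4 := h.mul 1 1 (k₁ + a) b
      rwa [show k₁ + a + b = j by omega] at h4
    · rw [← mul_assoc]
      have he2 : Even k₂ := by rw [Nat.odd_iff] at *; rw [Nat.even_iff] at *; omega
      refine elA' h k₂ he2 _ N ?_ ?_ ?_
      · rw [mul_assoc]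
        refine le_trans (mul_le_mul_right ?_ X) h0
        have h4 := h.mul 1 1 k₁ k₂
        rwa [hk] at h4
      · intro a b ha hb hab
        have e : X * F 1 k₁ * (F 1 a * F 1 b) = X * (F 1 k₁ * F 1 a * F 1 b) := by ring
        rw [e]
        exact h1 k₁ a b ho ha hb (by omega)
      · rw [mul_assoc]
        exact h2 k₁ k₂ ho hk
  refine el h 3 j (by norm_num) X N h0 ?_ h3
  intro r₁ r₂ k₁ k₂ hr1 hr2 hr hk
  rcases (show r₁ = 1 ∧ r₂ = 2 ∨ r₁ = 2 ∧ r₂ = 1 by omega) with ⟨rfl, rfl⟩ | ⟨rfl, rfl⟩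
  · exact key k₁ k₂ hk
  · rw [mul_comm (F 2 k₁)]
    exact key k₂ k₁ (by omega)

include hG2 in
/-- (C) -/
theorem main (k : ℕ) (hk : Even k) (N : Submodule ℚ R) (t3 : F 3 k ≤ N) (t4 : G 4 k ≤ N)
    (og3 : ∀ i j, Odd i → i + j = k → F 1 i * G 3 j ≤ N)
    (oog2 : ∀ a b c, Odd a → Odd b → a + b + c = k → F 1 a * F 1 b * G 2 c ≤ N)
    (g2g2 : ∀ a b, a + b = k → G 2 a * G 2 b ≤ N)
    (oooo : ∀ a b c d, Odd a → Odd b → Odd c → Odd d → a + b + c + d = k →
      F 1 a * F 1 b * F 1 c * F 1 d ≤ N) : F 4 k ≤ N := by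
  have m13 : ∀ i j, i + j = k → F 1 i * F 3 j ≤ N := by
    intro i j hij
    rcases Nat.even_or_odd i with he | ho
    · refine elB h j (by rw [Nat.even_iff] at *; omega) _ N ?_
      intro a b ha hab
      rw [← mul_assoc]
      refine (mul_le_mul_left (h.ee i a he ha) _).trans ?_
      refine (h.mul 1 2 (i + a) b).trans ?_
      rwa [show i + a + b = k by omega]
    · refine elB' h j (by rw [Nat.odd_iff] at *; rw [Nat.even_iff] at *; omega) _ N ?_ ?_ ?_ ?_
      · refine (h.mul 1 2 i j).trans ?_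
        rwa [hij]
      · intro a b c ha hb hc habc
        rw [← mul_assoc, ← mul_assoc]
        exact oooo i a b c ho ha hb hc (by omega)
      · intro a b ha hab
        rw [← mul_assoc]
        exact oog2 i a b ho ha (by omega)
      · exact og3 i j ho hij
  have m22 : ∀ i j, i + j = k → F 2 i * F 2 j ≤ N := by
    intro i j hij
    rcases Nat.even_or_odd i with he | ho
    · have hj : Even j := by rw [Nat.even_iff] at *; omega
      refine elA' h j hj _ N ?_ ?_ ?_
      · refine (h.mul 2 1 i j).trans ?_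
        rwa [hij]
      · intro a b ha hb hab
        rw [mul_comm (F 2 i)]
        refine elA' h i he _ N ?_ ?_ ?_
        · rw [mul_assoc]
          refine (mul_le_mul_right (h.mul 1 1 b i) _).trans ?_
          refine (h.mul 1 2 a (b + i)).trans ?_
          rwa [show a + (b + i) = k by omega]
        · intro c d hc hd hcd
          rw [← mul_assoc]
          exact oooo a b c d ha hb hc hd (by omega)
        · exact oog2 a b i ha hb (by omega)
      · rw [mul_comm (F 2 i)]
        refine elA' h i he _ N ?_ ?_ ?_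
        · have hg : G 2 j ≤ F 2 j := hG2 j
          refine (mul_le_mul_left hg _).trans ?_
          refine (h.mul 2 1 j i).trans ?_
          rwa [show j + i = k by omega]
        · intro c d hc hd hcd
          rw [mul_comm (G 2 j)]
          exact oog2 c d j hc hd (by omega)
        · exact g2g2 j i (by omega)
    · have hj : Odd j := by rw [Nat.odd_iff] at *; rw [Nat.even_iff] at *; omega
      refine elA h j hj _ N ?_
      intro a b ha hb hab
      rw [mul_comm (F 2 i)]
      refine elA h i ho _ N ?_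
      intro c d hc hd hcd
      have e : F 1 a * F 1 b * (F 1 c * F 1 d) = (F 1 a * F 1 c) * (F 1 b * F 1 d) := by ring
      rw [e]
      refine (mul_le_mul' (h.ee a c ha hc) (h.mul 1 1 b d)).trans ?_
      refine (h.mul 1 2 (a + c) (b + d)).trans ?_
      rwa [show a + c + (b + d) = k by omega]
  have h5 : (1 : Submodule ℚ R) * F 4 k ≤ N := by
    refine el h 4 k (by norm_num) 1 N ?_ ?_ ?_
    · rw [one_mul]; exact t3
    · intro r₁ r₂ k₁ k₂ hr1 hr2 hr hk
      rw [one_mul]
      rcases (show r₁ = 1 ∧ r₂ = 3 ∨ r₁ = 2 ∧ r₂ = 2 ∨ r₁ = 3 ∧ r₂ = 1 by omega) with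
        ⟨rfl, rfl⟩ | ⟨rfl, rfl⟩ | ⟨rfl, rfl⟩
      · exact m13 k₁ k₂ hk
      · exact m22 k₁ k₂ hk
      · rw [mul_comm (F 3 k₁)]
        exact m13 k₂ k₁ (by omega)
    · rw [one_mul]; exact t4
  rwa [one_mul] at h5

end

theorem fil_mono (D : DS R) {r r' k : ℕ} (h : r ≤ r') : Fil D r k ≤ Fil D r' k := by
  refine Submodule.span_mono ?_
  rintro x ⟨s, h1, h2, h3, h4⟩
  exact ⟨s, h1, h2, h3.trans h, h4⟩

theorem one_le (D : DS R) : (1 : Submodule ℚ R) ≤ Fil D 1 0 := by
  rw [Submodule.one_le]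
  refine Submodule.subset_span ⟨[], ⟨by simp, by simp⟩, by simp, by simp, ?_⟩
  exact D.one.symm

end SpanAux

open SpanAux in
/-- the structure of depth four in even weights -/
theorem sSpan {R : Type} [CommRing R] [Algebra ℚ R] (D : DS R) : SSpan D := by
  intro hMul hOne G hG hpar k hk
  have hyp : Hyp (Fil D) (Prd D) G :=
    { mono := fun r k => fil_mono D (Nat.le_succ r)
      one := one_le D
      mul := hMul
      ee := hOne.2
      pel := fun r k X N hX => prd_elim hX
      le := fun r k hr => (hG r k hr).2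
      par := hpar }
  set N : Submodule ℚ R := Fil D 3 k ⊔ G 4 k ⊔
    (⨆ i ∈ {i | i ≤ k}, Od D i * G 3 (k - i)) ⊔
    (⨆ p ∈ {p : ℕ × ℕ | p.1 ≤ p.2 ∧ p.1 + p.2 ≤ k}, Od D p.1 * Od D p.2 * G 2 (k - p.1 - p.2)) ⊔
    (⨆ i ∈ {i | 2 * i ≤ k}, G 2 i * G 2 (k - i)) ⊔
    (⨆ p ∈ {p : ℕ × ℕ × ℕ × ℕ | p.1 ≤ p.2.1 ∧ p.2.1 ≤ p.2.2.1 ∧ p.2.2.1 ≤ p.2.2.2 ∧
      p.1 + p.2.1 + p.2.2.1 + p.2.2.2 = k},
        Od D p.1 * Od D p.2.1 * Od D p.2.2.1 * Od D p.2.2.2) with hN
  have hOd : ∀ i, Odd i → Od D i = Fil D 1 i := by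
    intro i hi
    rw [Od, if_pos hi]
  have oog2' : ∀ a b c, a ≤ b → Odd a → Odd b → a + b + c = k →
      Fil D 1 a * Fil D 1 b * G 2 c ≤ N := by
    intro a b c hab ha hb habc
    rw [hN]
    refine le_trans ?_ (le_sup_left.trans le_sup_left |> le_trans le_sup_right)
    refine le_trans ?_ (le_iSup₂ (f := fun (p : ℕ × ℕ)
      (_ : p ∈ {p : ℕ × ℕ | p.1 ≤ p.2 ∧ p.1 + p.2 ≤ k}) =>
      Od D p.1 * Od D p.2 * G 2 (k - p.1 - p.2)) (a, b) ⟨hab, by simp only; omega⟩)
    simp only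
    rw [hOd a ha, hOd b hb, show k - a - b = c by omega]
  have oooo' : ∀ a b c d, a ≤ b → b ≤ c → c ≤ d → Odd a → Odd b → Odd c → Odd d →
      a + b + c + d = k → Fil D 1 a * Fil D 1 b * Fil D 1 c * Fil D 1 d ≤ N := by
    intro a b c d hab hbc hcd ha hb hc hd habcd
    rw [hN]
    refine le_trans ?_ le_sup_right
    refine le_trans ?_ (le_iSup₂ (f := fun (p : ℕ × ℕ × ℕ × ℕ)
      (_ : p ∈ {p : ℕ × ℕ × ℕ × ℕ | p.1 ≤ p.2.1 ∧ p.2.1 ≤ p.2.2.1 ∧ p.2.2.1 ≤ p.2.2.2 ∧
        p.1 + p.2.1 + p.2.2.1 + p.2.2.2 = k}) =>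
      Od D p.1 * Od D p.2.1 * Od D p.2.2.1 * Od D p.2.2.2) (a, b, c, d) ⟨hab, hbc, hcd, habcd⟩)
    simp only
    rw [hOd a ha, hOd b hb, hOd c hc, hOd d hd]
  have g2g2' : ∀ a b, a ≤ b → a + b = k → G 2 a * G 2 b ≤ N := by
    intro a b hab habk
    rw [hN]
    refine le_trans ?_ (le_trans le_sup_right le_sup_left)
    refine le_trans ?_ (le_iSup₂ (f := fun (i : ℕ) (_ : i ∈ {i | 2 * i ≤ k}) =>
      G 2 i * G 2 (k - i)) a (show 2 * a ≤ k by omega))
    rw [show k - a = b by omega]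
  refine SpanAux.main hyp (fun j => (hG 2 j le_rfl).1) k hk N ?_ ?_ ?_ ?_ ?_ ?_
  · rw [hN]
    exact le_sup_left.trans (le_sup_left.trans (le_sup_left.trans (le_sup_left.trans le_sup_left)))
  · rw [hN]
    exact le_sup_right.trans
      (le_sup_left.trans (le_sup_left.trans (le_sup_left.trans le_sup_left)))
  · intro i j hi hij
    rw [hN]
    refine le_trans ?_ (le_sup_right.trans (le_sup_left.trans (le_sup_left.trans le_sup_left)))
    refine le_trans ?_ (le_iSup₂ (f := fun (i : ℕ) (_ : i ∈ {i | i ≤ k}) =>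
      Od D i * G 3 (k - i)) i (show i ≤ k by omega))
    rw [hOd i hi, show k - i = j by omega]
  · intro a b c ha hb habc
    rcases le_total a b with hab | hab
    · exact oog2' a b c hab ha hb habc
    · rw [mul_comm (Fil D 1 a)]
      exact oog2' b a c hab hb ha (by omega)
  · intro a b hab
    rcases le_total a b with h | h
    · exact g2g2' a b h hab
    · rw [mul_comm (G 2 a)]
      exact g2g2' b a h (by omega)
  · intro a b c d ha hb hc hd habcd
    -- sort the four indices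
    have key : ∃ a' b' c' d' : ℕ, a' ≤ b' ∧ b' ≤ c' ∧ c' ≤ d' ∧ Odd a' ∧ Odd b' ∧ Odd c' ∧
        Odd d' ∧ a' + b' + c' + d' = k ∧
        Fil D 1 a * Fil D 1 b * Fil D 1 c * Fil D 1 d =
          Fil D 1 a' * Fil D 1 b' * Fil D 1 c' * Fil D 1 d' := by
      rcases le_total a b with h1 | h1 <;> rcases le_total a c with h2 | h2 <;>
      rcases le_total a d with h3 | h3 <;> rcases le_total b c with h4 | h4 <;>
      rcases le_total b d with h5 | h5 <;> rcases le_total c d with h6 | h6 <;>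
      first
        | exact ⟨a, b, c, d,
            by assumption, by assumption, by assumption, ha, hb, hc, hd, by omega, by ring⟩
        | exact ⟨a, b, d, c,
            by assumption, by assumption, by assumption, ha, hb, hd, hc, by omega, by ring⟩
        | exact ⟨a, c, b, d,
            by assumption, by assumption, by assumption, ha, hc, hb, hd, by omega, by ring⟩
        | exact ⟨a, c, d, b,
            by assumption, by assumption, by assumption, ha, hc, hd, hb, by omega, by ring⟩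
        | exact ⟨a, d, b, c,
            by assumption, by assumption, by assumption, ha, hd, hb, hc, by omega, by ring⟩
        | exact ⟨a, d, c, b,
            by assumption, by assumption, by assumption, ha, hd, hc, hb, by omega, by ring⟩
        | exact ⟨b, a, c, d,
            by assumption, by assumption, by assumption, hb, ha, hc, hd, by omega, by ring⟩
        | exact ⟨b, a, d, c,
            by assumption, by assumption, by assumption, hb, ha, hd, hc, by omega, by ring⟩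
        | exact ⟨b, c, a, d,
            by assumption, by assumption, by assumption, hb, hc, ha, hd, by omega, by ring⟩
        | exact ⟨b, c, d, a,
            by assumption, by assumption, by assumption, hb, hc, hd, ha, by omega, by ring⟩
        | exact ⟨b, d, a, c,
            by assumption, by assumption, by assumption, hb, hd, ha, hc, by omega, by ring⟩
        | exact ⟨b, d, c, a,
            by assumption, by assumption, by assumption, hb, hd, hc, ha, by omega, by ring⟩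
        | exact ⟨c, a, b, d,
            by assumption, by assumption, by assumption, hc, ha, hb, hd, by omega, by ring⟩
        | exact ⟨c, a, d, b,
            by assumption, by assumption, by assumption, hc, ha, hd, hb, by omega, by ring⟩
        | exact ⟨c, b, a, d,
            by assumption, by assumption, by assumption, hc, hb, ha, hd, by omega, by ring⟩
        | exact ⟨c, b, d, a,
            by assumption, by assumption, by assumption, hc, hb, hd, ha, by omega, by ring⟩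
        | exact ⟨c, d, a, b,
            by assumption, by assumption, by assumption, hc, hd, ha, hb, by omega, by ring⟩
        | exact ⟨c, d, b, a,
            by assumption, by assumption, by assumption, hc, hd, hb, ha, by omega, by ring⟩
        | exact ⟨d, a, b, c,
            by assumption, by assumption, by assumption, hd, ha, hb, hc, by omega, by ring⟩
        | exact ⟨d, a, c, b,
            by assumption, by assumption, by assumption, hd, ha, hc, hb, by omega, by ring⟩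
        | exact ⟨d, b, a, c,
            by assumption, by assumption, by assumption, hd, hb, ha, hc, by omega, by ring⟩
        | exact ⟨d, b, c, a,
            by assumption, by assumption, by assumption, hd, hb, hc, ha, by omega, by ring⟩
        | exact ⟨d, c, a, b,
            by assumption, by assumption, by assumption, hd, hc, ha, hb, by omega, by ring⟩
        | exact ⟨d, c, b, a,
            by assumption, by assumption, by assumption, hd, hc, hb, ha, by omega, by ring⟩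
    obtain ⟨a', b', c', d', h1, h2, h3, h4, h5, h6, h7, h8, h9⟩ := key
    rw [h9]
    exact oooo' a' b' c' d' h1 h2 h3 h4 h5 h6 h7 h8

end Pool.Agent.H492.RF
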