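import Pool.Agent.H492.RF.Stm
import Pool.Agent.H492.RZ.SStufPf

/-!
# The stuffle relations modulo products and smaller depth
-/

set_option autoImplicit false

namespace Pool.Agent.H492.RF

open Module
open Pool.Agent.H492.UB (sh)
open Pool.Agent.H492.RZ (IsAdm)
open Pool.Agent.Q187.ZD.DS (InH0 InH1 shuffles stuffles index word)

namespace Stf

/-- the stuffle product is the shuffle product up to shorter indices -/
theorem stuffles_sub {R : Type} [CommRing R] [Algebra ℚ R] (N : Submodule ℚ R) (u v : List ℕ) (hu : ∀ a ∈ u ++ v, 1 ≤ a)
    (G : List ℕ → R)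
    (hG : ∀ s : List ℕ, (∀ a ∈ s, 1 ≤ a) → s.sum = u.sum + v.sum →
      s.length + 1 ≤ u.length + v.length → G s ∈ N) :
    ((stuffles u v).map G).sum - ((sh u v).map G).sum ∈ N := by
  induction u, v using stuffles.induct generalizing G with
  | case1 l =>
    rw [stuffles, Pool.Agent.H492.UB.sh_nil_left, sub_self]
    exact N.zero_mem
  | case2 i k =>
    rw [stuffles, Pool.Agent.H492.UB.sh_nil_right, sub_self]
    exact N.zero_mem
  | case3 i k j l ih1 ih2 ih3 =>
    have hi : 1 ≤ i := hu i (by simp)
    have hj : 1 ≤ j := hu j (by simp)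
    have a1 := ih1 (fun a ha => hu a (List.mem_cons_of_mem _ ha)) (fun s => G (i :: s)) (by
      intro s h1 h2 h3
      refine hG (i :: s) ?_ ?_ ?_
      · intro a ha
        rcases List.mem_cons.1 ha with rfl | ha
        · exact hi
        · exact h1 a ha
      · simp only [List.sum_cons] at h2 ⊢
        omega
      · simp only [List.length_cons] at h3 ⊢
        omega)
    have a2 := ih2 (fun a ha => hu a (by
        simp only [List.mem_append, List.mem_cons] at ha ⊢
        tauto)) (fun s => G (j :: s)) (by
      intro s h1 h2 h3
      refine hG (j :: s) ?_ ?_ ?_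
      · intro a ha
        rcases List.mem_cons.1 ha with rfl | ha
        · exact hj
        · exact h1 a ha
      · simp only [List.sum_cons] at h2 ⊢
        omega
      · simp only [List.length_cons] at h3 ⊢
        omega)
    have a3 : ((stuffles k l).map fun s => G ((i + j) :: s)).sum ∈ N := by
      refine list_sum_mem fun x hx => ?_
      obtain ⟨s, hs, rfl⟩ := List.mem_map.1 hx
      obtain ⟨h1, h2, h3⟩ := Pool.Agent.H492.RZ.H720S.stuffles_mem k l s hs (fun a ha => hu a (by
        simp only [List.mem_append, List.mem_cons] at ha ⊢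
        tauto))
      refine hG ((i + j) :: s) ?_ ?_ ?_
      · intro a ha
        rcases List.mem_cons.1 ha with rfl | ha
        · omega
        · exact h1 a ha
      · simp only [List.sum_cons]
        omega
      · simp only [List.length_cons]
        omega
    have e1 : ((stuffles (i :: k) (j :: l)).map G).sum =
        ((stuffles k (j :: l)).map fun s => G (i :: s)).sum +
        ((stuffles (i :: k) l).map fun s => G (j :: s)).sum +
        ((stuffles k l).map fun s => G ((i + j) :: s)).sum := by
      rw [stuffles, List.map_append, List.map_append, List.sum_append, List.sum_append, List.map_map,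
        List.map_map, List.map_map]
      rfl
    have e2 : ((sh (i :: k) (j :: l)).map G).sum =
        ((sh k (j :: l)).map fun s => G (i :: s)).sum +
        ((sh (i :: k) l).map fun s => G (j :: s)).sum := by
      rw [Pool.Agent.H492.UB.sh_cons_cons, List.map_append, List.sum_append, List.map_map,
        List.map_map]
      rfl
    rw [e1, e2]
    have e3 : ((stuffles k (j :: l)).map fun s => G (i :: s)).sum +
        ((stuffles (i :: k) l).map fun s => G (j :: s)).sum +
        ((stuffles k l).map fun s => G ((i + j) :: s)).sum -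
        (((sh k (j :: l)).map fun s => G (i :: s)).sum +
        ((sh (i :: k) l).map fun s => G (j :: s)).sum) =
        (((stuffles k (j :: l)).map fun s => G (i :: s)).sum -
          ((sh k (j :: l)).map fun s => G (i :: s)).sum) +
        (((stuffles (i :: k) l).map fun s => G (j :: s)).sum -
          ((sh (i :: k) l).map fun s => G (j :: s)).sum) +
        ((stuffles k l).map fun s => G ((i + j) :: s)).sum := by ring
    rw [e3]
    exact N.add_mem (N.add_mem a1 a2) a3


variable {R : Type} [CommRing R] [Algebra ℚ R] (D : DS R)

theorem z_word_mem (hR : SRegFil D) (u : List ℕ) (hu : ∀ a ∈ u, 1 ≤ a) :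
    D.z (word u) ∈ Fil D u.length u.sum := by
  have h := hR (word u) (Pool.Agent.H492.RZ.H720S.inH1_word u)
  rwa [Pool.Agent.H492.RZ.H720S.count_word, Pool.Agent.H492.RZ.H720S.length_word u hu] at h

theorem Fil_mono {r r' k : ℕ} (h : r ≤ r') : Fil D r k ≤ Fil D r' k := by
  refine Submodule.span_mono ?_
  rintro x ⟨s, h1, h2, h3, h4⟩
  exact ⟨s, h1, h2, h3.trans h, h4⟩

end Stf

open Stf in
/-- the stuffle relations modulo products and smaller depth -/
theorem sStuf {R : Type} [CommRing R] [Algebra ℚ R] (D : DS R) (h2 : SRegFil D) : SStuf D := by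
  intro u v hu hv hpos hhead
  have hup : ∀ a ∈ u, 1 ≤ a := fun a ha => hpos a (List.mem_append_left _ ha)
  have hvp : ∀ a ∈ v, 1 ≤ a := fun a ha => hpos a (List.mem_append_right _ ha)
  have hZ := D.stuffle u v hup ⟨hvp, hhead⟩
  have hP : ((stuffles u v).map fun s => D.z (word s)).sum ∈
      Fil D (u.length + v.length - 1) (u.sum + v.sum) ⊔ Prd D (u.length + v.length) (u.sum + v.sum) := by
    rw [hZ]
    refine Submodule.mem_sup_right (Submodule.subset_span ?_)
    exact ⟨u.length, v.length, u.sum, v.sum, List.length_pos_iff.2 hu, List.length_pos_iff.2 hv, rfl,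
      rfl, _, z_word_mem D h2 u hup, _, z_word_mem D h2 v hvp, rfl⟩
  have hD := stuffles_sub
    (Fil D (u.length + v.length - 1) (u.sum + v.sum) ⊔ Prd D (u.length + v.length) (u.sum + v.sum))
    u v hpos (fun s => D.z (word s)) (by
      intro s hs1 hs2 hs3
      refine Submodule.mem_sup_left ?_
      have h3 := z_word_mem D h2 s hs1
      rw [hs2] at h3
      exact Fil_mono D (by omega) h3)
  have h4 := Submodule.sub_mem _ hP hD
  rw [sub_sub_cancel] at h4
  exact h4

end Pool.Agent.H492.RF
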