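import Pool.Agent.H492.RF.SRegFilPf
import Pool.Agent.H492.RF.SEulerPf
import Pool.Agent.H492.RF.SOnePf
import Pool.Agent.H492.RF.SStufPf
import Pool.Agent.H492.RF.SIndPf
import Pool.Agent.H492.RF.SSpanPf
import Pool.Agent.H492.RF.SDimFourPf
import Pool.Agent.H492.RF.Asym
import Pool.Agent.H492.RF.Real

/-!
# The depth four part of a solution of the regularized double shuffle relations
-/

set_option autoImplicit false

namespace Pool.Agent.H492.RF

open Module

theorem sIndT {R : Type} [CommRing R] [Algebra ℚ R] (D : DS R) : SInd D :=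
  sInd D (sRegFil D) (sStuf D (sRegFil D)) Pool.Agent.H492.RZ.sNon Pool.Agent.H492.RZ.sAbs

/-- the dimension in terms of the dimensions of the spaces `W` -/
theorem dim_four {R : Type} [CommRing R] [Algebra ℚ R] (D : DS R) (k : ℕ) (hk : Even k) :
    finrank ℚ (gr D 4 k) ≤ Pool.Agent.H492.RZ.bnd (Pool.Agent.H492.RZ.dW 2) (Pool.Agent.H492.RZ.dW 3)
      (Pool.Agent.H492.RZ.dW 4) k :=
  sDimFour D (sFilMul D) (sOne D (sEuler D)) (sSpan D) (sIndT D) Pool.Agent.H492.RZ.sOdd2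
    Pool.Agent.H492.RZ.sOdd3 Pool.Agent.H492.UB.sOdd k hk

theorem finite_gr {R : Type} [CommRing R] [Algebra ℚ R] (D : DS R) (r k : ℕ) :
    Module.Finite ℚ (gr D r k) := by
  have := D51.fil_fin D r k
  infer_instance

/-- **Depth four.** -/
theorem depth_four : ∃ C : ℝ, ∀ (R : Type) [CommRing R] [Algebra ℚ R] (D : DS R) (k : ℕ), Even k →
    (finrank ℚ (gr D 4 k) : ℝ) ≤ (5963 / 539136) * k ^ 3 + C * (k ^ 2 + 1) := by
  obtain ⟨C, h⟩ := bnd_le
  refine ⟨C, fun R _ _ D k hk => ?_⟩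
  have h1 : (finrank ℚ (gr D 4 k) : ℝ) ≤ (Pool.Agent.H492.RZ.bnd (Pool.Agent.H492.RZ.dW 2)
      (Pool.Agent.H492.RZ.dW 3) (Pool.Agent.H492.RZ.dW 4) k : ℝ) := by
    exact_mod_cast dim_four D k hk
  refine h1.trans ((h k hk).trans (le_of_eq ?_))
  norm_num

end Pool.Agent.H492.RF
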