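import Pool.Agent.H492.RF.Stm5
import Pool.Agent.H492.UB.SOddPf

/-!
# There is nothing in odd degrees in depth five

Write `c x₀ (x₁, …, x₅)` for `H (x₁ - x₀, …, x₅ - x₀)`. Both reversals have the sign `+1`, so with
`H (-w) = - H w` the rotation of the six points has the sign `-1`. The expansion of
`c 0 (a, y, b, c, d)` by the words with first letter `y` is `-∑ c 0 (y, w)`, `w ∈ a ш (b, c, d)`, and
`c 0 (y, w) = - c y (0, w.reverse)`, so it is `∑ c y (0, w)`, `w ∈ a ш (d, c, b)`; two rotations give
`c 0 (a, y, b, c, d) = c y (b, c, d, 0, a)`, and the expansion of this by the words with first letter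
`0` is `- ∑ c y (0, w)` with the same `w`. So both are zero.
-/

set_option autoImplicit false

namespace Pool.Agent.H492.RF

open Pool.Agent.H492.UB

namespace Odd5

section alt

variable {α M : Type} [AddCommGroup M]

theorem rev5 {G : List α → M} (h : Alt 5 G) (w : List α) (hw : w.length = 5) :
    G w.reverse = G w := by
  rcases w with _ | ⟨y, b⟩
  · simp only [List.length_nil] at hw
    omega
  · have hb : b.length = 4 := by
      simp only [List.length_cons] at hw
      omega
    have h3 := T3odd.FS_alt h b [y] (by simp)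
      (by simp only [List.length_cons, List.length_nil]; omega)
    rw [T3odd.FS_cons, S_nil_left, hb] at h3
    rw [h3, List.reverse_cons]
    norm_num

/-- expansion by the words with first letter `x` -/
theorem expand {G : List α → M} (h : Alt 5 G) (b c d x a : α) :
    G [b, c, d, x, a] = - (G [x, a, d, c, b] + G [x, d, a, c, b] + G [x, d, c, a, b] +
      G [x, d, c, b, a]) := by
  have h3 := T3odd.FS_alt h [d, c, b] [x, a] (by simp) rfl
  rw [T3odd.FS_cons] at h3
  simp only [S, sh_cons_cons, sh_nil_left, sh_nil_right, List.map_cons, List.map_nil,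
    List.map_append, List.sum_cons, List.sum_nil, List.sum_append, List.cons_append,
    List.nil_append, List.length_cons, List.length_nil, List.reverse_cons, List.reverse_nil,
    add_zero] at h3
  have h4 : ((-1 : ℤ) ^ (0 + 1 + 1 + 1)) = -1 := by norm_num
  rw [h4, neg_smul, one_smul] at h3
  rw [← neg_eq_iff_eq_neg, ← h3]
  abel

/-- expansion of the words with second letter `y` -/
theorem expand2 {G : List α → M} (h : Alt 5 G) (a y b c d : α) :
    G [a, y, b, c, d] = - (G [y, a, b, c, d] + G [y, b, a, c, d] + G [y, b, c, a, d] +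
      G [y, b, c, d, a]) := by
  have h3 := h [a] [y, b, c, d] (by simp) (by simp) rfl
  simp only [S, sh_cons_cons, sh_nil_left, sh_nil_right, List.map_cons, List.map_nil,
    List.map_append, List.sum_cons, List.sum_nil, List.sum_append, List.cons_append,
    List.nil_append, add_zero] at h3
  rw [← add_eq_zero_iff_eq_neg, ← h3]
  abel

end alt

section rot

variable {V M : Type} [AddCommGroup V] [AddCommGroup M] {H : List V → M}

theorem revX (h : BA 5 H) (w : List V) (hw : w.length = 5) : H w.reverse = H w := by
  have h1 : Alt 5 (fun w => H w.reverse) := h.1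
  have h2 := rev5 h1 w hw
  beta_reduce at h2
  rw [List.reverse_reverse] at h2
  exact h2.symm

theorem revY (h : BA 5 H) (w : List V) (hw : w.length = 5) :
    H (ps 0 w.reverse) = H (ps 0 w) := by
  have h1 : Alt 5 (fun w => H (ps 0 w)) := h.2
  exact rev5 h1 w hw

theorem altX (h : BA 5 H) : Alt 5 H := by
  intro a b ha hb hab
  have h1 := h.1 a b ha hb hab
  unfold S
  rw [← h1]
  congr 1
  refine List.map_congr_left fun w hw => ?_
  have hl := (sh_perm _ _ _ hw).length_eq
  rw [List.length_append, hab] at hl
  exact (revX h w hl).symm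

/-- **Rotation of the points.** -/
theorem rot5 (h : BA 5 H) (u : List V) (x : V) (hu : u.length = 4) :
    H (u ++ [x]) = H (x :: u.map (fun t => x - t)) := by
  obtain ⟨y, hy⟩ := exists_ps (u ++ [x]) (0 : V)
  have hl : y.length = 5 := by
    have := congrArg List.length hy
    rw [length_ps, List.length_append, hu] at this
    simpa using this
  have h3 := revY h y hl
  have h4 := revX h (ps 0 y.reverse) (by rw [length_ps, List.length_reverse, hl])
  rw [h3, hy] at h4
  rw [← h4]
  have hx := ps_last y u x 0 hy
  have h5 := ps_rev y 0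
  rw [hy, hx] at h5
  have h6 : ((0 : V) :: (u ++ [x])).dropLast = 0 :: u := by
    rw [← List.cons_append, List.dropLast_concat]
  rw [h5, h6, List.map_cons, sub_zero]

/-- **One step of the rotation of the six points.** -/
theorem step (h : BA 5 H) (hneg : ∀ w : List V, H (w.map (fun x => -x)) = - H w)
    {a b c d e : V} (a' b' c' d' e' : V) (h1 : a' = -e) (h2 : b' = a - e) (h3 : c' = b - e)
    (h4 : d' = c - e) (h5 : e' = d - e) : H [a, b, c, d, e] = - H [a', b', c', d', e'] := by
  have h1' := rot5 h [a, b, c, d] e rfl
  have h2' := hneg [-e, a - e, b - e, c - e, d - e]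
  simp only [List.cons_append, List.nil_append, List.map_cons, List.map_nil] at h1'
  simp only [List.map_cons, List.map_nil, neg_neg, neg_sub] at h2'
  rw [h1, h2, h3, h4, h5, h1', h2']

/-- a word with first letter `y` and base point `0`, with the base point `y` -/
theorem flip (h : BA 5 H) (hneg : ∀ w : List V, H (w.map (fun x => -x)) = - H w)
    (y p q r s : V) : H [y, p, q, r, s] = - H [-y, s - y, r - y, q - y, p - y] := by
  have h1 : H [p - y, q - y, r - y, s - y, -y] = - H [y, p, q, r, s] :=
    step h hneg _ _ _ _ _ (by abel) (by abel) (by abel) (by abel) (by abel)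
  have h2 := revX h [p - y, q - y, r - y, s - y, -y] rfl
  simp only [List.reverse_cons, List.reverse_nil, List.nil_append, List.cons_append] at h2
  rw [h2, h1, neg_neg]

theorem vanish (h : BA 5 H) (hneg : ∀ w : List V, H (w.map (fun x => -x)) = - H w)
    (h2 : ∀ m : M, m + m = 0 → m = 0) (a y b c d : V) : H [a, y, b, c, d] = 0 := by
  apply h2
  have e1 := expand2 (altX h) a y b c d
  rw [flip h hneg y a b c d, flip h hneg y b a c d, flip h hneg y b c a d,
    flip h hneg y b c d a] at e1
  have e2 : H [b - y, c - y, d - y, -y, a - y] = - H [y - a, b - a, c - a, d - a, -a] :=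
    step h hneg _ _ _ _ _ (by abel) (by abel) (by abel) (by abel) (by abel)
  have e3 : H [y - a, b - a, c - a, d - a, -a] = - H [a, y, b, c, d] :=
    step h hneg _ _ _ _ _ (by abel) (by abel) (by abel) (by abel) (by abel)
  rw [e3, neg_neg] at e2
  have e4 := expand (altX h) (b - y) (c - y) (d - y) (-y) (a - y)
  rw [e2] at e4
  nth_rewrite 1 [e1]
  rw [e4]
  abel

end rot

end Odd5

open Odd5 MvPolynomial

theorem sOdd5 : SOdd5 := by
  intro e he
  rw [eq_bot_iff]
  intro f hf
  obtain ⟨hf1, hf2⟩ := hf
  rw [Submodule.mem_bot]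
  have h1 := vanish (H := fun l : List (MvPolynomial (Fin 5) ℚ) => ev f l) hf2
    (fun w => T3odd.ev_neg f e hf1 he w) (fun m hm => by
      have : (2 : MvPolynomial (Fin 5) ℚ) * m = 0 := by rw [two_mul]; exact hm
      exact (mul_eq_zero.1 this).resolve_left two_ne_zero) (X 0) (X 1) (X 2) (X 3) (X 4)
  have h2 : ev f [(X 0 : MvPolynomial (Fin 5) ℚ), X 1, X 2, X 3, X 4] = f := by
    unfold ev
    have e1 : (fun i : Fin 5 =>
        [(X 0 : MvPolynomial (Fin 5) ℚ), X 1, X 2, X 3, X 4].getD i 0) = X := by
      funext i
      fin_cases i <;> rfl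
    rw [e1, aeval_X_left_apply]
  rw [← h2]
  exact h1

end Pool.Agent.H492.RF
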