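import Pool.Agent.H492.RF.Stm5

/-!
# `SSpan5`: structure of depth five in odd weights
-/

set_option autoImplicit false

namespace Pool.Agent.H492.RF

namespace Span5Aux

variable {R : Type} [CommRing R] [Algebra ℚ R]

/-- the atoms -/
def At (O : ℕ → Submodule ℚ R) (G : ℕ → ℕ → Submodule ℚ R) (p : ℕ × ℕ) : Submodule ℚ R :=
  if p.1 = 1 then O p.2 else G p.1 p.2

/-- the lists with given depth and weight -/
def Ls (r k : ℕ) : Set (List (ℕ × ℕ)) :=
  {l | (∀ p ∈ l, 1 ≤ p.1) ∧ (l.map Prod.fst).sum = r ∧ (l.map Prod.snd).sum = k}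

/-- the span of the products of atoms -/
def PP (O : ℕ → Submodule ℚ R) (G : ℕ → ℕ → Submodule ℚ R) (r k : ℕ) : Submodule ℚ R :=
  ⨆ l ∈ Ls r k, (l.map (At O G)).prod

theorem le_PP (O : ℕ → Submodule ℚ R) (G : ℕ → ℕ → Submodule ℚ R) {r k : ℕ}
    {l : List (ℕ × ℕ)} (hl : l ∈ Ls r k) : (l.map (At O G)).prod ≤ PP O G r k :=
  le_iSup₂ (f := fun (l : List (ℕ × ℕ)) (_ : l ∈ Ls r k) => (l.map (At O G)).prod) l hl

theorem PP_mul (O : ℕ → Submodule ℚ R) (G : ℕ → ℕ → Submodule ℚ R) (r k s l : ℕ) :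
    PP O G r k * PP O G s l ≤ PP O G (r + s) (k + l) := by
  have h : ∀ a ∈ Ls r k, ∀ b ∈ Ls s l,
      (a.map (At O G)).prod * (b.map (At O G)).prod ≤ PP O G (r + s) (k + l) := by
    rintro a ⟨a1, a2, a3⟩ b ⟨b1, b2, b3⟩
    rw [← List.prod_append, ← List.map_append]
    refine le_PP O G ⟨?_, ?_, ?_⟩
    · intro p hp
      rcases List.mem_append.1 hp with hp | hp
      · exact a1 p hp
      · exact b1 p hp
    · rw [List.map_append, List.sum_append, a2, b2]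
    · rw [List.map_append, List.sum_append, a3, b3]
  have h1 : PP O G r k * PP O G s l =
      ⨆ b ∈ Ls s l, ⨆ a ∈ Ls r k, (a.map (At O G)).prod * (b.map (At O G)).prod := by
    unfold PP
    simp only [Submodule.iSup_mul, Submodule.mul_iSup]
  rw [h1]
  exact iSup₂_le fun b hb => iSup₂_le fun a ha => h a ha b hb

/-- the hypotheses -/
structure Hyp (F Pr G : ℕ → ℕ → Submodule ℚ R) (O : ℕ → Submodule ℚ R) : Prop where
  one : (1 : Submodule ℚ R) ≤ F 0 0
  mul : ∀ r₁ r₂ k₁ k₂, F r₁ k₁ * F r₂ k₂ ≤ F (r₁ + r₂) (k₁ + k₂)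
  ee : ∀ i j, Even i → Even j → F 1 i * F 1 j ≤ F 1 (i + j)
  pel : ∀ (r k : ℕ) (N : Submodule ℚ R),
    (∀ r₁ r₂ k₁ k₂, 1 ≤ r₁ → 1 ≤ r₂ → r₁ + r₂ = r → k₁ + k₂ = k →
      F r₁ k₁ * F r₂ k₂ ≤ N) → Pr r k ≤ N
  le : ∀ r k, 2 ≤ r → F r k ≤ F (r - 1) k ⊔ Pr r k ⊔ G r k
  gle : ∀ r k, 2 ≤ r → G r k ≤ F r k
  par : ∀ r k, 2 ≤ r → r ≤ 5 → ¬ (Even r ↔ Even k) → G r k = ⊥
  ole : ∀ k, O k ≤ F 1 k
  odd : ∀ k, Odd k → F 1 k ≤ O k

variable {F Pr G : ℕ → ℕ → Submodule ℚ R} {O : ℕ → Submodule ℚ R}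

theorem PP_le (h : Hyp F Pr G O) (r k : ℕ) : PP O G r k ≤ F r k := by
  refine iSup₂_le ?_
  rintro l ⟨h1, rfl, rfl⟩
  induction l with
  | nil => exact h.one
  | cons p l ih =>
    rw [List.map_cons, List.prod_cons, List.map_cons, List.sum_cons, List.map_cons, List.sum_cons]
    refine le_trans (mul_le_mul' ?_ (ih fun q hq => h1 q (List.mem_cons_of_mem _ hq)))
      (h.mul _ _ _ _)
    have h2 := h1 p List.mem_cons_self
    unfold At
    split_ifs with h3
    · rw [h3]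
      exact h.ole _
    · exact h.gle _ _ (by omega)

/-- the span of the products with one even value of depth one -/
def EE (F G : ℕ → ℕ → Submodule ℚ R) (O : ℕ → Submodule ℚ R) (r k : ℕ) : Submodule ℚ R :=
  ⨆ p ∈ {p : ℕ × ℕ | Even p.1 ∧ p.1 + p.2 = k}, F 1 p.1 * PP O G (r - 1) p.2

theorem le_EE (r : ℕ) {a b k : ℕ} (ha : Even a) (hk : a + b = k) :
    F 1 a * PP O G (r - 1) b ≤ EE F G O r k :=
  le_iSup₂ (f := fun (p : ℕ × ℕ) (_ : p ∈ {p : ℕ × ℕ | Even p.1 ∧ p.1 + p.2 = k}) =>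
    F 1 p.1 * PP O G (r - 1) p.2) (a, b) ⟨ha, hk⟩

open Classical in
/-- the main part -/
noncomputable def XX (F G : ℕ → ℕ → Submodule ℚ R) (O : ℕ → Submodule ℚ R) (r k : ℕ) :
    Submodule ℚ R :=
  if (Even r ↔ Even k) then PP O G r k else EE F G O r k

theorem EE_le (h : Hyp F Pr G O) {r : ℕ} (hr : 1 ≤ r) (k : ℕ) : EE F G O r k ≤ F r k := by
  refine iSup₂_le ?_
  rintro ⟨a, b⟩ ⟨h1, h2⟩
  refine (mul_le_mul_right (PP_le h (r - 1) b) _).trans ?_
  refine (h.mul 1 (r - 1) a b).trans ?_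
  have h2' : a + b = k := h2
  rw [h2', show 1 + (r - 1) = r by omega]

theorem XX_le (h : Hyp F Pr G O) {r : ℕ} (hr : 1 ≤ r) (k : ℕ) : XX F G O r k ≤ F r k := by
  unfold XX
  split_ifs
  · exact PP_le h r k
  · exact EE_le h hr k

theorem PE (r₁ r₂ k₁ k₂ : ℕ) (h2 : 1 ≤ r₂) :
    PP O G r₁ k₁ * EE F G O r₂ k₂ ≤ EE F G O (r₁ + r₂) (k₁ + k₂) := by
  unfold EE
  simp only [Submodule.mul_iSup]
  refine iSup₂_le ?_
  rintro ⟨a, b⟩ ⟨h3, h4⟩
  have h4' : a + b = k₂ := h4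
  show PP O G r₁ k₁ * (F 1 a * PP O G (r₂ - 1) b) ≤ _
  have e : PP O G r₁ k₁ * (F 1 a * PP O G (r₂ - 1) b) =
      F 1 a * (PP O G r₁ k₁ * PP O G (r₂ - 1) b) := by ring
  rw [e]
  refine (mul_le_mul_right (PP_mul O G r₁ k₁ (r₂ - 1) b) _).trans ?_
  have h5 := le_EE (F := F) (G := G) (O := O) (r₁ + r₂) (a := a) (b := k₁ + b) (k := k₁ + k₂) h3
    (by omega)
  rw [show r₁ + r₂ - 1 = r₁ + (r₂ - 1) by omega] at h5
  exact h5

theorem EEmul (h : Hyp F Pr G O) {r₁ r₂ : ℕ} (k₁ k₂ : ℕ) (h1 : 1 ≤ r₁) (h2 : 1 ≤ r₂) :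
    EE F G O r₁ k₁ * EE F G O r₂ k₂ ≤ F (r₁ + r₂ - 1) (k₁ + k₂) := by
  have e1 : EE F G O r₁ k₁ * EE F G O r₂ k₂ =
      ⨆ q ∈ {q : ℕ × ℕ | Even q.1 ∧ q.1 + q.2 = k₂}, ⨆ p ∈ {p : ℕ × ℕ | Even p.1 ∧ p.1 + p.2 = k₁},
        (F 1 p.1 * PP O G (r₁ - 1) p.2) * (F 1 q.1 * PP O G (r₂ - 1) q.2) := by
    unfold EE
    simp only [Submodule.iSup_mul, Submodule.mul_iSup]
  rw [e1]
  refine iSup₂_le ?_
  rintro ⟨c, d⟩ ⟨h5, h6⟩
  refine iSup₂_le ?_
  rintro ⟨a, b⟩ ⟨h3, h4⟩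
  have h3' : Even a := h3
  have h4' : a + b = k₁ := h4
  have h5' : Even c := h5
  have h6' : c + d = k₂ := h6
  show (F 1 a * PP O G (r₁ - 1) b) * (F 1 c * PP O G (r₂ - 1) d) ≤ _
  have e : (F 1 a * PP O G (r₁ - 1) b) * (F 1 c * PP O G (r₂ - 1) d) =
      (F 1 a * F 1 c) * (PP O G (r₁ - 1) b * PP O G (r₂ - 1) d) := by ring
  rw [e]
  refine (mul_le_mul' (h.ee a c h3' h5')
    ((mul_le_mul' (PP_le h (r₁ - 1) b) (PP_le h (r₂ - 1) d)).trans (h.mul _ _ _ _))).trans ?_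
  refine (h.mul _ _ _ _).trans (le_of_eq ?_)
  congr 1 <;> omega

theorem XXmul (h : Hyp F Pr G O) {r₁ r₂ : ℕ} (k₁ k₂ : ℕ) (h1 : 1 ≤ r₁) (h2 : 1 ≤ r₂) :
    XX F G O r₁ k₁ * XX F G O r₂ k₂ ≤
      F (r₁ + r₂ - 1) (k₁ + k₂) ⊔ XX F G O (r₁ + r₂) (k₁ + k₂) := by
  unfold XX
  by_cases c1 : (Even r₁ ↔ Even k₁)
  · by_cases c2 : (Even r₂ ↔ Even k₂)
    · rw [if_pos c1, if_pos c2, if_pos (by rw [Nat.even_add, Nat.even_add, c1, c2])]
      exact (PP_mul O G r₁ k₁ r₂ k₂).trans le_sup_right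
    · rw [if_pos c1, if_neg c2, if_neg (by rw [Nat.even_add, Nat.even_add]; tauto)]
      exact (PE r₁ r₂ k₁ k₂ h2).trans le_sup_right
  · by_cases c2 : (Even r₂ ↔ Even k₂)
    · rw [if_neg c1, if_pos c2, if_neg (by rw [Nat.even_add, Nat.even_add]; tauto), mul_comm,
        add_comm r₁ r₂, add_comm k₁ k₂]
      exact (PE r₂ r₁ k₂ k₁ h1).trans le_sup_right
    · rw [if_neg c1, if_neg c2]
      exact (EEmul h k₁ k₂ h1 h2).trans le_sup_left

/-- the structure -/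
theorem claim (h : Hyp F Pr G O) (r : ℕ) : 1 ≤ r → r ≤ 5 → ∀ k, F r k ≤ F (r - 1) k ⊔ XX F G O r k := by
  induction r using Nat.strong_induction_on with
  | _ r ih =>
    intro hr hr5 k
    rcases Nat.eq_or_lt_of_le hr with h1 | h1
    · subst h1
      refine le_trans ?_ le_sup_right
      unfold XX
      split_ifs with c
      · have hk : Odd k := by
          rw [← Nat.not_even_iff_odd]
          intro hk
          exact absurd (c.2 hk) (by decide)
        refine (h.odd k hk).trans ?_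
        have h2 := le_PP O G (r := 1) (k := k) (l := [(1, k)]) ⟨by simp, by simp, by simp⟩
        rw [List.map_singleton, List.prod_singleton] at h2
        exact h2
      · have hk : Even k := by
          by_contra hk
          exact c ⟨fun h3 => absurd h3 (by decide), fun h3 => absurd h3 hk⟩
        have h2 := le_EE (F := F) (G := G) (O := O) 1 (a := k) (b := 0) (k := k) hk (by omega)
        refine le_trans ?_ h2
        have h3 := le_PP O G (r := 0) (k := 0) (l := []) ⟨by simp, by simp, by simp⟩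
        rw [List.map_nil, List.prod_nil] at h3
        calc F 1 k = F 1 k * 1 := (mul_one _).symm
          _ ≤ F 1 k * PP O G (1 - 1) 0 := mul_le_mul_right h3 _
    · refine (h.le r k h1).trans (sup_le (sup_le le_sup_left ?_) ?_)
      · refine h.pel r k _ fun r₁ r₂ k₁ k₂ hr1 hr2 hrr hkk => ?_
        subst hrr
        subst hkk
        have i1 := ih r₁ (by omega) hr1 (by omega) k₁
        have i2 := ih r₂ (by omega) hr2 (by omega) k₂
        have e1 : F (r₁ - 1) k₁ * F r₂ k₂ ≤ F (r₁ + r₂ - 1) (k₁ + k₂) := by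
          refine (h.mul _ _ _ _).trans (le_of_eq ?_)
          congr 1
          omega
        have e2 : XX F G O r₁ k₁ * F (r₂ - 1) k₂ ≤ F (r₁ + r₂ - 1) (k₁ + k₂) := by
          refine (mul_le_mul_left (XX_le h hr1 k₁) _).trans ((h.mul _ _ _ _).trans (le_of_eq ?_))
          congr 1
          omega
        calc F r₁ k₁ * F r₂ k₂ ≤ (F (r₁ - 1) k₁ ⊔ XX F G O r₁ k₁) * F r₂ k₂ :=
              mul_le_mul_left i1 _
          _ = F (r₁ - 1) k₁ * F r₂ k₂ ⊔ XX F G O r₁ k₁ * F r₂ k₂ := Submodule.sup_mul _ _ _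
          _ ≤ F (r₁ + r₂ - 1) (k₁ + k₂) ⊔ XX F G O (r₁ + r₂) (k₁ + k₂) := by
              refine sup_le (e1.trans le_sup_left) ?_
              calc XX F G O r₁ k₁ * F r₂ k₂
                  ≤ XX F G O r₁ k₁ * (F (r₂ - 1) k₂ ⊔ XX F G O r₂ k₂) := mul_le_mul_right i2 _
                _ = XX F G O r₁ k₁ * F (r₂ - 1) k₂ ⊔ XX F G O r₁ k₁ * XX F G O r₂ k₂ :=
                    Submodule.mul_sup _ _ _
                _ ≤ F (r₁ + r₂ - 1) (k₁ + k₂) ⊔ XX F G O (r₁ + r₂) (k₁ + k₂) :=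
                    sup_le (e2.trans le_sup_left) (XXmul h k₁ k₂ hr1 hr2)
      · refine le_trans ?_ le_sup_right
        unfold XX
        split_ifs with c
        · have h2 := le_PP O G (r := r) (k := k) (l := [(r, k)])
            ⟨by simp only [List.mem_singleton, forall_eq]; omega, by simp, by simp⟩
          rw [List.map_singleton, List.prod_singleton] at h2
          refine le_trans (le_of_eq ?_) h2
          unfold At
          rw [if_neg (by show ¬ r = 1; omega)]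
        · rw [h.par r k h1 hr5 c]
          exact bot_le

/-- the products of depth five -/
theorem enum {k : ℕ} {N : Submodule ℚ R} (t5 : G 5 k ≤ N)
    (og4 : ∀ a b, a + b = k → O a * G 4 b ≤ N) (g2g3 : ∀ a b, a + b = k → G 2 a * G 3 b ≤ N)
    (oog3 : ∀ a b c, a + b + c = k → O a * O b * G 3 c ≤ N)
    (og2g2 : ∀ a b c, a + b + c = k → O c * (G 2 a * G 2 b) ≤ N)
    (ooog2 : ∀ a b c d, a + b + c + d = k → O a * O b * O c * G 2 d ≤ N)
    (o5 : ∀ a b c d e, a + b + c + d + e = k → O a * O b * O c * O d * O e ≤ N) :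
    PP O G 5 k ≤ N := by
  have A1 : ∀ a, At O G (1, a) = O a := fun a => if_pos rfl
  have A2 : ∀ a, At O G (2, a) = G 2 a := fun a =>
    if_neg (show ¬ (2 : ℕ) = 1 by decide)
  have A3 : ∀ a, At O G (3, a) = G 3 a := fun a =>
    if_neg (show ¬ (3 : ℕ) = 1 by decide)
  have A4 : ∀ a, At O G (4, a) = G 4 a := fun a =>
    if_neg (show ¬ (4 : ℕ) = 1 by decide)
  have A5 : ∀ a, At O G (5, a) = G 5 a := fun a =>
    if_neg (show ¬ (5 : ℕ) = 1 by decide)
  refine iSup₂_le ?_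
  rintro l ⟨h1, h2, h3⟩
  match l, h1, h2, h3 with
  | [], _, h2, _ => simp at h2
  | [(r, a)], _, h2, h3 =>
    simp only [List.map_cons, List.map_nil, List.sum_cons, List.sum_nil, add_zero] at h2 h3
    subst h2
    subst h3
    rw [List.map_singleton, List.prod_singleton, A5]
    exact t5
  | [(r, a), (s, b)], h1, h2, h3 =>
    simp only [List.map_cons, List.map_nil, List.sum_cons, List.sum_nil, add_zero,
      List.prod_cons, List.prod_nil, mul_one, List.mem_cons, List.not_mem_nil, or_false,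
      forall_eq_or_imp, forall_eq] at h1 h2 h3 ⊢
    rcases (show r = 1 ∧ s = 4 ∨ r = 2 ∧ s = 3 ∨ r = 3 ∧ s = 2 ∨ r = 4 ∧ s = 1 by omega) with
      ⟨rfl, rfl⟩ | ⟨rfl, rfl⟩ | ⟨rfl, rfl⟩ | ⟨rfl, rfl⟩
    · rw [A1, A4]
      exact og4 a b h3
    · rw [A2, A3]
      exact g2g3 a b h3
    · rw [A3, A2, mul_comm]
      exact g2g3 b a (by omega)
    · rw [A4, A1, mul_comm]
      exact og4 b a (by omega)
  | [(r, a), (s, b), (t, c)], h1, h2, h3 =>
    simp only [List.map_cons, List.map_nil, List.sum_cons, List.sum_nil, add_zero,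
      List.prod_cons, List.prod_nil, mul_one, List.mem_cons, List.not_mem_nil, or_false,
      forall_eq_or_imp, forall_eq] at h1 h2 h3 ⊢
    rcases (show r = 1 ∧ s = 1 ∧ t = 3 ∨ r = 1 ∧ s = 3 ∧ t = 1 ∨ r = 3 ∧ s = 1 ∧ t = 1 ∨
      r = 1 ∧ s = 2 ∧ t = 2 ∨ r = 2 ∧ s = 1 ∧ t = 2 ∨ r = 2 ∧ s = 2 ∧ t = 1 by omega) with
      ⟨rfl, rfl, rfl⟩ | ⟨rfl, rfl, rfl⟩ | ⟨rfl, rfl, rfl⟩ | ⟨rfl, rfl, rfl⟩ | ⟨rfl, rfl, rfl⟩ |
      ⟨rfl, rfl, rfl⟩
    · rw [A1, A1, A3]
      exact le_trans (le_of_eq (by ring)) (oog3 a b c (by omega))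
    · rw [A1, A1, A3]
      exact le_trans (le_of_eq (by ring)) (oog3 a c b (by omega))
    · rw [A1, A1, A3]
      exact le_trans (le_of_eq (by ring)) (oog3 b c a (by omega))
    · rw [A1, A2, A2]
      exact le_trans (le_of_eq (by ring)) (og2g2 b c a (by omega))
    · rw [A1, A2, A2]
      exact le_trans (le_of_eq (by ring)) (og2g2 a c b (by omega))
    · rw [A1, A2, A2]
      exact le_trans (le_of_eq (by ring)) (og2g2 a b c (by omega))
  | [(r, a), (s, b), (t, c), (u, d)], h1, h2, h3 =>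
    simp only [List.map_cons, List.map_nil, List.sum_cons, List.sum_nil, add_zero,
      List.prod_cons, List.prod_nil, mul_one, List.mem_cons, List.not_mem_nil, or_false,
      forall_eq_or_imp, forall_eq] at h1 h2 h3 ⊢
    rcases (show r = 2 ∧ s = 1 ∧ t = 1 ∧ u = 1 ∨ r = 1 ∧ s = 2 ∧ t = 1 ∧ u = 1 ∨
      r = 1 ∧ s = 1 ∧ t = 2 ∧ u = 1 ∨ r = 1 ∧ s = 1 ∧ t = 1 ∧ u = 2 by omega) with
      ⟨rfl, rfl, rfl, rfl⟩ | ⟨rfl, rfl, rfl, rfl⟩ | ⟨rfl, rfl, rfl, rfl⟩ | ⟨rfl, rfl, rfl, rfl⟩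
    · rw [A2, A1, A1, A1]
      exact le_trans (le_of_eq (by ring)) (ooog2 b c d a (by omega))
    · rw [A2, A1, A1, A1]
      exact le_trans (le_of_eq (by ring)) (ooog2 a c d b (by omega))
    · rw [A2, A1, A1, A1]
      exact le_trans (le_of_eq (by ring)) (ooog2 a b d c (by omega))
    · rw [A2, A1, A1, A1]
      exact le_trans (le_of_eq (by ring)) (ooog2 a b c d (by omega))
  | [(r, a), (s, b), (t, c), (u, d), (w, e)], h1, h2, h3 =>
    simp only [List.map_cons, List.map_nil, List.sum_cons, List.sum_nil, add_zero,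
      List.prod_cons, List.prod_nil, mul_one, List.mem_cons, List.not_mem_nil, or_false,
      forall_eq_or_imp, forall_eq] at h1 h2 h3 ⊢
    obtain ⟨rfl, rfl, rfl, rfl, rfl⟩ : r = 1 ∧ s = 1 ∧ t = 1 ∧ u = 1 ∧ w = 1 := by omega
    rw [A1, A1, A1, A1, A1]
    exact le_trans (le_of_eq (by ring)) (o5 a b c d e (by omega))
  | (p :: q :: r :: s :: t :: u :: l), h1, h2, _ =>
    exfalso
    have i1 := h1 p (by simp)
    have i2 := h1 q (by simp)
    have i3 := h1 r (by simp)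
    have i4 := h1 s (by simp)
    have i5 := h1 t (by simp)
    have i6 := h1 u (by simp)
    simp only [List.map_cons, List.sum_cons] at h2
    omega

theorem exists_sorted (l : List ℕ) : ∃ l' : List ℕ, l'.Perm l ∧ l'.Pairwise (· ≤ ·) :=
  ⟨l.insertionSort (· ≤ ·), List.perm_insertionSort _ _, List.pairwise_insertionSort _ _⟩

/-- three factors may be ordered -/
theorem sort3 {Q : Submodule ℚ R → ℕ → Prop} (O : ℕ → Submodule ℚ R)
    (h : ∀ a b c, a ≤ b → b ≤ c → Q (O a * O b * O c) (a + b + c)) (a b c : ℕ) :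
    Q (O a * O b * O c) (a + b + c) := by
  obtain ⟨l', hp, hs⟩ := exists_sorted [a, b, c]
  have hlen := hp.length_eq
  have h1 := (hp.map O).prod_eq
  have h2 := hp.sum_eq
  match l', hlen, h1, h2, hs with
  | [x, y, z], _, h1, h2, hs =>
    simp only [List.map_cons, List.map_nil, List.prod_cons, List.prod_nil, mul_one] at h1
    simp only [List.sum_cons, List.sum_nil, add_zero] at h2
    simp only [List.pairwise_cons, List.mem_cons, List.not_mem_nil, or_false, forall_eq_or_imp,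
      forall_eq] at hs
    have h3 := h x y z hs.1.1 hs.2.1
    rw [mul_assoc, h1, ← mul_assoc, show x + y + z = a + b + c by omega] at h3
    exact h3

/-- five factors may be ordered -/
theorem sort5 {Q : Submodule ℚ R → ℕ → Prop} (O : ℕ → Submodule ℚ R)
    (h : ∀ a b c d e, a ≤ b → b ≤ c → c ≤ d → d ≤ e →
      Q (O a * O b * O c * O d * O e) (a + b + c + d + e)) (a b c d e : ℕ) :
    Q (O a * O b * O c * O d * O e) (a + b + c + d + e) := by
  obtain ⟨l', hp, hs⟩ := exists_sorted [a, b, c, d, e]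
  have hlen := hp.length_eq
  have h1 := (hp.map O).prod_eq
  have h2 := hp.sum_eq
  match l', hlen, h1, h2, hs with
  | [x, y, z, w, v], _, h1, h2, hs =>
    simp only [List.map_cons, List.map_nil, List.prod_cons, List.prod_nil, mul_one] at h1
    simp only [List.sum_cons, List.sum_nil, add_zero] at h2
    simp only [List.pairwise_cons, List.mem_cons, List.not_mem_nil, or_false, forall_eq_or_imp,
      forall_eq] at hs
    have h3 := h x y z w v hs.1.1 hs.2.1.1 hs.2.2.1.1 hs.2.2.2.1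
    have e1 : O x * O y * O z * O w * O v = O x * (O y * (O z * (O w * O v))) := by ring
    have e2 : O a * O b * O c * O d * O e = O a * (O b * (O c * (O d * O e))) := by ring
    rw [e1, h1, ← e2, show x + y + z + w + v = a + b + c + d + e by omega] at h3
    exact h3

end Span5Aux

open Span5Aux in
/-- the structure of depth five in odd weights -/
theorem sSpan5 {R : Type} [CommRing R] [Algebra ℚ R] (D : DS R) : SSpan5 D := by
  intro hMul hOne G hG hpar k hk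
  have hyp : Hyp (Fil D) (Prd D) G (Od D) :=
    { one := by
        rw [Submodule.one_le]
        refine Submodule.subset_span ⟨[], ⟨by simp, by simp⟩, by simp, by simp, ?_⟩
        exact D.one.symm
      mul := hMul
      ee := hOne.2
      pel := by
        intro r k N hX
        unfold Prd
        rw [Submodule.span_le]
        rintro x ⟨r₁, r₂, k₁, k₂, h1, h2, h3, h4, y, hy, z, hz, rfl⟩
        exact hX r₁ r₂ k₁ k₂ h1 h2 h3 h4 (Submodule.mul_mem_mul hy hz)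
      le := fun r k hr => (hG r k hr).2
      gle := fun r k hr => (hG r k hr).1
      par := hpar
      ole := by
        intro k
        unfold Od
        split_ifs
        · exact le_rfl
        · exact bot_le
      odd := by
        intro k hk
        unfold Od
        rw [if_pos hk] }
  have hmain := claim hyp 5 (by norm_num) le_rfl k
  have hpk : (Even 5 ↔ Even k) := by
    constructor
    · intro h
      exact absurd h (by decide)
    · intro h
      exact absurd hk (Nat.not_odd_iff_even.2 h)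
  unfold XX at hmain
  rw [if_pos hpk] at hmain
  set N : Submodule ℚ R := Fil D 4 k ⊔ G 5 k ⊔
    (⨆ i ∈ {i | i ≤ k}, Od D i * G 4 (k - i)) ⊔
    (⨆ i ∈ {i | i ≤ k}, G 2 i * G 3 (k - i)) ⊔
    (⨆ p ∈ {p : ℕ × ℕ | p.1 ≤ p.2 ∧ p.1 + p.2 ≤ k}, Od D p.1 * Od D p.2 * G 3 (k - p.1 - p.2)) ⊔
    (⨆ p ∈ {p : ℕ × ℕ | p.1 ≤ p.2 ∧ p.1 + p.2 ≤ k}, Od D (k - p.1 - p.2) * (G 2 p.1 * G 2 p.2)) ⊔
    (⨆ p ∈ {p : ℕ × ℕ × ℕ | p.1 ≤ p.2.1 ∧ p.2.1 ≤ p.2.2 ∧ p.1 + p.2.1 + p.2.2 ≤ k},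
      Od D p.1 * Od D p.2.1 * Od D p.2.2 * G 2 (k - p.1 - p.2.1 - p.2.2)) ⊔
    (⨆ p ∈ {p : ℕ × ℕ × ℕ × ℕ × ℕ | p.1 ≤ p.2.1 ∧ p.2.1 ≤ p.2.2.1 ∧ p.2.2.1 ≤ p.2.2.2.1 ∧
      p.2.2.2.1 ≤ p.2.2.2.2 ∧ p.1 + p.2.1 + p.2.2.1 + p.2.2.2.1 + p.2.2.2.2 = k},
      Od D p.1 * Od D p.2.1 * Od D p.2.2.1 * Od D p.2.2.2.1 * Od D p.2.2.2.2) with hN
  have u7 : ∀ {M : Submodule ℚ R}, M ≤ Fil D 4 k ⊔ G 5 k → M ≤ N := fun h => by
    rw [hN]
    exact h.trans (le_sup_left.trans (le_sup_left.trans (le_sup_left.trans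
      (le_sup_left.trans (le_sup_left.trans le_sup_left)))))
  refine hmain.trans (sup_le (u7 le_sup_left) ?_)
  refine enum (u7 le_sup_right) ?_ ?_ ?_ ?_ ?_ ?_
  · intro a b hab
    rw [hN]
    refine le_trans ?_ (le_sup_right.trans (le_sup_left.trans (le_sup_left.trans
      (le_sup_left.trans (le_sup_left.trans le_sup_left)))))
    refine le_trans ?_ (le_iSup₂ (f := fun (i : ℕ) (_ : i ∈ {i | i ≤ k}) =>
      Od D i * G 4 (k - i)) a (show a ≤ k by omega))
    rw [show k - a = b by omega]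
  · intro a b hab
    rw [hN]
    refine le_trans ?_ (le_sup_right.trans (le_sup_left.trans (le_sup_left.trans
      (le_sup_left.trans le_sup_left))))
    refine le_trans ?_ (le_iSup₂ (f := fun (i : ℕ) (_ : i ∈ {i | i ≤ k}) =>
      G 2 i * G 3 (k - i)) a (show a ≤ k by omega))
    rw [show k - a = b by omega]
  · have key : ∀ a b c, a ≤ b → a + b + c = k → Od D a * Od D b * G 3 c ≤ N := by
      intro a b c hab habc
      rw [hN]
      refine le_trans ?_ (le_sup_right.trans (le_sup_left.trans (le_sup_left.trans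
        le_sup_left)))
      refine le_trans ?_ (le_iSup₂ (f := fun (p : ℕ × ℕ)
        (_ : p ∈ {p : ℕ × ℕ | p.1 ≤ p.2 ∧ p.1 + p.2 ≤ k}) =>
        Od D p.1 * Od D p.2 * G 3 (k - p.1 - p.2)) (a, b) ⟨hab, by simp only; omega⟩)
      simp only
      rw [show k - a - b = c by omega]
    intro a b c habc
    rcases le_total a b with hab | hab
    · exact key a b c hab habc
    · rw [mul_comm (Od D a)]
      exact key b a c hab (by omega)
  · have key : ∀ a b c, a ≤ b → a + b + c = k → Od D c * (G 2 a * G 2 b) ≤ N := by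
      intro a b c hab habc
      rw [hN]
      refine le_trans ?_ (le_sup_right.trans (le_sup_left.trans le_sup_left))
      refine le_trans ?_ (le_iSup₂ (f := fun (p : ℕ × ℕ)
        (_ : p ∈ {p : ℕ × ℕ | p.1 ≤ p.2 ∧ p.1 + p.2 ≤ k}) =>
        Od D (k - p.1 - p.2) * (G 2 p.1 * G 2 p.2)) (a, b) ⟨hab, by simp only; omega⟩)
      simp only
      rw [show k - a - b = c by omega]
    intro a b c habc
    rcases le_total a b with hab | hab
    · exact key a b c hab habc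
    · rw [mul_comm (G 2 a)]
      exact key b a c hab (by omega)
  · have key : ∀ a b c, a ≤ b → b ≤ c →
        ∀ d, a + b + c + d = k → Od D a * Od D b * Od D c * G 2 d ≤ N := by
      intro a b c hab hbc d habcd
      rw [hN]
      refine le_trans ?_ (le_sup_right.trans le_sup_left)
      refine le_trans ?_ (le_iSup₂ (f := fun (p : ℕ × ℕ × ℕ)
        (_ : p ∈ {p : ℕ × ℕ × ℕ | p.1 ≤ p.2.1 ∧ p.2.1 ≤ p.2.2 ∧ p.1 + p.2.1 + p.2.2 ≤ k}) =>
        Od D p.1 * Od D p.2.1 * Od D p.2.2 * G 2 (k - p.1 - p.2.1 - p.2.2)) (a, b, c)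
        ⟨hab, hbc, by simp only; omega⟩)
      simp only
      rw [show k - a - b - c = d by omega]
    intro a b c d habcd
    exact sort3 (Q := fun M s => ∀ d, s + d = k → M * G 2 d ≤ N) (Od D) key a b c d habcd
  · intro a b c d e habcde
    refine sort5 (Q := fun M s => s = k → M ≤ N) (Od D) ?_ a b c d e habcde
    intro a b c d e h1 h2 h3 h4 h5
    rw [hN]
    refine le_trans ?_ le_sup_right
    exact le_iSup₂ (f := fun (p : ℕ × ℕ × ℕ × ℕ × ℕ)
      (_ : p ∈ {p : ℕ × ℕ × ℕ × ℕ × ℕ | p.1 ≤ p.2.1 ∧ p.2.1 ≤ p.2.2.1 ∧ p.2.2.1 ≤ p.2.2.2.1 ∧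
      p.2.2.2.1 ≤ p.2.2.2.2 ∧ p.1 + p.2.1 + p.2.2.1 + p.2.2.2.1 + p.2.2.2.2 = k}) =>
      Od D p.1 * Od D p.2.1 * Od D p.2.2.1 * Od D p.2.2.2.1 * Od D p.2.2.2.2) (a, b, c, d, e)
      ⟨h1, h2, h3, h4, h5⟩

end Pool.Agent.H492.RF
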