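import Pool.Agent.H492.RF.Final
import Pool.Agent.H492.RF.SSpan5Pf
import Pool.Agent.H492.RF.SOdd5Pf
import Pool.Agent.H492.RF.SDimFivePf
import Pool.Agent.H492.RF.Asym5

/-!
# The depth five part of a solution of the regularized double shuffle relations
-/

set_option autoImplicit false

namespace Pool.Agent.H492.RF

open Module

/-- the dimension in terms of the dimensions of the spaces `W` -/
theorem dim_five {R : Type} [CommRing R] [Algebra ℚ R] (D : DS R) (k : ℕ) (hk : Odd k) :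
    finrank ℚ (gr D 5 k) ≤ bnd5 (Pool.Agent.H492.RZ.dW 2) (Pool.Agent.H492.RZ.dW 3)
      (Pool.Agent.H492.RZ.dW 4) (Pool.Agent.H492.RZ.dW 5) k :=
  sDimFive D (sFilMul D) (sOne D (sEuler D)) (sSpan5 D) (sIndT D) Pool.Agent.H492.RZ.sOdd2
    Pool.Agent.H492.RZ.sOdd3 Pool.Agent.H492.UB.sOdd sOdd5 k hk

/-- **Depth five.** -/
theorem depth_five : ∃ C : ℝ, ∀ (R : Type) [CommRing R] [Algebra ℚ R] (D : DS R) (k : ℕ), Odd k →
    (finrank ℚ (gr D 5 k) : ℝ) ≤ (482363 / 401117184) * k ^ 4 + C * (k ^ 3 + 1) := by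
  obtain ⟨C, h⟩ := bnd5_le
  refine ⟨C, fun R _ _ D k hk => ?_⟩
  have h1 : (finrank ℚ (gr D 5 k) : ℝ) ≤ (bnd5 (Pool.Agent.H492.RZ.dW 2)
      (Pool.Agent.H492.RZ.dW 3) (Pool.Agent.H492.RZ.dW 4) (Pool.Agent.H492.RZ.dW 5) k : ℝ) := by
    exact_mod_cast dim_five D k hk
  refine h1.trans ((h k hk).trans (le_of_eq ?_))
  norm_num

end Pool.Agent.H492.RF
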