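import Pool.Agent.H492.RF.Stm
import Pool.Agent.H492.RZ.RegFil

/-!
# The regularized values have the right weight and depth; products (helper294, for helper492)
-/

set_option autoImplicit false

namespace Pool.Agent.H492.RF

open Module
open Pool.Agent.H492.RZ (IsAdm)
open Pool.Agent.Q187.ZD.DS (InH0 InH1 shuffles stuffles index word)

namespace RegFilF

open Pool.Agent.Q189.MV.DSh
open Pool.Agent.H492.RZ.RegFilAux (perm_shuffles inH1_shuffles length_word count_word inH0_word)

variable {R : Type} [CommRing R] [Algebra ℚ R] (D : DS R)

lemma fil_mono {r r' : ℕ} (h : r ≤ r') (k : ℕ) : Fil D r k ≤ Fil D r' k := by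
  refine Submodule.span_mono ?_
  rintro x ⟨s, h1, h2, h3, h4⟩
  exact ⟨s, h1, h2, h3.trans h, h4⟩

lemma adm_mem {w : List Bool} (hw : InH0 w) : D.z w ∈ Fil D (w.count true) w.length := by
  have h2 := word_index' (H0_H1 hw)
  have h3 := index_adm hw
  refine Submodule.subset_span ⟨index 0 w, ⟨index_pos w 0, ?_⟩, ?_, ?_, by rw [h2]⟩
  · intro h4
    rcases hi : index 0 w with _ | ⟨a, t⟩
    · rw [hi] at h4
      simp at h4
    · rw [hi, List.head?_cons, Option.some_inj] at h4
      have h5 := h3.2 a t hi
      omega
  · rw [← length_word _ (index_pos w 0), h2]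
  · rw [← count_word, h2]

/-- shuffles of one letter `true` with a word with `n` letters `true` in front -/
lemma shuffles_rep (t : List Bool) (n : ℕ) :
    shuffles [true] (List.replicate n true ++ t) =
      List.replicate n (List.replicate (n + 1) true ++ t) ++
        (shuffles [true] t).map (List.replicate n true ++ ·) := by
  induction n with
  | zero =>
    simp
  | succ n ih =>
    have e1 : List.replicate (n + 1) true ++ t = true :: (List.replicate n true ++ t) := by
      rw [List.replicate_succ, List.cons_append]
    rw [e1, shuffles, ih]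
    have e2 : shuffles [] (true :: (List.replicate n true ++ t)) =
        [true :: (List.replicate n true ++ t)] := by rw [shuffles]
    rw [e2, List.map_append, List.map_map, List.map_replicate, List.map_cons, List.map_nil,
      List.singleton_append, List.replicate_succ, List.cons_append]
    have e3 : true :: true :: (List.replicate n true ++ t) =
        List.replicate (n + 1 + 1) true ++ t := by
      rw [List.replicate_succ, List.replicate_succ]
      rfl
    rw [e3]
    rfl

lemma sum_replicate (n : ℕ) (w : List Bool) :
    ((List.replicate n w).map D.z).sum = (n : ℚ) • D.z w := by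
  rw [List.map_replicate, List.sum_replicate, Nat.cast_smul_eq_nsmul]

lemma inH1_rep (n : ℕ) : InH1 (List.replicate n true) := by
  cases n with
  | zero => exact Or.inl rfl
  | succ n =>
    right
    rw [List.replicate_succ', List.getLast?_append_of_ne_nil _ (by simp)]
    rfl

lemma z_rep (n : ℕ) : D.z (List.replicate (n + 1) true) = 0 := by
  have h1 := D.shuffle [true] (List.replicate n true) (Or.inr rfl) (inH1_rep n)
  rw [D.y, zero_mul] at h1
  have h2 := shuffles_rep [] n
  rw [List.append_nil, List.append_nil] at h2
  have e1 : shuffles [true] [] = [[true]] := by rw [shuffles]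
  rw [h2, e1, List.map_append, List.sum_append, sum_replicate, List.map_cons, List.map_nil,
    ← List.replicate_succ', List.map_cons, List.map_nil, List.sum_singleton] at h1
  have h3 : ((n : ℚ) + 1) • D.z (List.replicate (n + 1) true) = 0 := by
    rw [add_smul, one_smul]
    exact h1
  have h4 : ((n : ℚ) + 1) ≠ 0 := by positivity
  have h5 := congrArg (fun x => ((n : ℚ) + 1)⁻¹ • x) h3
  simp only [smul_zero] at h5
  rwa [smul_smul, inv_mul_cancel₀ h4, one_smul] at h5

lemma inH1_tail {n : ℕ} {u : List Bool} (h : InH1 (List.replicate n true ++ false :: u)) :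
    u ≠ [] ∧ u.getLast? = some true := by
  rcases h with h | h
  · simp at h
  · rw [List.getLast?_append_of_ne_nil _ (by simp)] at h
    rcases u with _ | ⟨b, u⟩
    · simp at h
    · rw [List.getLast?_cons_cons] at h
      exact ⟨by simp, h⟩

lemma inH1_cons {n : ℕ} {u : List Bool} (h0 : u ≠ []) (h : u.getLast? = some true) :
    InH1 (List.replicate n true ++ false :: u) := by
  right
  rw [List.getLast?_append_of_ne_nil _ (by simp)]
  rcases u with _ | ⟨b, u⟩
  · exact absurd rfl h0
  · rw [List.getLast?_cons_cons]
    exact h

lemma key (n : ℕ) : ∀ u : List Bool, InH1 (List.replicate n true ++ false :: u) →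
    D.z (List.replicate n true ++ false :: u) ∈
      Fil D ((List.replicate n true ++ false :: u).count true)
        (List.replicate n true ++ false :: u).length := by
  induction n with
  | zero =>
    intro u hu
    obtain ⟨h1, h2⟩ := inH1_tail hu
    refine adm_mem D (Or.inr ⟨rfl, ?_⟩)
    rcases hu with hu | hu
    · simp at hu
    · exact hu
  | succ n ih =>
    intro u hu
    obtain ⟨h1, h2⟩ := inH1_tail hu
    have h3 := D.shuffle [true] (List.replicate n true ++ false :: u) (Or.inr rfl)
      (inH1_cons h1 h2)
    have e1 : shuffles [true] (false :: u) =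
        (true :: false :: u) :: (shuffles [true] u).map (false :: ·) := by
      rw [shuffles]
      have : shuffles [] (false :: u) = [false :: u] := by rw [shuffles]
      rw [this]
      rfl
    have e2 : List.replicate n true ++ true :: false :: u =
        List.replicate (n + 1) true ++ false :: u := by
      rw [List.replicate_succ', List.append_assoc]
      rfl
    rw [D.y, zero_mul, shuffles_rep, e1, List.map_append, List.sum_append, sum_replicate,
      List.map_cons, List.map_cons, List.sum_cons, e2, List.map_map, List.map_map] at h3
    set w := List.replicate (n + 1) true ++ false :: u with hw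
    have hmem : ((shuffles [true] u).map (D.z ∘ (fun x => List.replicate n true ++ x) ∘
        fun x => false :: x)).sum ∈ Fil D (w.count true) w.length := by
      refine list_sum_mem fun x hx => ?_
      obtain ⟨r, hr, rfl⟩ := List.mem_map.1 hx
      have h4 := perm_shuffles _ _ r hr
      have h5 := inH1_shuffles (u := [true]) (Or.inr rfl) (Or.inr h2) r hr
      have hr0 : r ≠ [] := by
        intro h
        rw [h] at h4
        have := h4.length_eq
        simp at this
      have h6 : r.getLast? = some true := by
        rcases h5 with h5 | h5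
        · exact absurd h5 hr0
        · exact h5
      have h7 := ih r (inH1_cons hr0 h6)
      have h8 : w.Perm (List.replicate n true ++ false :: r) := by
        rw [← e2]
        refine List.Perm.append_left _ ?_
        exact (List.Perm.swap false true u).trans (h4.symm.cons false)
      rw [h8.count_eq, h8.length_eq]
      exact h7
    have h5 : ((n : ℚ) + 1) • D.z w = -((shuffles [true] u).map
        (D.z ∘ (fun x => List.replicate n true ++ x) ∘ fun x => false :: x)).sum := by
      rw [add_smul, one_smul, eq_neg_iff_add_eq_zero, add_assoc]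
      exact h3
    have h6 : ((n : ℚ) + 1) ≠ 0 := by positivity
    have h7 : D.z w = ((n : ℚ) + 1)⁻¹ • (((n : ℚ) + 1) • D.z w) := by
      rw [smul_smul, inv_mul_cancel₀ h6, one_smul]
    rw [h7, h5]
    exact Submodule.smul_mem _ _ (Submodule.neg_mem _ hmem)

end RegFilF

open RegFilF Pool.Agent.Q189.MV.DSh
open Pool.Agent.H492.RZ.RegFilAux (perm_shuffles inH1_shuffles length_word count_word inH0_word)

/-- the regularized values have the right weight and depth -/
theorem sRegFil {R : Type} [CommRing R] [Algebra ℚ R] (D : DS R) : SRegFil D := by
  intro w hw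
  rcases word_cases w with ⟨-, h2⟩ | ⟨u, -, h2⟩
  · rcases hn : w.length with _ | n
    · have h0 : w = [] := List.length_eq_zero_iff.1 hn
      have h3 := adm_mem D (w := w) (Or.inl h0)
      rwa [hn] at h3
    · rw [hn] at h2
      rw [h2, z_rep]
      exact Submodule.zero_mem _
  · rw [h2] at hw ⊢
    exact key D _ u hw

/-- products -/
theorem sFilMul {R : Type} [CommRing R] [Algebra ℚ R] (D : DS R) : SFilMul D := by
  intro r₁ r₂ k₁ k₂
  unfold Fil
  rw [Submodule.span_mul_span]
  refine Submodule.span_le.2 ?_
  rintro x ⟨y, ⟨s, hs1, hs2, hs3, rfl⟩, z, ⟨t, ht1, ht2, ht3, rfl⟩, rfl⟩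
  show D.z (word s) * D.z (word t) ∈ Fil D (r₁ + r₂) (k₁ + k₂)
  have hs4 := H0_H1 (inH0_word hs1)
  have ht4 := H0_H1 (inH0_word ht1)
  rw [← D.shuffle _ _ hs4 ht4]
  refine list_sum_mem fun x hx => ?_
  obtain ⟨r, hr, rfl⟩ := List.mem_map.1 hx
  have h1 := perm_shuffles _ _ r hr
  have h2 := sRegFil D r (inH1_shuffles hs4 ht4 r hr)
  rw [h1.count_eq, h1.length_eq, List.count_append, List.length_append, count_word, count_word,
    length_word _ hs1.1, length_word _ ht1.1, hs2, ht2] at h2
  exact fil_mono D (by omega) _ h2

end Pool.Agent.H492.RF
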