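import Pool.Agent.H492.RZ.Stm

/-!
# Statements: the depth filtration of an arbitrary solution of the regularized double shuffle relations

`InH1`, `shuffles`, `stuffles`, `word` are the definitions of the library module `Q187.ZD.DS`: words are lists of
booleans, `x = false`, `y = true`, `word [k₁, …, k_r] = x^(k₁-1) y ⋯ x^(k_r-1) y`; `InH1 w`: `w` is empty or ends in `y`.
-/

set_option autoImplicit false

namespace Pool.Agent.H492.RF

open Module
open Pool.Agent.H492.UB (sh ps BA ev)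
open Pool.Agent.H492.RZ (IsAdm pol SNon SAbs SOdd2 SOdd3 dW quads bnd SNum SSepE)
open Pool.Agent.Q187.ZD.DS (InH0 InH1 shuffles stuffles index word)

/-- A solution of the regularized double shuffle relations with values in the commutative `ℚ`-algebra `R`: a character
of the shuffle product on the words which are empty or end in `y`, zero at `y`, with
`z (u * v) = z u · z v` for the stuffle product of the words of two indices the second of which is admissible. -/
structure DS (R : Type) [CommRing R] [Algebra ℚ R] where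
  /-- the value of a word -/
  z : List Bool → R
  one : z [] = 1
  y : z [true] = 0
  shuffle : ∀ u v : List Bool, InH1 u → InH1 v → ((shuffles u v).map z).sum = z u * z v
  stuffle : ∀ u v : List ℕ, (∀ a ∈ u, 1 ≤ a) → IsAdm v →
    ((stuffles u v).map fun s => z (word s)).sum = z (word u) * z (word v)

variable {R : Type} [CommRing R] [Algebra ℚ R] (D : DS R)

/-- the span of the values of the admissible indices of weight `k` and depth at most `r` -/
noncomputable def Fil (r k : ℕ) : Submodule ℚ R :=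
  Submodule.span ℚ {x | ∃ s : List ℕ, IsAdm s ∧ s.sum = k ∧ s.length ≤ r ∧ x = D.z (word s)}

/-- the products of weight `k` and depth at most `r` of two values of positive depths -/
noncomputable def Prd (r k : ℕ) : Submodule ℚ R :=
  Submodule.span ℚ {x | ∃ r₁ r₂ k₁ k₂ : ℕ, 1 ≤ r₁ ∧ 1 ≤ r₂ ∧ r₁ + r₂ = r ∧ k₁ + k₂ = k ∧
    ∃ y ∈ Fil D r₁ k₁, ∃ z ∈ Fil D r₂ k₂, x = y * z}

/-- the regularized values have the right weight and depth -/
def SRegFil : Prop := ∀ w : List Bool, InH1 w → D.z w ∈ Fil D (w.count true) w.length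

/-- products -/
def SFilMul : Prop := ∀ r₁ r₂ k₁ k₂ : ℕ, Fil D r₁ k₁ * Fil D r₂ k₂ ≤ Fil D (r₁ + r₂) (k₁ + k₂)

/-- the stuffle relations modulo products and smaller depth, one of the two indices being admissible -/
def SStuf : Prop := ∀ u v : List ℕ, u ≠ [] → v ≠ [] → (∀ a ∈ u ++ v, 1 ≤ a) → v.head? ≠ some 1 →
  ((sh u v).map fun w => D.z (word w)).sum ∈
    Fil D (u.length + v.length - 1) (u.sum + v.sum) ⊔ Prd D (u.length + v.length) (u.sum + v.sum)

/-- the values of weight `k` and depth `r` modulo smaller depth and products -/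
abbrev Ind (r k : ℕ) : Type := Fil D r k ⧸ (Fil D (r - 1) k ⊔ Prd D r k).comap (Fil D r k).subtype

/-- the number of indecomposable values -/
def SInd : Prop := ∀ r k : ℕ, 2 ≤ r → r < k →
  finrank ℚ (Ind D r k) ≤ finrank ℚ (Pool.Agent.H492.UB.W ℚ r (k - r))

/-- depth one: the values of weight `k` -/
def SOne : Prop := (∀ k : ℕ, finrank ℚ (Fil D 1 k) ≤ 1) ∧
  ∀ i j : ℕ, Even i → Even j → Fil D 1 i * Fil D 1 j ≤ Fil D 1 (i + j)

/-- the part of depth one in odd weights -/
noncomputable def Od (k : ℕ) : Submodule ℚ R := if Odd k then Fil D 1 k else ⊥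

/-- The structure of depth four in even weights: `G r k` are complements. -/
def SSpan : Prop := SFilMul D → SOne D → ∀ G : ℕ → ℕ → Submodule ℚ R,
  (∀ r k, 2 ≤ r → G r k ≤ Fil D r k ∧ Fil D r k ≤ Fil D (r - 1) k ⊔ Prd D r k ⊔ G r k) →
  (∀ r k, 2 ≤ r → r ≤ 4 → ¬ (Even r ↔ Even k) → G r k = ⊥) →
  ∀ k, Even k → Fil D 4 k ≤ Fil D 3 k ⊔ G 4 k ⊔
    (⨆ i ∈ {i | i ≤ k}, Od D i * G 3 (k - i)) ⊔
    (⨆ p ∈ {p : ℕ × ℕ | p.1 ≤ p.2 ∧ p.1 + p.2 ≤ k}, Od D p.1 * Od D p.2 * G 2 (k - p.1 - p.2)) ⊔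
    (⨆ i ∈ {i | 2 * i ≤ k}, G 2 i * G 2 (k - i)) ⊔
    (⨆ p ∈ {p : ℕ × ℕ × ℕ × ℕ | p.1 ≤ p.2.1 ∧ p.2.1 ≤ p.2.2.1 ∧ p.2.2.1 ≤ p.2.2.2 ∧
      p.1 + p.2.1 + p.2.2.1 + p.2.2.2 = k}, Od D p.1 * Od D p.2.1 * Od D p.2.2.1 * Od D p.2.2.2)

/-- the values of weight `k` and depth `r` modulo those of smaller depth -/
abbrev gr (r k : ℕ) : Type := Fil D r k ⧸ (Fil D (r - 1) k).comap (Fil D r k).subtype

/-- the dimension of the depth four part in even weights -/
def SDimFour : Prop := SFilMul D → SOne D → SSpan D → SInd D → SOdd2 → SOdd3 → Pool.Agent.H492.UB.SOdd →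
  ∀ k, Even k → finrank ℚ (gr D 4 k) ≤ bnd (dW 2) (dW 3) (dW 4) k

/-- the value of `x^(k-1) y` -/
noncomputable def zt (k : ℕ) : R := D.z (word [k])

/-- Euler's relation -/
def SEuler : Prop := ∀ m : ℕ, 2 ≤ m →
  ∑ j ∈ Finset.Ico 1 m, zt D (2 * j) * zt D (2 * m - 2 * j) = ((m : ℚ) + 1 / 2) • zt D (2 * m)

end Pool.Agent.H492.RF
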